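import Pool.Agent.helper53.OT.Supp

/-! # Connected subsets of the circle in terms of lifts (MP_90837e_co)

**Proof.** Suppose neither `Icc s t ⊆ S` nor `Icc t (s + 2π) ⊆ S`: there are `r₁ ∈ [s,t] ∖ S` and
`r₂ ∈ [t, s+2π] ∖ S`. Since `s, t ∈ S` and `s + 2π ∈ S`, in fact `s < r₁ < t < r₂ < s + 2π`.
Let `U = coe '' Ioo r₁ r₂` and `V = coe '' Ioo r₂ (r₁ + 2π)`, two open subsets of `Real.Angle` (the
map `coe : ℝ → Real.Angle` is a quotient map by a subgroup, hence open: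
`QuotientAddGroup.isOpenMap_coe`). Every `x ∈ coe '' S` lies in `U ∪ V`: `x` has a representative
`y ∈ [r₁, r₁ + 2π)` (`toIcoMod`), `y ∈ S` by periodicity, `y ≠ r₁`, `y ≠ r₂`. `t ∈ U`, `s + 2π ∈ V`
(`coe (s + 2π) = coe s`). `U ∩ V = ∅` since two representatives in `(r₁, r₁ + 2π)` of the same
angle are equal (`Real.Angle.angle_eq_iff_two_pi_dvd_sub`). This contradicts `IsPreconnected`. -/

namespace Pool.Agent.helper53.OT

open Set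

theorem circle_conn (S : Set ℝ) (hper : ∀ t, t + 2 * Real.pi ∈ S ↔ t ∈ S)
    (h : IsPreconnected ((fun θ : ℝ => (θ : Real.Angle)) '' S)) (s t : ℝ) (hst : s < t)
    (hts : t < s + 2 * Real.pi) (hs : s ∈ S) (ht : t ∈ S) :
    (∀ r ∈ Icc s t, r ∈ S) ∨ (∀ r ∈ Icc t (s + 2 * Real.pi), r ∈ S) := by
  by_contra hcon
  rw [not_or] at hcon
  obtain ⟨h1, h2⟩ := hcon
  push Not at h1 h2
  obtain ⟨r₁, hr₁, hr₁S⟩ := h1
  obtain ⟨r₂, hr₂, hr₂S⟩ := h2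
  have hpi : (0 : ℝ) < 2 * Real.pi := Real.two_pi_pos
  have hs2 : s + 2 * Real.pi ∈ S := (hper s).2 hs
  have h1s : s < r₁ := lt_of_le_of_ne hr₁.1 (fun h => hr₁S (h ▸ hs))
  have h1t : r₁ < t := lt_of_le_of_ne hr₁.2 (fun h => hr₁S (h ▸ ht))
  have h2t : t < r₂ := lt_of_le_of_ne hr₂.1 (fun h => hr₂S (h ▸ ht))
  have h2s : r₂ < s + 2 * Real.pi := lt_of_le_of_ne hr₂.2 (fun h => hr₂S (h ▸ hs2))
  have hP : Function.Periodic (fun x : ℝ => x ∈ S) (2 * Real.pi) := fun x => propext (hper x)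
  have hPz : ∀ (x : ℝ) (n : ℤ), x + n • (2 * Real.pi) ∈ S ↔ x ∈ S := fun x n =>
    iff_of_eq ((hP.zsmul n) x)
  have hopen : IsOpenMap (fun θ : ℝ => (θ : Real.Angle)) := QuotientAddGroup.isOpenMap_coe
  have hU : IsOpen ((fun θ : ℝ => (θ : Real.Angle)) '' Ioo r₁ r₂) := hopen _ isOpen_Ioo
  have hV : IsOpen ((fun θ : ℝ => (θ : Real.Angle)) '' Ioo r₂ (r₁ + 2 * Real.pi)) :=
    hopen _ isOpen_Ioo
  have hcov : (fun θ : ℝ => (θ : Real.Angle)) '' S ⊆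
      (fun θ : ℝ => (θ : Real.Angle)) '' Ioo r₁ r₂ ∪
        (fun θ : ℝ => (θ : Real.Angle)) '' Ioo r₂ (r₁ + 2 * Real.pi) := by
    rintro _ ⟨x, hx, rfl⟩
    obtain ⟨n, hn, -⟩ := existsUnique_add_zsmul_mem_Ico hpi x r₁
    have hyS : x + n • (2 * Real.pi) ∈ S := (hPz x n).2 hx
    have hco : ((x + n • (2 * Real.pi) : ℝ) : Real.Angle) = (x : Real.Angle) := by
      rw [Real.Angle.angle_eq_iff_two_pi_dvd_sub]
      refine ⟨n, ?_⟩
      rw [zsmul_eq_mul]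
      ring
    have hne1 : x + n • (2 * Real.pi) ≠ r₁ := fun h => hr₁S (h ▸ hyS)
    have hne2 : x + n • (2 * Real.pi) ≠ r₂ := fun h => hr₂S (h ▸ hyS)
    rcases lt_or_gt_of_ne hne2 with hlt | hgt
    · exact Or.inl ⟨_, ⟨lt_of_le_of_ne hn.1 (Ne.symm hne1), hlt⟩, hco⟩
    · exact Or.inr ⟨_, ⟨hgt, hn.2⟩, hco⟩
  have hdisj : ∀ a ∈ Ioo r₁ r₂, ∀ b ∈ Ioo r₂ (r₁ + 2 * Real.pi),
      (a : Real.Angle) ≠ (b : Real.Angle) := by
    intro a ha b hb hab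
    rw [Real.Angle.angle_eq_iff_two_pi_dvd_sub] at hab
    obtain ⟨k, hk⟩ := hab
    have h3 : 2 * Real.pi * (k : ℝ) < 0 := by
      rw [← hk]
      linarith [ha.2, hb.1]
    have h4 : -(2 * Real.pi) < 2 * Real.pi * (k : ℝ) := by
      rw [← hk]
      linarith [ha.1, hb.2]
    have h5 : (k : ℝ) < 0 := by
      by_contra h6
      have := mul_nonneg hpi.le (not_lt.1 h6)
      linarith
    have h6 : (-1 : ℝ) < (k : ℝ) := by
      by_contra h7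
      have := mul_le_mul_of_nonneg_left (not_lt.1 h7) hpi.le
      linarith
    have h7 : k < 0 := by exact_mod_cast h5
    have h8 : -1 < k := by exact_mod_cast h6
    omega
  obtain ⟨z, -, ⟨a, ha, hza⟩, ⟨b, hb, hzb⟩⟩ := h _ _ hU hV hcov
    ⟨(t : Real.Angle), ⟨t, ht, rfl⟩, ⟨t, ⟨h1t, h2t⟩, rfl⟩⟩
    ⟨((s + 2 * Real.pi : ℝ) : Real.Angle), ⟨s + 2 * Real.pi, hs2, rfl⟩,
      ⟨s + 2 * Real.pi, ⟨h2s, by linarith⟩, rfl⟩⟩
  exact hdisj a ha b hb (hza.trans hzb.symm)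

end Pool.Agent.helper53.OT
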