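import Pool.Agent.helper53.OT.Supp

/-! # Cyclic order lemmas for periodic functions (MP_90837e_co)

The lemmas are proved by helper59.

All functions are `2π`-periodic. `Top f g h t`: at `t` the function `f` is a maximum of the three.
`Conn f g h`: the set where `f` is on top is connected on the circle. -/

namespace Pool.Agent.helper53.OT

open Set

/-- At `t` the function `f` is at least as large as the other two. -/
def Top (f g h : ℝ → ℝ) (t : ℝ) : Prop := g t ≤ f t ∧ h t ≤ f t

/-- At `t` the function `f` is strictly larger than the other two. -/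
def Strict (f g h : ℝ → ℝ) (t : ℝ) : Prop := g t < f t ∧ h t < f t

/-- The set where `f` is on top is connected on the circle. -/
def Conn (f g h : ℝ → ℝ) : Prop :=
  ∀ s t, s < t → t < s + 2 * Real.pi → Top f g h s → Top f g h t →
    (∀ r ∈ Icc s t, Top f g h r) ∨ (∀ r ∈ Icc t (s + 2 * Real.pi), Top f g h r)

/-- `2π`-periodic. -/
def Per (f : ℝ → ℝ) : Prop := ∀ t, f (t + 2 * Real.pi) = f t

theorem Per.int {f : ℝ → ℝ} (h : Per f) (n : ℤ) (t : ℝ) : f (t + n * (2 * Real.pi)) = f t := by
  have h1 : Function.Periodic f (2 * Real.pi) := h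
  exact h1.int_mul n t

/-- Every real has a shift by a multiple of `2π` in `[a, a + 2π)`. -/
theorem exists_shift (a t : ℝ) : ∃ n : ℤ, a ≤ t + n * (2 * Real.pi) ∧
    t + n * (2 * Real.pi) < a + 2 * Real.pi := by
  have h2 : (0:ℝ) < 2 * Real.pi := Real.two_pi_pos
  obtain ⟨n, hn, -⟩ := existsUnique_add_zsmul_mem_Ico h2 t a
  refine ⟨n, ?_, ?_⟩
  · have := hn.1
    simpa [zsmul_eq_mul] using this
  · have := hn.2
    simpa [zsmul_eq_mul] using this

/-- No transition from `h` to `g` below `f` in a positive triple `(f, g, h)`.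

**Proof.** Let `a < b < c < a + 2π` be as in `Plus`. Shift `a` (with `b`, `c`) by a multiple of `2π` so
that `a ∈ [t, t + 2π)`; as `f` is not on top on `[t, t']` and is on top at `a`, `t' < a`. Put
`T = t + 2π`, `T' = t' + 2π`; then `a < T < T' < a + 2π` and `a < b < c < a + 2π`; `h` is strict at
`T` and at `c`, `g` is strict at `T'` and at `b`.
If `T' ≤ c` then `T < T' ≤ c`; `Conn h` for `T < c` (`c < a + 2π < T + 2π`) says that `h` is on top on
`[T, c] ∋ T'`, impossible since `g` is strict at `T'`, or on `[c, T + 2π] ∋ a + 2π`, impossible since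
`f` is strict at `a`. So `c < T'`, and `b < c < T'`. `Conn g` for `b < T'` says that `g` is on top on
`[b, T'] ∋ c`, impossible, or on `[T', b + 2π] ∋ a + 2π`, impossible. -/
theorem no_transition {f g h : ℝ → ℝ} (hf : Per f) (hg : Per g) (hh : Per h)
    (cg : Conn g h f) (ch : Conn h f g) (hp : Plus f g h) {t t' : ℝ} (h1 : t < t')
    (h2 : t' < t + 2 * Real.pi) (h3 : Strict h f g t) (h4 : Strict g h f t')
    (h5 : ∀ r ∈ Icc t t', ¬ Top f g h r) : False := by
  obtain ⟨a, b, c, hab, hbc, hca, ⟨fa1, fa2⟩, ⟨gb1, gb2⟩, ⟨hc1, hc2⟩⟩ := hp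
  have hpi : 0 < Real.pi := Real.pi_pos
  -- shift `a`
  obtain ⟨n, hn1, hn2⟩ := exists_shift t a
  have ef := hf.int n
  have eg := hg.int n
  have eh := hh.int n
  obtain ⟨a', ha'⟩ : ∃ a', a' = a + n * (2 * Real.pi) := ⟨_, rfl⟩
  obtain ⟨b', hb'⟩ : ∃ b', b' = b + n * (2 * Real.pi) := ⟨_, rfl⟩
  obtain ⟨c', hc'⟩ : ∃ c', c' = c + n * (2 * Real.pi) := ⟨_, rfl⟩
  have sa : Strict f g h a' := by
    rw [ha']
    exact ⟨by rw [ef, eg]; exact fa1, by rw [ef, eh]; exact fa2⟩
  have sb : Strict g h f b' := by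
    rw [hb']
    exact ⟨by rw [eh, eg]; exact gb1, by rw [ef, eg]; exact gb2⟩
  have sc : Strict h f g c' := by
    rw [hc']
    exact ⟨by rw [ef, eh]; exact hc1, by rw [eg, eh]; exact hc2⟩
  have hab' : a' < b' := by rw [ha', hb']; linarith
  have hbc' : b' < c' := by rw [hb', hc']; linarith
  have hca' : c' < a' + 2 * Real.pi := by rw [ha', hc']; linarith
  rw [← ha'] at hn1 hn2
  have hta : t' < a' := by
    by_contra hle
    rw [not_lt] at hle
    exact h5 a' ⟨hn1, hle⟩ ⟨sa.1.le, sa.2.le⟩
  obtain ⟨T, hT⟩ : ∃ T, T = t + 2 * Real.pi := ⟨_, rfl⟩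
  obtain ⟨T', hT'⟩ : ∃ T', T' = t' + 2 * Real.pi := ⟨_, rfl⟩
  have sT : Strict h f g T := by
    rw [hT]
    exact ⟨by rw [hf, hh]; exact h3.1, by rw [hg, hh]; exact h3.2⟩
  have sT' : Strict g h f T' := by
    rw [hT']
    exact ⟨by rw [hh, hg]; exact h4.1, by rw [hf, hg]; exact h4.2⟩
  have sa2 : Strict f g h (a' + 2 * Real.pi) := by
    exact ⟨by rw [hf, hg]; exact sa.1, by rw [hf, hh]; exact sa.2⟩
  have hTT : T < T' := by rw [hT, hT']; linarith
  have haT : a' < T := by rw [hT]; linarith
  have hTa : T' < a' + 2 * Real.pi := by rw [hT']; linarith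
  rcases le_or_gt T' c' with hle | hlt
  · rcases ch T c' (by linarith) (by linarith) ⟨sT.1.le, sT.2.le⟩ ⟨sc.1.le, sc.2.le⟩ with k | k
    · have k1 := k T' ⟨hTT.le, hle⟩
      have k2 := sT'.1
      have k3 := k1.2
      linarith
    · have k1 := k (a' + 2 * Real.pi) ⟨hca'.le, by linarith⟩
      have k2 := sa2.2
      have k3 := k1.1
      linarith
  · rcases cg b' T' (by linarith) (by linarith) ⟨sb.1.le, sb.2.le⟩ ⟨sT'.1.le, sT'.2.le⟩ with k | k
    · have k1 := k c' ⟨hbc'.le, hlt.le⟩
      have k2 := sc.2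
      have k3 := k1.1
      linarith
    · have k1 := k (a' + 2 * Real.pi) ⟨hTa.le, by linarith⟩
      have k2 := sa2.1
      have k3 := k1.2
      linarith

/-- Strict directions of a positive triple occur in the right cyclic order.

**Proof.** Shift `v` and `w` into `[u, u + 2π)` (`exists_shift`); they are different from `u` since
the strict directions of different functions are different (also modulo `2π`); so they are in
`(u, u + 2π)`, and they are different. If `v < w` we are done. Suppose `w < v`. `f` is not on top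
on `[w, v]`: if it were on top at `r ∈ [w, v]`, then `Conn f` for `u < r` would say that `f` is on top
on `[u, r] ∋ w` or on `[r, u + 2π] ∋ v`, both impossible. Now `no_transition` for `w < v`. -/
theorem cyclic_order {f g h : ℝ → ℝ} (hf : Per f) (hg : Per g) (hh : Per h)
    (cf : Conn f g h) (cg : Conn g h f) (ch : Conn h f g) (hp : Plus f g h) {u v w : ℝ}
    (hu : Strict f g h u) (hv : Strict g h f v) (hw : Strict h f g w) :
    ∃ n m : ℤ, u < v + n * (2 * Real.pi) ∧ v + n * (2 * Real.pi) < w + m * (2 * Real.pi) ∧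
      w + m * (2 * Real.pi) < u + 2 * Real.pi := by
  have hpi : 0 < Real.pi := Real.pi_pos
  obtain ⟨n, hn1, hn2⟩ := exists_shift u v
  obtain ⟨m, hm1, hm2⟩ := exists_shift u w
  obtain ⟨v', hv'⟩ : ∃ v', v' = v + n * (2 * Real.pi) := ⟨_, rfl⟩
  obtain ⟨w', hw'⟩ : ∃ w', w' = w + m * (2 * Real.pi) := ⟨_, rfl⟩
  have sv : Strict g h f v' := by
    rw [hv']
    exact ⟨by rw [hh.int, hg.int]; exact hv.1, by rw [hf.int, hg.int]; exact hv.2⟩
  have sw : Strict h f g w' := by
    rw [hw']
    exact ⟨by rw [hh.int, hf.int]; exact hw.1, by rw [hg.int, hh.int]; exact hw.2⟩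
  rw [← hv'] at hn1 hn2
  rw [← hw'] at hm1 hm2
  refine ⟨n, m, ?_⟩
  rw [← hv', ← hw']
  have huv : u < v' := by
    rcases hn1.lt_or_eq with k | k
    · exact k
    · exfalso
      rw [← k] at sv
      have k1 := sv.2
      have k2 := hu.1
      linarith
  have huw : u < w' := by
    rcases hm1.lt_or_eq with k | k
    · exact k
    · exfalso
      rw [← k] at sw
      have k1 := sw.1
      have k2 := hu.2
      linarith
  refine ⟨huv, ?_, hm2⟩
  rcases lt_trichotomy v' w' with k | k | k
  · exact k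
  · exfalso
    rw [← k] at sw
    have k1 := sw.2
    have k2 := sv.1
    linarith
  · exfalso
    refine no_transition hf hg hh cg ch hp k (by linarith) sw sv ?_
    intro r hr htop
    obtain ⟨hr1, hr2⟩ := hr
    rcases cf u r (by linarith) (by linarith) ⟨hu.1.le, hu.2.le⟩ htop with k3 | k3
    · have k4 := k3 w' ⟨huw.le, hr1⟩
      have k5 := sw.1
      have k6 := k4.2
      linarith
    · have k4 := k3 v' ⟨hr2, hn2.le⟩
      have k5 := sv.2
      have k6 := k4.1
      linarith

/-- Between the strict directions of `f` and `g` the third function is never on top.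

**Proof.** If `h` is on top at `r ∈ [u, v]` then `r < w < r + 2π`, and `Conn h` says that `h` is on
top on `[r, w] ∋ v`, impossible, or on `[w, r + 2π] ∋ u + 2π`, impossible. -/
theorem not_top_between {f g h : ℝ → ℝ} (hf : Per f) (hg : Per g) (hh : Per h)
    (ch : Conn h f g) {u v w : ℝ} (huv : u < v) (hvw : v < w) (hwu : w < u + 2 * Real.pi)
    (hu : Strict f g h u) (hv : Strict g h f v) (hw : Strict h f g w) :
    ∀ r ∈ Icc u v, h r < max (f r) (g r) := by
  have hpi : 0 < Real.pi := Real.pi_pos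
  intro r hr
  obtain ⟨hr1, hr2⟩ := hr
  rw [lt_max_iff]
  by_contra hno
  rw [not_or, not_lt, not_lt] at hno
  rcases ch r w (by linarith) (by linarith) ⟨hno.1, hno.2⟩ ⟨hw.1.le, hw.2.le⟩ with k | k
  · have k1 := k v ⟨hr2, hvw.le⟩
    have k2 := hv.1
    have k3 := k1.2
    linarith
  · have k1 := k (u + 2 * Real.pi) ⟨hwu.le, by linarith⟩
    have k2 := k1.1
    rw [hf, hh] at k2
    have k3 := hu.2
    linarith

end Pool.Agent.helper53.OT
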