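import Mathlib

/-! # Partial derivatives of a polynomial at a local extremum; the total degree of a partial
derivative (MP_90837e_co)

**Proof of `hasDerivAt_update`.** Induction on the polynomial (`MvPolynomial.induction_on`): constants;
sums (`HasDerivAt.add`, `map_add`); products with a variable `X j` (`HasDerivAt.mul`, `Derivation.leibniz`,
`pderiv_X`; `Function.update z l t j` is `t` for `j = l` and constant otherwise).
**Proof of `pderiv_eq_zero`.** `t ↦ Function.update z l t` is continuous and maps `z l` to `z`, so the
one-variable function has a local extremum at `z l` (`IsLocalMax.comp_continuous`-like), and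
`IsLocalExtr.hasDerivAt_eq_zero`.
**Proof of `totalDegree_pderiv_le`.** On monomials: `pderiv_monomial`; or search Mathlib
(`MvPolynomial.totalDegree_pderiv_le`?). -/

namespace Pool.Agent.helper53.OT

open MvPolynomial

theorem hasDerivAt_update {σ : Type} [DecidableEq σ] (H : MvPolynomial σ ℝ) (z : σ → ℝ) (l : σ)
    (t : ℝ) : HasDerivAt (fun t => eval (Function.update z l t) H)
      (eval (Function.update z l t) (pderiv l H)) t := by
  induction H using MvPolynomial.induction_on with
  | C a => simpa using hasDerivAt_const t a
  | add p q hp hq =>
    have h := hp.add hq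
    rw [map_add, map_add]
    refine HasDerivAt.congr_of_eventuallyEq h (Filter.Eventually.of_forall ?_)
    intro s
    simp
  | mul_X p j hp =>
    have hX : HasDerivAt (fun t => Function.update z l t j)
        (eval (Function.update z l t) (pderiv l (X j : MvPolynomial σ ℝ))) t := by
      by_cases hj : j = l
      · subst hj
        simpa [pderiv_X_self] using hasDerivAt_id' t
      · simpa [Function.update_of_ne hj, pderiv_X_of_ne hj] using hasDerivAt_const t (z j)
    have h := hp.mul hX
    have e2 : eval (Function.update z l t) (pderiv l (p * X j)) =
        eval (Function.update z l t) (pderiv l p) * Function.update z l t j +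
        eval (Function.update z l t) p * eval (Function.update z l t) (pderiv l (X j)) := by
      rw [Derivation.leibniz]
      simp only [smul_eq_mul, map_add, map_mul, eval_X]
      ring
    rw [e2]
    refine HasDerivAt.congr_of_eventuallyEq h (Filter.Eventually.of_forall ?_)
    intro s
    simp

theorem pderiv_eq_zero {σ : Type} [Finite σ] (H : MvPolynomial σ ℝ) (z : σ → ℝ)
    (h : IsLocalMax (fun x => eval x H) z ∨ IsLocalMin (fun x => eval x H) z) (l : σ) :
    eval z (pderiv l H) = 0 := by
  classical
  have hz : Function.update z l (z l) = z := Function.update_eq_self l z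
  have hc : ContinuousAt (fun t : ℝ => Function.update z l t) (z l) :=
    (continuous_const.update l continuous_id).continuousAt
  have hd := hasDerivAt_update H z l (z l)
  rw [hz] at hd
  have hext : IsLocalExtr (fun t => eval (Function.update z l t) H) (z l) := by
    rcases h with h | h
    · right
      have h' : IsLocalMax (fun x => eval x H) ((fun t : ℝ => Function.update z l t) (z l)) := by
        simpa only [hz] using h
      exact h'.comp_continuous hc
    · left
      have h' : IsLocalMin (fun x => eval x H) ((fun t : ℝ => Function.update z l t) (z l)) := by
        simpa only [hz] using h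
      exact h'.comp_continuous hc
  exact hext.hasDerivAt_eq_zero hd

theorem totalDegree_pderiv_le {σ : Type} (H : MvPolynomial σ ℝ) (l : σ) {d : ℕ}
    (h : H.totalDegree ≤ d + 1) : (pderiv l H).totalDegree ≤ d := by
  classical
  conv_lhs => rw [← support_sum_monomial_coeff H]
  rw [map_sum]
  refine totalDegree_finsetSum_le ?_
  intro s hs
  rw [pderiv_monomial]
  by_cases hl : s l = 0
  · simp [hl]
  refine (totalDegree_monomial_le _ _).trans ?_
  have h1 : (s.sum fun _ e => e) ≤ d + 1 := (le_totalDegree hs).trans h
  have h2 : s = (s - Finsupp.single l 1) + Finsupp.single l 1 := by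
    rw [tsub_add_cancel_of_le]
    rw [Finsupp.single_le_iff]
    omega
  have h3 : (s.sum fun _ e => e) = ((s - Finsupp.single l 1).sum fun _ e => e) + 1 := by
    conv_lhs => rw [h2]
    rw [Finsupp.sum_add_index' (fun _ => rfl) (fun _ _ _ => rfl), Finsupp.sum_single_index rfl]
  have h4 : ((s - Finsupp.single l 1).sum fun _ => id) =
      ((s - Finsupp.single l 1).sum fun _ e => e) := rfl
  rw [h4]
  omega

end Pool.Agent.helper53.OT
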