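import Mathlib

/-! # Order types and pairwise disjoint bodies (MP_90837e_co): definitions -/

namespace Pool.Agent.helper53.OT

open Set

/-- The scalar product of the point `p` with the unit vector of direction `θ`. -/
noncomputable def dot (p : ℝ × ℝ) (θ : ℝ) : ℝ := p.1 * Real.cos θ + p.2 * Real.sin θ

/-- A body: a nonempty compact convex subset of the plane (points and segments allowed). -/
structure IsBody (A : Set (ℝ × ℝ)) : Prop where
  nonempty : A.Nonempty
  compact : IsCompact A
  convex : Convex ℝ A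

/-- The support function `θ ↦ max_{p ∈ A} ⟨p, (cos θ, sin θ)⟩`. -/
noncomputable def supp (A : Set (ℝ × ℝ)) (θ : ℝ) : ℝ := sSup ((fun p => dot p θ) '' A)

/-- The support curve: the graph of the support function in the cylinder. -/
def curve (A : Set (ℝ × ℝ)) : Set (Real.Angle × ℝ) :=
  {x | ∃ θ : ℝ, x = ((θ : Real.Angle), supp A θ)}

/-- The difference of two functions has, at each of its zeros, an isolated zero at which it changes
sign. -/
def Cross (f g : ℝ → ℝ) : Prop :=
  ∀ t, f t = g t → ∃ ε > 0,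
    ((∀ s ∈ Ioo (t - ε) t, f s < g s) ∧ (∀ s ∈ Ioo t (t + ε), g s < f s)) ∨
    ((∀ s ∈ Ioo (t - ε) t, g s < f s) ∧ (∀ s ∈ Ioo t (t + ε), f s < g s))

/-- An arrangement: a family of bodies such that the difference of any two support functions has
only isolated zeros and changes sign at each, no point lies on three support curves, and the number
of intersection points is finite. -/
structure IsArrangement {n : ℕ} (A : Fin n → Set (ℝ × ℝ)) : Prop where
  body : ∀ i, IsBody (A i)
  cross : ∀ i j, i ≠ j → Cross (supp (A i)) (supp (A j))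
  triple : ∀ i j k, i ≠ j → j ≠ k → i ≠ k → ∀ x, x ∈ curve (A i) → x ∈ curve (A j) → x ∉ curve (A k)
  finite : {x | ∃ i j, i ≠ j ∧ x ∈ curve (A i) ∧ x ∈ curve (A j)}.Finite

/-- A homeomorphism of the cylinder maps the `i`-th support curve of `A` onto the `i`-th support
curve of `B` and preserves `+∞`. (It is allowed to reverse the orientation.) -/
def SameType {n : ℕ} (A B : Fin n → Set (ℝ × ℝ)) : Prop :=
  ∃ φ : (Real.Angle × ℝ) ≃ₜ (Real.Angle × ℝ), (∀ i, φ '' curve (A i) = curve (B i)) ∧
    ∃ Y : ℝ, ∀ y, Y ≤ y → ∀ θ : Real.Angle, 0 < (φ (θ, y)).2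

/-- Twice the signed area of the triangle `p q r`. -/
def orient (p q r : ℝ × ℝ) : ℝ :=
  (q.1 - p.1) * (r.2 - p.2) - (q.2 - p.2) * (r.1 - p.1)

/-- The arrangement has at least three bodies and each triple of its bodies has the combinatorial
type of three non-collinear points. -/
def Orientable {n : ℕ} (A : Fin n → Set (ℝ × ℝ)) : Prop :=
  3 ≤ n ∧ ∀ i j k : Fin n, i ≠ j → j ≠ k → i ≠ k → ∃ P : Fin 3 → ℝ × ℝ,
    orient (P 0) (P 1) (P 2) ≠ 0 ∧ SameType ![A i, A j, A k] (fun m => {P m})

/-- The functions `f`, `g`, `h` are, in this cyclic order, strictly larger than the other two at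
three directions that follow each other counterclockwise. -/
def Plus (f g h : ℝ → ℝ) : Prop :=
  ∃ a b c, a < b ∧ b < c ∧ c < a + 2 * Real.pi ∧ (g a < f a ∧ h a < f a) ∧
    (h b < g b ∧ f b < g b) ∧ (f c < h c ∧ g c < h c)

/-- The orientable arrangement `A` realizes `χ`: for distinct `i`, `j`, `k` we have `χ i j k = 1` if
and only if the arcs in which the boundary of the hull of the three bodies meets the three bodies
occur counterclockwise in the order `i`, `j`, `k`. The arcs are read off from the outer normals. -/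
def Realizes {n : ℕ} (χ : Fin n → Fin n → Fin n → ℤ) (A : Fin n → Set (ℝ × ℝ)) : Prop :=
  ∀ i j k : Fin n, i ≠ j → j ≠ k → i ≠ k →
    (χ i j k = 1 ↔ Plus (supp (A i)) (supp (A j)) (supp (A k)))

/-- A simple order type on `Fin n`: a uniform acyclic chirotope of rank 3. The values on triples
that are not distinct play no role. -/
structure SimpleOrderType {n : ℕ} (χ : Fin n → Fin n → Fin n → ℤ) : Prop where
  sign : ∀ a b c, a ≠ b → b ≠ c → a ≠ c → χ a b c = 1 ∨ χ a b c = -1
  alt₁ : ∀ a b c, a ≠ b → b ≠ c → a ≠ c → χ b a c = - χ a b c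
  alt₂ : ∀ a b c, a ≠ b → b ≠ c → a ≠ c → χ a c b = - χ a b c
  gp : ∀ x a b c d, x ≠ a → x ≠ b → x ≠ c → x ≠ d → a ≠ b → a ≠ c → a ≠ d → b ≠ c → b ≠ d → c ≠ d →
    ¬ (χ x a b * χ x c d = - (χ x a c * χ x b d) ∧ χ x a b * χ x c d = χ x a d * χ x b c)
  acyclic : ∀ a b c d, a ≠ b → a ≠ c → a ≠ d → b ≠ c → b ≠ d → c ≠ d →
    ¬ (χ b c d = - χ a c d ∧ χ b c d = χ a b d ∧ χ b c d = - χ a b c)

end Pool.Agent.helper53.OT
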