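import Pool.Agent.helper53.OT.Twin

/-! # Edges of the hull of three segments (MP_90837e_co)

Let `E = (x, y)` with `x`, `y : Bool → ℝ × ℝ` the endpoints of two segments, `z` the endpoints of a
third one. `Edge x y z`: some segment from an endpoint of `x` to an endpoint of `y` is an edge
(counterclockwise) of the hull of the six endpoints.

**Formulas.** For `w : ℝ` let `u w = (cos w, sin w)` and `n w = (- sin w, cos w)`. If
`q - p = l • n w` then `orient p q r = l * (dot p w - dot r w)` and
`dot q θ - dot p θ = l * sin (θ - w)` for all `θ`. For `p ≠ q` there are `w` and `l > 0` with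
`q - p = l • n w` (take `w = arg (q - p) - π/2`). -/

namespace Pool.Agent.helper53.OT

open Set

/-- The support function of the segment with endpoints `x false`, `x true`. -/
noncomputable def hs (x : Bool → ℝ × ℝ) (θ : ℝ) : ℝ := seg (x false) (x true) θ

/-- An endpoint of `x` and an endpoint of `y` span an edge of the hull of the six endpoints, with the
other four endpoints on its left. -/
def Edge (x y z : Bool → ℝ × ℝ) : Prop :=
  ∃ p q : Bool, 0 < orient (x p) (y q) (x !p) ∧ 0 < orient (x p) (y q) (y !q) ∧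
    ∀ r, 0 < orient (x p) (y q) (z r)

theorem Ccw.rot {f g h : ℝ → ℝ} (hf : Per f) (hg : Per g) (hh : Per h) (hc : Ccw f g h) :
    Ccw g h f := by
  obtain ⟨a, b, c, hab, hbc, hca, h1, h2, h3⟩ := hc
  refine ⟨b, c, a + 2 * Real.pi, hbc, hca, by linarith, h2, h3, ?_⟩
  intro t ht
  have h4 := h1 (t - 2 * Real.pi) ⟨by linarith [ht.1], by linarith [ht.2]⟩
  have e1 := hf (t - 2 * Real.pi)
  have e2 := hg (t - 2 * Real.pi)
  have e3 := hh (t - 2 * Real.pi)
  rw [sub_add_cancel] at e1 e2 e3
  rw [e1, e2, e3]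
  exact h4

theorem le_hs (x : Bool → ℝ × ℝ) (p : Bool) (θ : ℝ) : dot (x p) θ ≤ hs x θ := by
  unfold hs seg
  cases p
  · exact le_max_left _ _
  · exact le_max_right _ _

theorem exists_hs (x : Bool → ℝ × ℝ) (θ : ℝ) : ∃ p, hs x θ = dot (x p) θ := by
  unfold hs seg
  rcases le_total (dot (x false) θ) (dot (x true) θ) with h | h
  · exact ⟨true, max_eq_right h⟩
  · exact ⟨false, max_eq_left h⟩

theorem hs_le {x : Bool → ℝ × ℝ} {θ M : ℝ} (h : ∀ p, dot (x p) θ ≤ M) : hs x θ ≤ M := by
  obtain ⟨p, hp⟩ := exists_hs x θ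
  rw [hp]
  exact h p

theorem hs_lt {x : Bool → ℝ × ℝ} {θ M : ℝ} (h : ∀ p, dot (x p) θ < M) : hs x θ < M := by
  obtain ⟨p, hp⟩ := exists_hs x θ
  rw [hp]
  exact h p

theorem continuous_hs (x : Bool → ℝ × ℝ) : Continuous (hs x) := continuous_seg _ _

theorem hs_add_two_pi (x : Bool → ℝ × ℝ) (θ : ℝ) : hs x (θ + 2 * Real.pi) = hs x θ :=
  seg_add_two_pi _ _ _

theorem dot_diff {p q : ℝ × ℝ} {l w : ℝ} (h1 : q.1 - p.1 = - l * Real.sin w)
    (h2 : q.2 - p.2 = l * Real.cos w) (θ : ℝ) : dot q θ - dot p θ = l * Real.sin (θ - w) := by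
  rw [Real.sin_sub]
  unfold dot
  linear_combination Real.cos θ * h1 + Real.sin θ * h2

theorem orient_eq {p q : ℝ × ℝ} {l w : ℝ} (h1 : q.1 - p.1 = - l * Real.sin w)
    (h2 : q.2 - p.2 = l * Real.cos w) (r : ℝ × ℝ) :
    orient p q r = l * (dot p w - dot r w) := by
  unfold orient dot
  linear_combination (r.2 - p.2) * h1 - (r.1 - p.1) * h2

theorem exists_dir {p q : ℝ × ℝ} (hpq : p ≠ q) (a : ℝ) : ∃ l w : ℝ, 0 < l ∧ a ≤ w ∧
    w < a + 2 * Real.pi ∧ q.1 - p.1 = - l * Real.sin w ∧ q.2 - p.2 = l * Real.cos w := by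
  let z : ℂ := ⟨q.2 - p.2, -(q.1 - p.1)⟩
  have hz : z ≠ 0 := by
    intro h
    apply hpq
    have h1 := congrArg Complex.re h
    have h2 := congrArg Complex.im h
    simp only [z, Complex.zero_re, Complex.zero_im] at h1 h2
    ext <;> linarith
  obtain ⟨n, hn1, hn2⟩ := exists_shift a z.arg
  refine ⟨‖z‖, z.arg + n * (2 * Real.pi), norm_pos_iff.2 hz, hn1, hn2, ?_, ?_⟩
  · rw [Real.sin_add_int_mul_two_pi]
    have := Complex.norm_mul_sin_arg z
    simp only [z] at this ⊢
    linarith
  · rw [Real.cos_add_int_mul_two_pi]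
    have := Complex.norm_mul_cos_arg z
    simp only [z] at this ⊢
    linarith

theorem dot_cone {p r : ℝ × ℝ} {s t θ : ℝ} (hst : s < t) (hts : t < s + Real.pi)
    (h1 : s ≤ θ) (h2 : θ ≤ t) (hs : dot r s ≤ dot p s) (ht : dot r t ≤ dot p t) :
    dot r θ ≤ dot p θ := by
  have key : ∀ x : ℝ × ℝ, Real.sin (t - s) * dot x θ =
      Real.sin (t - θ) * dot x s + Real.sin (θ - s) * dot x t := by
    intro x
    rw [Real.sin_sub, Real.sin_sub, Real.sin_sub]
    unfold dot
    ring
  have s0 : 0 < Real.sin (t - s) := Real.sin_pos_of_pos_of_lt_pi (by linarith) (by linarith)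
  have s1 : 0 ≤ Real.sin (t - θ) := Real.sin_nonneg_of_nonneg_of_le_pi (by linarith) (by linarith)
  have s2 : 0 ≤ Real.sin (θ - s) := Real.sin_nonneg_of_nonneg_of_le_pi (by linarith) (by linarith)
  have a1 := mul_le_mul_of_nonneg_left hs s1
  have a2 := mul_le_mul_of_nonneg_left ht s2
  have k1 := key r
  have k2 := key p
  have : Real.sin (t - s) * dot r θ ≤ Real.sin (t - s) * dot p θ := by linarith
  exact le_of_mul_le_mul_left this s0

theorem hs_cone {x : Bool → ℝ × ℝ} {p : ℝ × ℝ} {s t θ : ℝ} (hst : s < t) (hts : t < s + Real.pi)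
    (h1 : s ≤ θ) (h2 : θ ≤ t) (hs1 : hs x s ≤ dot p s) (ht : hs x t ≤ dot p t) :
    hs x θ ≤ dot p θ :=
  hs_le fun q => dot_cone hst hts h1 h2 ((le_hs x q s).trans hs1) ((le_hs x q t).trans ht)

theorem dot_add_pi (p : ℝ × ℝ) (θ : ℝ) : dot p (θ + Real.pi) = - dot p θ := by
  simp [dot, Real.cos_add_pi, Real.sin_add_pi]
  ring

theorem orient_self (p r : ℝ × ℝ) : orient p p r = 0 := by
  unfold orient
  ring

theorem edge_dir {x y z : Bool → ℝ × ℝ} (h : Edge x y z) (a : ℝ) :
    ∃ (p q : Bool) (l w : ℝ), 0 < l ∧ a ≤ w ∧ w < a + 2 * Real.pi ∧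
      (∀ θ, dot (y q) θ - dot (x p) θ = l * Real.sin (θ - w)) ∧
      dot (y q) w = dot (x p) w ∧ hs x w ≤ dot (x p) w ∧ hs y w ≤ dot (x p) w ∧
      ∀ r, dot (z r) w < dot (x p) w := by
  obtain ⟨p, q, h1, h2, h3⟩ := h
  have hpq : x p ≠ y q := by
    intro h
    rw [h, orient_self] at h1
    exact lt_irrefl _ h1
  obtain ⟨l, w, hl, hw1, hw2, e1, e2⟩ := exists_dir hpq a
  have e3 : ∀ r, 0 < orient (x p) (y q) r → dot r w < dot (x p) w := by
    intro r hr
    rw [orient_eq e1 e2] at hr
    have := (mul_pos_iff_of_pos_left hl).1 hr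
    linarith
  have e4 : dot (y q) w = dot (x p) w := by
    have := dot_diff e1 e2 w
    rw [sub_self, Real.sin_zero, mul_zero] at this
    linarith
  refine ⟨p, q, l, w, hl, hw1, hw2, dot_diff e1 e2, e4, ?_, ?_, fun r => e3 _ (h3 r)⟩
  · apply hs_le
    intro s
    by_cases hs : s = p
    · rw [hs]
    · have : s = !p := by cases s <;> cases p <;> simp_all
      rw [this]
      exact (e3 _ h1).le
  · apply hs_le
    intro s
    by_cases hs : s = q
    · rw [hs, e4]
    · have : s = !q := by cases s <;> cases q <;> simp_all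
      rw [this]
      exact (e3 _ h2).le

/-- The point `P` is on top of the six endpoints at `t`. -/
def TopPt (x y z : Bool → ℝ × ℝ) (P : ℝ × ℝ) (t : ℝ) : Prop :=
  hs x t ≤ dot P t ∧ hs y t ≤ dot P t ∧ hs z t ≤ dot P t

theorem TopPt.cone {x y z : Bool → ℝ × ℝ} {P : ℝ × ℝ} {s t θ : ℝ} (h1 : TopPt x y z P s)
    (h2 : TopPt x y z P t) (hst : s < t) (hts : t < s + Real.pi) (h3 : s ≤ θ) (h4 : θ ≤ t) :
    TopPt x y z P θ :=
  ⟨hs_cone hst hts h3 h4 h1.1 h2.1, hs_cone hst hts h3 h4 h1.2.1 h2.2.1,
    hs_cone hst hts h3 h4 h1.2.2 h2.2.2⟩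

theorem TopPt.add {x y z : Bool → ℝ × ℝ} {P : ℝ × ℝ} {t : ℝ} (h : TopPt x y z P t) :
    TopPt x y z P (t + 2 * Real.pi) := by
  unfold TopPt
  rw [hs_add_two_pi, hs_add_two_pi, hs_add_two_pi, dot_add_two_pi]
  exact h

/-- **Proof.** Let `a < b` be from `Ccw`: on `[a, b]` we have `hs z < max (hs x) (hs y)`; at `a`:
`hs y a < hs x a` (from the conditions of `Ccw` at `a` and, by periodicity, `a + 2π`); at `b`:
`hs x b < hs y b`. Let `w = sSup {t ∈ Icc a b | hs y t ≤ hs x t}`. Then `hs y w = hs x w =: M`,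
`w < b`, and `hs x < hs y` on `(w, b]`; `hs z w < M`. Let `x p`, `y q` be endpoints with
`dot (x p) w = M = dot (y q) w`. Then `⟨y q - x p, u w⟩ = 0`, so `y q - x p = l • n w` for some `l`
(`l = ⟨y q - x p, n w⟩`) and `l ≠ 0` because `orient (x p) (y q) (x !p) ≠ 0`. Every other endpoint
`r` has `dot r w ≤ M`, and by `orient (x p) (y q) r = l * (M - dot r w) ≠ 0` it has `dot r w < M`. By
continuity `hs x = dot (x p)` and `hs y = dot (y q)` near `w`. For `θ > w` near `w` this gives
`0 < hs y θ - hs x θ = l * sin (θ - w)`, so `l > 0`. So all four orientations are positive. -/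
theorem edge_of_ccw (x y z : Bool → ℝ × ℝ)
    (hg : ∀ p q, orient (x p) (y q) (x !p) ≠ 0 ∧ orient (x p) (y q) (y !q) ≠ 0 ∧
      ∀ r, orient (x p) (y q) (z r) ≠ 0)
    (h : Ccw (hs x) (hs y) (hs z)) : Edge x y z := by
  obtain ⟨a, b, c, hab, hbc, hca, h1, h2, h3⟩ := h
  have hb : hs x b < hs y b := by
    by_contra hcon
    push Not at hcon
    have e1 := h1 b ⟨hab.le, le_rfl⟩
    have e2 := h2 b ⟨le_rfl, hbc.le⟩
    rw [max_eq_left hcon] at e1
    exact absurd (e2.trans_le (max_le hcon e1.le)) (lt_irrefl _)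
  have ha : hs y a ≤ hs x a := by
    by_contra hcon
    push Not at hcon
    have e1 := h1 a ⟨le_rfl, hab.le⟩
    have e2 := h3 (a + 2 * Real.pi) ⟨hca.le, le_rfl⟩
    rw [hs_add_two_pi, hs_add_two_pi, hs_add_two_pi] at e2
    rw [max_eq_right hcon.le] at e1
    exact absurd (e2.trans_le (max_le e1.le hcon.le)) (lt_irrefl _)
  have cx := continuous_hs x
  have cy := continuous_hs y
  let S : Set ℝ := {t | t ∈ Icc a b ∧ hs y t ≤ hs x t}
  have hS : IsCompact S := by
    have : S = Icc a b ∩ {t | hs y t ≤ hs x t} := rfl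
    rw [this]
    exact isCompact_Icc.inter_right (isClosed_le cy cx)
  have hne : S.Nonempty := ⟨a, ⟨le_rfl, hab.le⟩, ha⟩
  have hwS : sSup S ∈ S := hS.sSup_mem hne
  set w := sSup S with hw
  have hmax : ∀ t ∈ S, t ≤ w := fun t ht => le_csSup hS.bddAbove ht
  have hwb : w < b := by
    rcases lt_or_eq_of_le hwS.1.2 with h | h
    · exact h
    · exfalso
      have := hwS.2
      rw [h] at this
      exact absurd hb (not_lt.2 this)
  have hright : ∀ t, w < t → t ≤ b → hs x t < hs y t := by
    intro t h1 h2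
    by_contra hcon
    push Not at hcon
    exact absurd (hmax t ⟨⟨hwS.1.1.trans h1.le, h2⟩, hcon⟩) (not_le.2 h1)
  have heq : hs y w = hs x w := by
    have hiv := intermediate_value_Icc (f := fun t => hs y t - hs x t) hwb.le
      (cy.sub cx).continuousOn
    have h0 : (0:ℝ) ∈ Icc (hs y w - hs x w) (hs y b - hs x b) :=
      ⟨by linarith [hwS.2], by linarith⟩
    obtain ⟨t, ht, ht0⟩ := hiv h0
    simp only at ht0
    have h5 : t ≤ w := hmax t ⟨⟨hwS.1.1.trans ht.1, ht.2⟩, by linarith⟩
    have h6 : t = w := le_antisymm h5 ht.1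
    rw [h6] at ht0
    linarith
  obtain ⟨p, hp⟩ := exists_hs x w
  obtain ⟨q, hq⟩ := exists_hs y w
  have hpq : dot (y q) w = dot (x p) w := by rw [← hp, ← hq, heq]
  have hz : hs z w < dot (x p) w := by
    have := h1 w ⟨hwS.1.1, hwb.le⟩
    rw [heq, max_self, hp] at this
    exact this
  let l : ℝ := - ((y q).1 - (x p).1) * Real.sin w + ((y q).2 - (x p).2) * Real.cos w
  have hu : ((y q).1 - (x p).1) * Real.cos w + ((y q).2 - (x p).2) * Real.sin w = 0 := by
    unfold dot at hpq
    linear_combination hpq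
  have hsc := Real.sin_sq_add_cos_sq w
  have e1 : (y q).1 - (x p).1 = - l * Real.sin w := by
    simp only [l]
    linear_combination (-((y q).1 - (x p).1)) * hsc + Real.cos w * hu
  have e2 : (y q).2 - (x p).2 = l * Real.cos w := by
    simp only [l]
    linear_combination (-((y q).2 - (x p).2)) * hsc + Real.sin w * hu
  obtain ⟨g1, g2, g3⟩ := hg p q
  have lt_of : ∀ r, orient (x p) (y q) r ≠ 0 → dot r w ≤ dot (x p) w → dot r w < dot (x p) w := by
    intro r hr hle
    rcases lt_or_eq_of_le hle with h | h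
    · exact h
    · exfalso
      apply hr
      rw [orient_eq e1 e2, h, sub_self, mul_zero]
  have k1 : dot (x !p) w < dot (x p) w := lt_of _ g1 (by rw [← hp]; exact le_hs _ _ _)
  have k2 : dot (y !q) w < dot (x p) w := lt_of _ g2 (by rw [← hpq, ← hq]; exact le_hs _ _ _)
  have k3 : ∀ r, dot (z r) w < dot (x p) w := fun r => (le_hs z r w).trans_lt hz
  have hl : 0 < l := by
    have hev : ∀ᶠ t in nhds w, dot (y !q) t < dot (y q) t := by
      apply (continuous_dot _).continuousAt.eventually_lt (continuous_dot _).continuousAt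
      rw [hpq]
      exact k2
    obtain ⟨ε, hε, hball⟩ := Metric.eventually_nhds_iff.1 hev
    have hπ := Real.pi_pos
    obtain ⟨t, ht1, ht2⟩ := exists_between (show w < min (w + ε) (min b (w + Real.pi)) by
      simp only [lt_min_iff]; exact ⟨by linarith, hwb, by linarith⟩)
    simp only [lt_min_iff] at ht2
    have h5 : dot (y !q) t < dot (y q) t := hball (by
      rw [Real.dist_eq, abs_of_pos (by linarith)]; linarith [ht2.1])
    have h6 : hs y t ≤ dot (y q) t := by
      apply hs_le
      intro s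
      by_cases hs : s = q
      · rw [hs]
      · have : s = !q := by cases s <;> cases q <;> simp_all
        rw [this]
        exact h5.le
    have h7 := hright t ht1 ht2.2.1.le
    have h8 := le_hs x p t
    have h9 := dot_diff e1 e2 t
    have h10 : 0 < Real.sin (t - w) :=
      Real.sin_pos_of_pos_of_lt_pi (by linarith) (by linarith [ht2.2.2])
    have h11 : 0 < l * Real.sin (t - w) := by rw [← h9]; linarith
    exact (mul_pos_iff_of_pos_right h10).1 h11
  refine ⟨p, q, ?_, ?_, ?_⟩
  · rw [orient_eq e1 e2]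
    exact mul_pos hl (by linarith)
  · rw [orient_eq e1 e2]
    exact mul_pos hl (by linarith)
  · intro r
    rw [orient_eq e1 e2]
    exact mul_pos hl (by linarith [k3 r])

/-- The cyclic order of the three segments is determined by the edges.

**Proof.** Let `a < b < c < a + 2π` be as in `Ccw (hs x) (hs y) (hs z)`; for brevity say that a segment is
on top at `t` if its function is the maximum of the three; `x` is not on top on `[b, c]`, `y` is not
on top on `[c, a + 2π]`, `z` is not on top on `[a, b]`, and hence `y` is strictly on top at `b`.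
Call a point `p` of the six endpoints on top at `t` if `dot p t` is the maximum of the six numbers.
(Cone) If `p` is on top at `s` and `t`, `s < t < s + π`, then `p` is on top on `[s, t]`, because
`sin (t - s) * dot p θ = sin (t - θ) * dot p s + sin (θ - s) * dot p t`.
Suppose `Edge y x z` with `p` an endpoint of `y`, `q` of `x`. Write `q - p = l • n w`, `l > 0`; shift
`w` so that `w ∈ [a, a + 2π)`. By the formula for `orient`, `dot r w < dot p w = dot q w` for the
other four endpoints `r`. So `x` and `y` are on top at `w`, `z` is not; so `w ∈ (a, b)`.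
(1) `p` is not on top at `b`: `w < b < w + 2π`. If `b < w + π`, then `dot q b - dot p b = l sin (b - w)
> 0`. If `b = w + π`, then `dot r b = - dot r w > - dot p w = dot p b` for the other `r`. If
`w + π < b`, then by (Cone) for `b` and `w + 2π` the point `p` is on top on `[b, w + 2π] ∋ c`, but `y`
is not on top at `c`. Since `y` is on top at `b`, the other endpoint `p'` of `y` is on top at `b`.
Suppose also `Edge z y x` with `r` an endpoint of `z`, `t` an endpoint of `y`, `t - r = m • n v`, `m > 0`,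
`v ∈ [a, a + 2π)`. Then `z` and `y` are on top at `v` and `x` is not, so `v ∈ (b, c)`.
(2) `t ≠ p'`: otherwise `p'` is on top at `b` and at `v`. `b + 2π ∈ (v, v + 2π)`. If `b + 2π < v + π`, then
`p'` is on top on `[v, b + 2π] ∋ c`, impossible. If `b + 2π = v + π` then `p' = t` is strictly
below another endpoint at `b + 2π` (as in (1)), impossible. If `v + π < b + 2π`, then with
`φ = b + 2π - v ∈ (π, 2π)`: `dot t b - dot r b = m sin (b - v) < 0` (as `b - v = φ - 2π ∈ (-π, 0)`), impossible.
(3) So `t = p`, and `p` is on top at `w < v < w + 2π`. If `v < w + π` then `p` is on top on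
`[w, v] ∋ b`, impossible by (1). If `v = w + π` then `p` is strictly below another endpoint at `v`,
impossible. If `w + π < v` then `p` is on top on `[v, w + 2π] ∋ c`, impossible. -/
theorem not_edges (x y z : Bool → ℝ × ℝ) (h : Ccw (hs x) (hs y) (hs z)) :
    ¬ (Edge y x z ∧ Edge z y x) := by
  rintro ⟨E1, E2⟩
  obtain ⟨a, b, c, hab, hbc, hca, h1, h2, h3⟩ := h
  have hπ := Real.pi_pos
  -- `y` is not on top on `[c, a + 2π]`
  have F1 : ∀ p t, TopPt x y z (y p) t → c ≤ t → t ≤ a + 2 * Real.pi → False := by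
    intro p t ht hc ha
    have e1 := h3 t ⟨hc, ha⟩
    have e2 := le_hs y p t
    have e3 := max_le ht.2.2 ht.1
    linarith
  obtain ⟨p, q, l, w, hl, hw1, hw2, hd, hpq, ty, tx, tz⟩ := edge_dir E1 a
  have Tw : TopPt x y z (y p) w := ⟨tx, ty, (hs_lt tz).le⟩
  have hxw : dot (y p) w ≤ hs x w := by rw [← hpq]; exact le_hs _ _ _
  have waa : a < w := by
    rcases lt_or_eq_of_le hw1 with h | h
    · exact h
    · exfalso
      have := Tw.add
      rw [← h] at this
      exact F1 p _ this hca.le le_rfl
  have wb : w < b := by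
    by_contra hcon
    push Not at hcon
    rcases lt_or_ge w c with h | h
    · have e1 := h2 w ⟨hcon, h.le⟩
      have e2 := max_le Tw.2.1 Tw.2.2
      linarith
    · exact F1 p _ Tw h hw2.le
  -- (1) `y p` is not on top at `b`
  have N1 : ¬ TopPt x y z (y p) b := by
    intro hT
    rcases lt_trichotomy b (w + Real.pi) with h | h | h
    · have e1 := hd b
      have e2 : 0 < Real.sin (b - w) := Real.sin_pos_of_pos_of_lt_pi (by linarith) (by linarith)
      have e3 := mul_pos hl e2
      have e4 := le_hs x q b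
      have e5 := hT.1
      linarith
    · have e1 := tz false
      have e2 := hT.2.2
      have e3 := le_hs z false b
      rw [h] at e2 e3
      rw [dot_add_pi] at e2 e3
      linarith
    · have := hT.cone Tw.add (by linarith) (by linarith) hbc.le (by linarith)
      exact F1 p c this le_rfl hca.le
  have hyb : hs x b < hs y b ∧ hs z b < hs y b := by
    have e1 := h1 b ⟨hab.le, le_rfl⟩
    have e2 := h2 b ⟨le_rfl, hbc.le⟩
    rcases lt_max_iff.1 e1 with h | h <;> rcases lt_max_iff.1 e2 with h' | h'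
    · exact ⟨h', h.trans h'⟩
    · exact absurd h (not_lt.2 h'.le)
    · exact ⟨h', h⟩
    · exact ⟨h'.trans h, h⟩
  have Tb : TopPt x y z (y !p) b := by
    obtain ⟨s, hs'⟩ := exists_hs y b
    have Ts : TopPt x y z (y s) b := by
      refine ⟨?_, ?_, ?_⟩
      · rw [← hs']; exact hyb.1.le
      · rw [← hs']
      · rw [← hs']; exact hyb.2.le
    have : s ≠ p := by
      intro h
      rw [h] at Ts
      exact N1 Ts
    have : s = !p := by cases s <;> cases p <;> simp_all
    rw [← this]
    exact Ts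
  obtain ⟨r, t, m, v, hm, hv1, hv2, hd2, hrt, uz, uy, ux⟩ := edge_dir E2 a
  have Tv : TopPt x y z (y t) v := by
    refine ⟨?_, ?_, ?_⟩
    · rw [hrt]; exact (hs_lt ux).le
    · rw [hrt]; exact uy
    · rw [hrt]; exact uz
  have bv : b < v := by
    by_contra hcon
    push Not at hcon
    have e1 := h1 v ⟨hv1, hcon⟩
    have e2 := le_hs z r v
    have e3 := max_le (hs_lt ux).le uy
    linarith
  have vc : v < c := by
    by_contra hcon
    push Not at hcon
    exact F1 t _ Tv hcon hv2.le
  have hxv : ∀ s, dot (x s) v < dot (y t) v := by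
    intro s
    rw [hrt]
    exact ux s
  by_cases htp : t = p
  · -- (3)
    subst htp
    rcases lt_trichotomy v (w + Real.pi) with h | h | h
    · exact N1 (Tw.cone Tv (by linarith) h wb.le bv.le)
    · have e1 := tz false
      have e2 := Tv.2.2
      have e3 := le_hs z false v
      rw [h] at e2 e3
      rw [dot_add_pi] at e2 e3
      linarith
    · have := Tv.cone Tw.add (by linarith) (by linarith) vc.le (by linarith)
      exact F1 t c this le_rfl hca.le
  · -- (2)
    have htp' : t = !p := by cases t <;> cases p <;> simp_all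
    rw [← htp'] at Tb
    rcases lt_trichotomy v (b + Real.pi) with h | h | h
    · have e1 := hd2 b
      have e2 : 0 < Real.sin (v - b) := Real.sin_pos_of_pos_of_lt_pi (by linarith) (by linarith)
      have e3 : Real.sin (b - v) = - Real.sin (v - b) := by rw [← Real.sin_neg]; ring_nf
      have e4 := mul_pos hm e2
      have e5 := le_hs z r b
      have e6 := Tb.2.2
      rw [e3] at e1
      linarith
    · have e1 := hxv false
      have e2 := Tb.1
      have e3 := le_hs x false b
      rw [h, dot_add_pi, dot_add_pi] at e1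
      linarith
    · have := Tv.cone Tb.add (by linarith) (by linarith) vc.le (by linarith)
      exact F1 t c this le_rfl hca.le

end Pool.Agent.helper53.OT
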