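import Pool.Agent.helper53.OT.Edge

/-! # Perturbation into general position (MP_90837e_co) -/

namespace Pool.Agent.helper53.OT

open Set

private theorem generic_margin {f g h : ℝ → ℝ} (hf : Continuous f) (hg : Continuous g)
    (hh : Continuous h) {a b : ℝ} (hab : a ≤ b) (hlt : ∀ t ∈ Icc a b, h t < max (f t) (g t)) :
    ∃ m > 0, ∀ f' g' h' : ℝ → ℝ, (∀ t, |f' t - f t| < m) → (∀ t, |g' t - g t| < m) →
      (∀ t, |h' t - h t| < m) → ∀ t ∈ Icc a b, h' t < max (f' t) (g' t) := by
  obtain ⟨t0, ht0, hmin⟩ := isCompact_Icc.exists_isMinOn (nonempty_Icc.2 hab)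
    (((hf.max hg).sub hh).continuousOn (s := Icc a b))
  have h0 := hlt t0 ht0
  refine ⟨(max (f t0) (g t0) - h t0) / 2, by linarith, ?_⟩
  intro f' g' h' hf' hg' hh' t ht
  have h1 : max (f t0) (g t0) - h t0 ≤ max (f t) (g t) - h t := hmin ht
  have h2 := abs_lt.1 (hf' t)
  have h3 := abs_lt.1 (hg' t)
  have h4 := abs_lt.1 (hh' t)
  rcases le_total (f t) (g t) with hle | hle
  · rw [max_eq_right hle] at h1
    exact lt_max_of_lt_right (by linarith)
  · rw [max_eq_left hle] at h1
    exact lt_max_of_lt_left (by linarith)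

private theorem generic_dot {p p' : ℝ × ℝ} {δ : ℝ} (h1 : |p'.1 - p.1| < δ) (h2 : |p'.2 - p.2| < δ)
    (t : ℝ) : |dot p' t - dot p t| < 2 * δ := by
  have e : dot p' t - dot p t = (p'.1 - p.1) * Real.cos t + (p'.2 - p.2) * Real.sin t := by
    unfold dot
    ring
  rw [e]
  have h3 : |(p'.1 - p.1) * Real.cos t| ≤ |p'.1 - p.1| := by
    rw [abs_mul]
    exact mul_le_of_le_one_right (abs_nonneg _) (Real.abs_cos_le_one t)
  have h4 : |(p'.2 - p.2) * Real.sin t| ≤ |p'.2 - p.2| := by
    rw [abs_mul]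
    exact mul_le_of_le_one_right (abs_nonneg _) (Real.abs_sin_le_one t)
  have h5 := abs_add_le ((p'.1 - p.1) * Real.cos t) ((p'.2 - p.2) * Real.sin t)
  linarith

private theorem generic_quad (A B C : ℝ) (hC : C ≠ 0) :
    {t : ℝ | A + B * t + C * t ^ 2 = 0}.Finite := by
  let P : Polynomial ℝ := Polynomial.C A + Polynomial.C B * Polynomial.X +
    Polynomial.C C * Polynomial.X ^ 2
  have hP : P ≠ 0 := by
    intro h
    have h2 : P.coeff 2 = C := by
      simp [P, Polynomial.coeff_X, Polynomial.coeff_C]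
    rw [h, Polynomial.coeff_zero] at h2
    exact hC h2.symm
  refine (Polynomial.finite_setOfPred_isRoot hP).subset ?_
  intro t ht
  have ht' : A + B * t + C * t ^ 2 = 0 := ht
  show Polynomial.eval t P = 0
  simp only [P, Polynomial.eval_add, Polynomial.eval_mul, Polynomial.eval_C, Polynomial.eval_X,
    Polynomial.eval_pow]
  exact ht'

private theorem generic_min {ι : Type} [Finite ι] (f : ι → ℝ) (hf : ∀ i, 0 < f i) :
    ∃ δ > 0, ∀ i, δ ≤ f i := by
  rcases isEmpty_or_nonempty ι with hι | hι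
  · exact ⟨1, one_pos, fun i => (hι.false i).elim⟩
  · obtain ⟨i, hi⟩ := Finite.exists_min f
    exact ⟨f i, hf i, hi⟩

/-- `Ccw` is stable under small uniform perturbations.

**Proof.** With the same `a`, `b`, `c`. On the compact interval `[a, b]` the continuous function
`max (f t) (g t) - h t` is positive, so it has a positive minimum `m₁`; the same for the two other
intervals. Take `ε = min m₁ m₂ m₃ / 2`: `h' t < h t + ε ≤ max (f t) (g t) - ε < max (f' t) (g' t)`. -/
theorem ccw_open {f g h : ℝ → ℝ} (hf : Continuous f) (hg : Continuous g) (hh : Continuous h)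
    (hc : Ccw f g h) : ∃ ε > 0, ∀ f' g' h' : ℝ → ℝ, (∀ t, |f' t - f t| < ε) →
      (∀ t, |g' t - g t| < ε) → (∀ t, |h' t - h t| < ε) → Ccw f' g' h' := by
  obtain ⟨a, b, c, hab, hbc, hca, h1, h2, h3⟩ := hc
  obtain ⟨m1, hm1, H1⟩ := generic_margin hf hg hh hab.le h1
  obtain ⟨m2, hm2, H2⟩ := generic_margin hg hh hf hbc.le h2
  obtain ⟨m3, hm3, H3⟩ := generic_margin hh hf hg hca.le h3
  refine ⟨min m1 (min m2 m3), lt_min hm1 (lt_min hm2 hm3), ?_⟩
  intro f' g' h' hf' hg' hh'
  have l1 : min m1 (min m2 m3) ≤ m1 := min_le_left _ _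
  have l2 : min m1 (min m2 m3) ≤ m2 := (min_le_right _ _).trans (min_le_left _ _)
  have l3 : min m1 (min m2 m3) ≤ m3 := (min_le_right _ _).trans (min_le_right _ _)
  refine ⟨a, b, c, hab, hbc, hca, ?_, ?_, ?_⟩
  · exact H1 f' g' h' (fun t => (hf' t).trans_le l1) (fun t => (hg' t).trans_le l1)
      (fun t => (hh' t).trans_le l1)
  · exact H2 g' h' f' (fun t => (hg' t).trans_le l2) (fun t => (hh' t).trans_le l2)
      (fun t => (hf' t).trans_le l2)
  · exact H3 h' f' g' (fun t => (hh' t).trans_le l3) (fun t => (hf' t).trans_le l3)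
      (fun t => (hg' t).trans_le l3)

/-- **Proof.** `|dot p' t - dot p t| ≤ |p'.1 - p.1| + |p'.2 - p.2| < 2 δ` and
`|max a' b' - max a b| ≤ max |a' - a| |b' - b|` (`abs_max_sub_max_le_max`). -/
theorem hs_close {x x' : Bool → ℝ × ℝ} {δ : ℝ}
    (h : ∀ p, |(x' p).1 - (x p).1| < δ ∧ |(x' p).2 - (x p).2| < δ) (t : ℝ) :
    |hs x' t - hs x t| < 2 * δ := by
  unfold hs seg
  refine (abs_max_sub_max_le_max _ _ _ _).trans_lt ?_
  exact max_lt (generic_dot (h false).1 (h false).2 t) (generic_dot (h true).1 (h true).2 t)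

/-- Finitely many points can be moved by less than `ε` into general position.

**Proof.** Let `s : κ → ℝ` be injective with values in `[0, 1]` (for example through
`Fintype.equivFin κ`, `s k = i / (card κ + 1)`), and move `e k` to `e k + t • (s k, (s k) ^ 2)` for a
real `t ∈ (0, ε)`; then each coordinate moves by at most `t < ε`. For distinct `x`, `y`, `z` the
orientation of the moved points is `A + B t + C t²` with
`C = (s y - s x) * (s z - s x) * (s z - s y) ≠ 0`, so it vanishes for at most two (finitely many)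
values of `t`. The union over the finitely many triples of these sets of `t` is finite, and
`(0, ε)` is infinite (`Set.Ioo_infinite`), so some `t ∈ (0, ε)` is in none of them. -/
theorem exists_generic {κ : Type} [Finite κ] (e : κ → ℝ × ℝ) {ε : ℝ} (hε : 0 < ε) :
    ∃ e' : κ → ℝ × ℝ, (∀ k, |(e' k).1 - (e k).1| < ε ∧ |(e' k).2 - (e k).2| < ε) ∧
      ∀ x y z, x ≠ y → y ≠ z → x ≠ z → orient (e' x) (e' y) (e' z) ≠ 0 := by
  classical
  have : Fintype κ := Fintype.ofFinite κ
  let s : κ → ℝ := fun k => ((Fintype.equivFin κ k : ℕ) : ℝ) / (Fintype.card κ + 1)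
  have hN : (0 : ℝ) < Fintype.card κ + 1 := by positivity
  have hs0 : ∀ k, 0 ≤ s k := fun k => by positivity
  have hs1 : ∀ k, s k ≤ 1 := by
    intro k
    rw [div_le_one hN]
    have h1 : ((Fintype.equivFin κ k : ℕ) : ℝ) ≤ Fintype.card κ := by
      exact_mod_cast (Fintype.equivFin κ k).2.le
    linarith
  have hinj : ∀ x y, x ≠ y → s x ≠ s y := by
    intro x y hxy h
    apply hxy
    have h1 : ((Fintype.equivFin κ x : ℕ) : ℝ) = ((Fintype.equivFin κ y : ℕ) : ℝ) := by
      have h2 : ((Fintype.equivFin κ x : ℕ) : ℝ) / (Fintype.card κ + 1) =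
        ((Fintype.equivFin κ y : ℕ) : ℝ) / (Fintype.card κ + 1) := h
      field_simp at h2
      exact h2
    have h2 : (Fintype.equivFin κ x : ℕ) = (Fintype.equivFin κ y : ℕ) := by exact_mod_cast h1
    exact (Fintype.equivFin κ).injective (Fin.ext h2)
  let E : ℝ → κ → ℝ × ℝ := fun t k => ((e k).1 + t * s k, (e k).2 + t * s k ^ 2)
  let F : κ × κ × κ → Set ℝ := fun p => {t | p.1 ≠ p.2.1 ∧ p.2.1 ≠ p.2.2 ∧ p.1 ≠ p.2.2 ∧
    orient (E t p.1) (E t p.2.1) (E t p.2.2) = 0}
  have hF : ∀ p, (F p).Finite := by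
    rintro ⟨x, y, z⟩
    by_cases hd : x ≠ y ∧ y ≠ z ∧ x ≠ z
    · obtain ⟨hxy, hyz, hxz⟩ := hd
      have hC : (s y - s x) * (s z - s x) * (s z - s y) ≠ 0 :=
        mul_ne_zero (mul_ne_zero (sub_ne_zero.2 (hinj _ _ hxy.symm))
          (sub_ne_zero.2 (hinj _ _ hxz.symm))) (sub_ne_zero.2 (hinj _ _ hyz.symm))
      refine (generic_quad (orient (e x) (e y) (e z))
        (((e y).1 - (e x).1) * (s z ^ 2 - s x ^ 2) + (s y - s x) * ((e z).2 - (e x).2) -
          ((e y).2 - (e x).2) * (s z - s x) - (s y ^ 2 - s x ^ 2) * ((e z).1 - (e x).1))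
        ((s y - s x) * (s z - s x) * (s z - s y)) hC).subset ?_
      rintro t ⟨_, _, _, ht⟩
      have ht' : orient (E t x) (E t y) (E t z) = 0 := ht
      rw [Set.mem_ofPred_eq, ← ht']
      simp only [orient, E]
      ring
    · refine Set.Finite.subset Set.finite_empty ?_
      rintro t ⟨h1, h2, h3, _⟩
      exact (hd ⟨h1, h2, h3⟩).elim
  have hU : (⋃ p, F p).Finite := Set.finite_iUnion hF
  obtain ⟨t, ht, htU⟩ := ((Set.Ioo_infinite hε).sdiff hU).nonempty
  have ht0 : 0 < t := ht.1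
  have ht1 : t < ε := ht.2
  refine ⟨E t, ?_, ?_⟩
  · intro k
    have e1 : (E t k).1 - (e k).1 = t * s k := by simp [E]
    have e2 : (E t k).2 - (e k).2 = t * s k ^ 2 := by simp [E]
    rw [e1, e2]
    have h1 := hs0 k
    have h2 := hs1 k
    have h3 : s k ^ 2 ≤ 1 := pow_le_one₀ h1 h2
    have h4 : 0 ≤ s k ^ 2 := sq_nonneg _
    rw [abs_of_nonneg (mul_nonneg ht0.le h1), abs_of_nonneg (mul_nonneg ht0.le h4)]
    constructor
    · calc t * s k ≤ t * 1 := mul_le_mul_of_nonneg_left h2 ht0.le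
        _ < ε := by linarith
    · calc t * s k ^ 2 ≤ t * 1 := mul_le_mul_of_nonneg_left h3 ht0.le
        _ < ε := by linarith
  · intro x y z hxy hyz hxz h
    exact htU (Set.mem_iUnion.2 ⟨(x, y, z), hxy, hyz, hxz, h⟩)

/-- Segments can be moved into general position, keeping finitely many `Ccw` conditions.

**Proof.** `κ = Fin n × Bool`. For each of the finitely many triples with `R i j k` take the `ε` of
`ccw_open` (the functions `hs` are continuous); let `ε` be the minimum of all of them (and of `1`;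
`Finset.exists_le`/induction, or `Finite` choice of a positive lower bound). Move the endpoints by
less than `ε / 2` (`exists_generic`), and use `hs_close`. -/
theorem exists_generic_segments {n : ℕ} (e : Fin n → Bool → ℝ × ℝ)
    (R : Fin n → Fin n → Fin n → Prop)
    (h : ∀ i j k, R i j k → Ccw (hs (e i)) (hs (e j)) (hs (e k))) :
    ∃ e' : Fin n → Bool → ℝ × ℝ, (∀ i j k, R i j k → Ccw (hs (e' i)) (hs (e' j)) (hs (e' k))) ∧
      ∀ x y z : Fin n × Bool, x ≠ y → y ≠ z → x ≠ z →
        orient (e' x.1 x.2) (e' y.1 y.2) (e' z.1 z.2) ≠ 0 := by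
  classical
  have hex : ∀ p : Fin n × Fin n × Fin n, ∃ ε : ℝ, 0 < ε ∧ (R p.1 p.2.1 p.2.2 →
      ∀ f' g' h' : ℝ → ℝ, (∀ t, |f' t - hs (e p.1) t| < ε) →
      (∀ t, |g' t - hs (e p.2.1) t| < ε) → (∀ t, |h' t - hs (e p.2.2) t| < ε) →
      Ccw f' g' h') := by
    intro p
    by_cases hp : R p.1 p.2.1 p.2.2
    · obtain ⟨ε, hε, H⟩ := ccw_open (continuous_seg _ _) (continuous_seg _ _)
        (continuous_seg _ _) (h _ _ _ hp)
      exact ⟨ε, hε, fun _ => H⟩
    · exact ⟨1, one_pos, fun h => (hp h).elim⟩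
  choose eps heps H using hex
  obtain ⟨δ, hδ, hmin⟩ := generic_min eps heps
  obtain ⟨E, hE1, hE2⟩ := exists_generic (fun k : Fin n × Bool => e k.1 k.2) (half_pos hδ)
  have hcl : ∀ i t, |hs (fun b => E (i, b)) t - hs (e i) t| < δ := by
    intro i t
    have h1 := hs_close (x := e i) (x' := fun b => E (i, b)) (δ := δ / 2)
      (fun p => hE1 (i, p)) t
    linarith
  refine ⟨fun i b => E (i, b), ?_, ?_⟩
  · intro i j k hR
    exact H (i, j, k) hR _ _ _ (fun t => (hcl i t).trans_le (hmin _))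
      (fun t => (hcl j t).trans_le (hmin _)) (fun t => (hcl k t).trans_le (hmin _))
  · intro x y z hxy hyz hxz
    exact hE2 x y z hxy hyz hxz

end Pool.Agent.helper53.OT
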