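import Pool.Agent.helper53.OT.Sig

/-! # A signotope is a simple order type (MP_90837e_co)

**Proof.** `sign`, `alt₁`, `alt₂`: case distinction on the order of the three elements.
`acyclic`: the condition is invariant under permutations of `a, b, c, d` (a transposition of two
neighbours changes all four numbers `χ(b,c,d)`, `-χ(a,c,d)`, `χ(a,b,d)`, `-χ(a,b,c)` to their negatives up
to a permutation), so one may assume `a < b < c < d`, and then equality of the four numbers says that
the sequence `T a b c, T a b d, T a c d, T b c d` alternates, against `Ok4`.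
`gp`: for fixed `x` the condition `not (χ(x,a,b) χ(x,c,d) = - χ(x,a,c) χ(x,b,d) = χ(x,a,d) χ(x,b,c))` is
invariant under permutations of `a, b, c, d` (the three products are permuted, with a common sign:
swapping `a, b` gives `-P₁, -P₃, -P₂` for `P₁ = χ(x,a,b) χ(x,c,d)`, `P₂ = -χ(x,a,c) χ(x,b,d)`,
`P₃ = χ(x,a,d) χ(x,b,c)`; swapping `b, c` gives `-P₂, -P₁, -P₃`; swapping `c, d` gives `-P₁, -P₃, -P₂`), so one
may assume `a < b < c < d`. Then there are five positions of `x`, and in each the condition is a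
statement on the ten signs of the triples of the five elements, which satisfy the five conditions
`Ok4`; it can be checked by `decide` over the ten booleans (revert them; or `cases` on them and
`simp`). A computer check has confirmed that all five statements are true.
Alternatively: transfer to `Fin 5`: a set of five naturals is the range of an increasing map from
`Fin 5`, and `decide` on `Fin 5`. -/

namespace Pool.Agent.helper53.OT

/-- sorting four distinct numbers by transpositions of neighbours -/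
private theorem Simple_sort {Q : ℕ → ℕ → ℕ → ℕ → Prop} {P : ℕ → Prop}
    (s1 : ∀ a b c d, P a → P b → P c → P d → a ≠ b → a ≠ c → a ≠ d → b ≠ c → b ≠ d → c ≠ d →
      Q b a c d → Q a b c d)
    (s2 : ∀ a b c d, P a → P b → P c → P d → a ≠ b → a ≠ c → a ≠ d → b ≠ c → b ≠ d → c ≠ d →
      Q a c b d → Q a b c d)
    (s3 : ∀ a b c d, P a → P b → P c → P d → a ≠ b → a ≠ c → a ≠ d → b ≠ c → b ≠ d → c ≠ d →
      Q a b d c → Q a b c d)
    (h : ∀ a b c d, P a → P b → P c → P d → a < b → b < c → c < d → Q a b c d) :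
    ∀ a b c d, P a → P b → P c → P d → a ≠ b → a ≠ c → a ≠ d → b ≠ c → b ≠ d → c ≠ d →
      Q a b c d := by
  have t1 : ∀ a b c d, P a → P b → P c → P d → a < b → b < c → a ≠ d → b ≠ d → c ≠ d →
      Q a b c d := by
    intro a b c d pa pb pc pd hab hbc had hbd hcd
    rcases lt_or_gt_of_ne hcd with h1 | h1
    · exact h a b c d pa pb pc pd hab hbc h1
    · refine s3 a b c d pa pb pc pd (by omega) (by omega) had (by omega) hbd hcd ?_
      rcases lt_or_gt_of_ne hbd with h2 | h2
      · exact h a b d c pa pb pd pc hab h2 h1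
      · refine s2 a b d c pa pb pd pc (by omega) (by omega) (by omega) hbd (by omega)
          (by omega) ?_
        rcases lt_or_gt_of_ne had with h3 | h3
        · exact h a d b c pa pd pb pc h3 h2 hbc
        · exact s1 a d b c pa pd pb pc (by omega) (by omega) (by omega) (by omega) (by omega)
            (by omega) (h d a b c pd pa pb pc h3 hab hbc)
  have t2 : ∀ a b c d, P a → P b → P c → P d → a < b → a ≠ c → a ≠ d → b ≠ c → b ≠ d → c ≠ d →
      Q a b c d := by
    intro a b c d pa pb pc pd hab hac had hbc hbd hcd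
    rcases lt_or_gt_of_ne hbc with h1 | h1
    · exact t1 a b c d pa pb pc pd hab h1 had hbd hcd
    · refine s2 a b c d pa pb pc pd (by omega) hac had hbc hbd hcd ?_
      rcases lt_or_gt_of_ne hac with h2 | h2
      · exact t1 a c b d pa pc pb pd h2 h1 had hcd hbd
      · exact s1 a c b d pa pc pb pd hac (by omega) had (by omega) hcd hbd
          (t1 c a b d pc pa pb pd h2 hab hcd had hbd)
  intro a b c d pa pb pc pd hab hac had hbc hbd hcd
  rcases lt_or_gt_of_ne hab with h1 | h1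
  · exact t2 a b c d pa pb pc pd h1 hac had hbc hbd hcd
  · exact s1 a b c d pa pb pc pd hab hac had hbc hbd hcd
      (t2 b a c d pb pa pc pd h1 hbc hbd hac had hcd)

section

variable (T : ℕ → ℕ → ℕ → Bool)

private theorem Simple_c1 {p q r : ℕ} (h1 : p < q) (h2 : q < r) : chi T p q r = sg (T p q r) := by
  unfold chi
  split_ifs <;> first | rfl | omega

private theorem Simple_c2 {p q r : ℕ} (h1 : p < q) (h2 : q < r) : chi T q r p = sg (T p q r) := by
  unfold chi
  split_ifs <;> first | rfl | omega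

private theorem Simple_c3 {p q r : ℕ} (h1 : p < q) (h2 : q < r) : chi T r p q = sg (T p q r) := by
  unfold chi
  split_ifs <;> first | rfl | omega

private theorem Simple_c4 {p q r : ℕ} (h1 : p < q) (h2 : q < r) :
    chi T p r q = - sg (T p q r) := by
  unfold chi
  split_ifs <;> first | rfl | omega

private theorem Simple_c5 {p q r : ℕ} (h1 : p < q) (h2 : q < r) :
    chi T r q p = - sg (T p q r) := by
  unfold chi
  split_ifs <;> first | rfl | omega

private theorem Simple_c6 {p q r : ℕ} (h1 : p < q) (h2 : q < r) :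
    chi T q p r = - sg (T p q r) := by
  unfold chi
  split_ifs <;> first | rfl | omega

private theorem Simple_sg (b : Bool) : sg b = 1 ∨ sg b = -1 := by
  cases b
  · exact Or.inr rfl
  · exact Or.inl rfl

/-- the orders of three distinct numbers -/
private theorem Simple_ord {x y z : ℕ} (h1 : x ≠ y) (h2 : y ≠ z) (h3 : x ≠ z) :
    (x < y ∧ y < z) ∨ (y < z ∧ z < x) ∨ (z < x ∧ x < y) ∨ (x < z ∧ z < y) ∨ (z < y ∧ y < x) ∨
      (y < x ∧ x < z) := by
  omega

private theorem Simple_sign {x y z : ℕ} (h1 : x ≠ y) (h2 : y ≠ z) (h3 : x ≠ z) :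
    chi T x y z = 1 ∨ chi T x y z = -1 := by
  rcases Simple_ord h1 h2 h3 with h | h | h | h | h | h
  · rw [Simple_c1 T h.1 h.2]; exact Simple_sg _
  · rw [Simple_c3 T h.1 h.2]; exact Simple_sg _
  · rw [Simple_c2 T h.1 h.2]; exact Simple_sg _
  · rw [Simple_c4 T h.1 h.2]; rcases Simple_sg (T x z y) with e | e <;> rw [e] <;> simp
  · rw [Simple_c5 T h.1 h.2]; rcases Simple_sg (T z y x) with e | e <;> rw [e] <;> simp
  · rw [Simple_c6 T h.1 h.2]; rcases Simple_sg (T y x z) with e | e <;> rw [e] <;> simp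

private theorem Simple_alt1 {x y z : ℕ} (h1 : x ≠ y) (h2 : y ≠ z) (h3 : x ≠ z) :
    chi T y x z = - chi T x y z := by
  rcases Simple_ord h1 h2 h3 with h | h | h | h | h | h
  · rw [Simple_c1 T h.1 h.2, Simple_c6 T h.1 h.2]
  · rw [Simple_c3 T h.1 h.2, Simple_c4 T h.1 h.2]
  · rw [Simple_c2 T h.1 h.2, Simple_c5 T h.1 h.2]
  · rw [Simple_c4 T h.1 h.2, Simple_c3 T h.1 h.2, neg_neg]
  · rw [Simple_c5 T h.1 h.2, Simple_c2 T h.1 h.2, neg_neg]
  · rw [Simple_c6 T h.1 h.2, Simple_c1 T h.1 h.2, neg_neg]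

private theorem Simple_alt2 {x y z : ℕ} (h1 : x ≠ y) (h2 : y ≠ z) (h3 : x ≠ z) :
    chi T x z y = - chi T x y z := by
  rcases Simple_ord h1 h2 h3 with h | h | h | h | h | h
  · rw [Simple_c1 T h.1 h.2, Simple_c4 T h.1 h.2]
  · rw [Simple_c3 T h.1 h.2, Simple_c5 T h.1 h.2]
  · rw [Simple_c2 T h.1 h.2, Simple_c6 T h.1 h.2]
  · rw [Simple_c4 T h.1 h.2, Simple_c1 T h.1 h.2, neg_neg]
  · rw [Simple_c5 T h.1 h.2, Simple_c3 T h.1 h.2, neg_neg]
  · rw [Simple_c6 T h.1 h.2, Simple_c2 T h.1 h.2, neg_neg]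

end

private theorem Simple_ac : ∀ t0 t1 t2 t3 : Bool, Ok4 t0 t1 t2 t3 →
    ¬ (sg t3 = - sg t2 ∧ sg t3 = sg t1 ∧ sg t3 = - sg t0) := by
  decide +kernel

set_option synthInstance.maxSize 100000 in
private theorem Simple_g0 : ∀ t012 t013 t014 t023 t024 t034 t123 t124 t134 t234 : Bool,
    Ok4 t012 t013 t023 t123 → Ok4 t012 t014 t024 t124 → Ok4 t013 t014 t034 t134 →
    Ok4 t023 t024 t034 t234 → Ok4 t123 t124 t134 t234 →
    ¬ (sg t012 * sg t034 = -(sg t013 * sg t024) ∧ sg t012 * sg t034 = sg t014 * sg t023) := by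
  decide +kernel

set_option synthInstance.maxSize 100000 in
private theorem Simple_g1 : ∀ t012 t013 t014 t023 t024 t034 t123 t124 t134 t234 : Bool,
    Ok4 t012 t013 t023 t123 → Ok4 t012 t014 t024 t124 → Ok4 t013 t014 t034 t134 →
    Ok4 t023 t024 t034 t234 → Ok4 t123 t124 t134 t234 →
    ¬ (- sg t012 * sg t134 = -(- sg t013 * sg t124) ∧
      - sg t012 * sg t134 = - sg t014 * sg t123) := by
  decide +kernel

set_option synthInstance.maxSize 100000 in
private theorem Simple_g2 : ∀ t012 t013 t014 t023 t024 t034 t123 t124 t134 t234 : Bool,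
    Ok4 t012 t013 t023 t123 → Ok4 t012 t014 t024 t124 → Ok4 t013 t014 t034 t134 →
    Ok4 t023 t024 t034 t234 → Ok4 t123 t124 t134 t234 →
    ¬ (sg t012 * sg t234 = -(- sg t023 * - sg t124) ∧
      sg t012 * sg t234 = - sg t024 * - sg t123) := by
  decide +kernel

set_option synthInstance.maxSize 100000 in
private theorem Simple_g3 : ∀ t012 t013 t014 t023 t024 t034 t123 t124 t134 t234 : Bool,
    Ok4 t012 t013 t023 t123 → Ok4 t012 t014 t024 t124 → Ok4 t013 t014 t034 t134 →
    Ok4 t023 t024 t034 t234 → Ok4 t123 t124 t134 t234 →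
    ¬ (sg t013 * - sg t234 = -(sg t023 * - sg t134) ∧
      sg t013 * - sg t234 = - sg t034 * sg t123) := by
  decide +kernel

set_option synthInstance.maxSize 100000 in
private theorem Simple_g4 : ∀ t012 t013 t014 t023 t024 t034 t123 t124 t134 t234 : Bool,
    Ok4 t012 t013 t023 t123 → Ok4 t012 t014 t024 t124 → Ok4 t013 t014 t034 t134 →
    Ok4 t023 t024 t034 t234 → Ok4 t123 t124 t134 t234 →
    ¬ (sg t014 * sg t234 = -(sg t024 * sg t134) ∧
      sg t014 * sg t234 = sg t034 * sg t124) := by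
  decide +kernel

private theorem Simple_acyc {N : ℕ} {T : ℕ → ℕ → ℕ → Bool} (h : Signotope N T) :
    ∀ a b c d, a < N → b < N → c < N → d < N → a ≠ b → a ≠ c → a ≠ d → b ≠ c → b ≠ d → c ≠ d →
      ¬ (chi T b c d = - chi T a c d ∧ chi T b c d = chi T a b d ∧
        chi T b c d = - chi T a b c) := by
  refine Simple_sort (P := fun y => y < N) (Q := fun a b c d =>
    ¬ (chi T b c d = - chi T a c d ∧ chi T b c d = chi T a b d ∧
        chi T b c d = - chi T a b c)) ?_ ?_ ?_ ?_
  · rintro a b c d - - - - hab hac had hbc hbd hcd hq ⟨e1, e2, e3⟩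
    apply hq
    rw [Simple_alt1 T hab hbd had, Simple_alt1 T hab hbc hac]
    exact ⟨by omega, by omega, by omega⟩
  · rintro a b c d - - - - hab hac had hbc hbd hcd hq ⟨e1, e2, e3⟩
    apply hq
    rw [Simple_alt1 T hbc hcd hbd, Simple_alt2 T hab hbc hac]
    exact ⟨by omega, by omega, by omega⟩
  · rintro a b c d - - - - hab hac had hbc hbd hcd hq ⟨e1, e2, e3⟩
    apply hq
    rw [Simple_alt2 T hbc hcd hbd, Simple_alt2 T hac hcd had]
    exact ⟨by omega, by omega, by omega⟩
  · intro a b c d _ _ _ hd hab hbc hcd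
    rw [Simple_c1 T hbc hcd, Simple_c1 T (hab.trans hbc) hcd, Simple_c1 T hab (hbc.trans hcd),
      Simple_c1 T hab hbc]
    exact Simple_ac _ _ _ _ (h a b c d hab hbc hcd hd)

private theorem Simple_gp {N : ℕ} {T : ℕ → ℕ → ℕ → Bool} (h : Signotope N T) {x : ℕ}
    (hx : x < N) :
    ∀ a b c d, (a < N ∧ x ≠ a) → (b < N ∧ x ≠ b) → (c < N ∧ x ≠ c) → (d < N ∧ x ≠ d) →
      a ≠ b → a ≠ c → a ≠ d → b ≠ c → b ≠ d → c ≠ d →
      ¬ (chi T x a b * chi T x c d = -(chi T x a c * chi T x b d) ∧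
        chi T x a b * chi T x c d = chi T x a d * chi T x b c) := by
  refine Simple_sort (P := fun y => y < N ∧ x ≠ y) (Q := fun a b c d =>
    ¬ (chi T x a b * chi T x c d = -(chi T x a c * chi T x b d) ∧
        chi T x a b * chi T x c d = chi T x a d * chi T x b c)) ?_ ?_ ?_ ?_
  · rintro a b c d pa pb pc pd hab hac had hbc hbd hcd hq ⟨e1, e2⟩
    apply hq
    rw [Simple_alt2 T pa.2 hab pb.2]
    constructor
    · linear_combination -e2
    · linear_combination -e1
  · rintro a b c d pa pb pc pd hab hac had hbc hbd hcd hq ⟨e1, e2⟩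
    apply hq
    rw [Simple_alt2 T pb.2 hbc pc.2]
    constructor
    · linear_combination e1
    · linear_combination e1 - e2
  · rintro a b c d pa pb pc pd hab hac had hbc hbd hcd hq ⟨e1, e2⟩
    apply hq
    rw [Simple_alt2 T pc.2 hcd pd.2]
    constructor
    · linear_combination -e2
    · linear_combination -e1
  · intro a b c d pa pb pc pd hab hbc hcd
    have five : ∀ p0 p1 p2 p3 p4, p0 < p1 → p1 < p2 → p2 < p3 → p3 < p4 → p4 < N →
        Ok4 (T p0 p1 p2) (T p0 p1 p3) (T p0 p2 p3) (T p1 p2 p3) ∧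
        Ok4 (T p0 p1 p2) (T p0 p1 p4) (T p0 p2 p4) (T p1 p2 p4) ∧
        Ok4 (T p0 p1 p3) (T p0 p1 p4) (T p0 p3 p4) (T p1 p3 p4) ∧
        Ok4 (T p0 p2 p3) (T p0 p2 p4) (T p0 p3 p4) (T p2 p3 p4) ∧
        Ok4 (T p1 p2 p3) (T p1 p2 p4) (T p1 p3 p4) (T p2 p3 p4) := by
      intro p0 p1 p2 p3 p4 h0 h1 h2 h3 h4
      exact ⟨h p0 p1 p2 p3 (by omega) (by omega) (by omega) (by omega),
        h p0 p1 p2 p4 (by omega) (by omega) (by omega) (by omega),
        h p0 p1 p3 p4 (by omega) (by omega) (by omega) (by omega),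
        h p0 p2 p3 p4 (by omega) (by omega) (by omega) (by omega),
        h p1 p2 p3 p4 (by omega) (by omega) (by omega) (by omega)⟩
    have hac := hab.trans hbc
    have hbd := hbc.trans hcd
    have had := hab.trans hbd
    rcases lt_or_gt_of_ne pa.2 with h1 | h1
    · -- x < a
      obtain ⟨f1, f2, f3, f4, f5⟩ := five x a b c d h1 hab hbc hcd pd.1
      rw [Simple_c1 T h1 hab, Simple_c1 T (h1.trans hac) hcd, Simple_c1 T h1 hac,
        Simple_c1 T (h1.trans hab) hbd, Simple_c1 T h1 had, Simple_c1 T (h1.trans hab) hbc]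
      exact Simple_g0 _ _ _ _ _ _ _ _ _ _ f1 f2 f3 f4 f5
    rcases lt_or_gt_of_ne pb.2 with h2 | h2
    · -- a < x < b
      obtain ⟨f1, f2, f3, f4, f5⟩ := five a x b c d h1 h2 hbc hcd pd.1
      rw [Simple_c6 T h1 h2, Simple_c1 T (h2.trans hbc) hcd, Simple_c6 T h1 (h2.trans hbc),
        Simple_c1 T h2 hbd, Simple_c6 T h1 (h2.trans hbd), Simple_c1 T h2 hbc]
      exact Simple_g1 _ _ _ _ _ _ _ _ _ _ f1 f2 f3 f4 f5
    rcases lt_or_gt_of_ne pc.2 with h3 | h3
    · -- b < x < c
      obtain ⟨f1, f2, f3, f4, f5⟩ := five a b x c d hab h2 h3 hcd pd.1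
      rw [Simple_c3 T hab h2, Simple_c1 T h3 hcd, Simple_c6 T h1 h3,
        Simple_c6 T h2 (h3.trans hcd), Simple_c6 T h1 (h3.trans hcd), Simple_c6 T h2 h3]
      exact Simple_g2 _ _ _ _ _ _ _ _ _ _ f1 f2 f3 f4 f5
    rcases lt_or_gt_of_ne pd.2 with h4 | h4
    · -- c < x < d
      obtain ⟨f1, f2, f3, f4, f5⟩ := five a b c x d hab hbc h3 h4 pd.1
      rw [Simple_c3 T hab h2, Simple_c6 T h3 h4, Simple_c3 T hac h3,
        Simple_c6 T h2 h4, Simple_c6 T h1 h4, Simple_c3 T hbc h3]
      exact Simple_g3 _ _ _ _ _ _ _ _ _ _ f1 f2 f3 f4 f5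
    · -- d < x
      obtain ⟨f1, f2, f3, f4, f5⟩ := five a b c d x hab hbc hcd h4 hx
      rw [Simple_c3 T hab h2, Simple_c3 T hcd h4, Simple_c3 T hac h3,
        Simple_c3 T hbd h4, Simple_c3 T had h4, Simple_c3 T hbc h3]
      exact Simple_g4 _ _ _ _ _ _ _ _ _ _ f1 f2 f3 f4 f5

theorem simple_of_signotope (N : ℕ) (T : ℕ → ℕ → ℕ → Bool) (h : Signotope N T) :
    SimpleOrderType (fun x y z : Fin N => chi T x y z) := by
  have hv : ∀ {a b : Fin N}, a ≠ b → (a : ℕ) ≠ (b : ℕ) := fun hab hc => hab (Fin.ext hc)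
  refine ⟨?_, ?_, ?_, ?_, ?_⟩
  · intro a b c hab hbc hac
    exact Simple_sign T (hv hab) (hv hbc) (hv hac)
  · intro a b c hab hbc hac
    exact Simple_alt1 T (hv hab) (hv hbc) (hv hac)
  · intro a b c hab hbc hac
    exact Simple_alt2 T (hv hab) (hv hbc) (hv hac)
  · intro x a b c d hxa hxb hxc hxd hab hac had hbc hbd hcd
    exact Simple_gp h x.2 a b c d ⟨a.2, hv hxa⟩ ⟨b.2, hv hxb⟩ ⟨c.2, hv hxc⟩ ⟨d.2, hv hxd⟩
      (hv hab) (hv hac) (hv had) (hv hbc) (hv hbd) (hv hcd)
  · intro a b c d hab hac had hbc hbd hcd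
    exact Simple_acyc h a b c d a.2 b.2 c.2 d.2 (hv hab) (hv hac) (hv had) (hv hbc) (hv hbd)
      (hv hcd)

end Pool.Agent.helper53.OT
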