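import Pool.Agent.helper53.OT.Supp

/-! # The upper envelope is preserved by a homeomorphism of the cylinder (MP_90837e_co)

Proved by helper59.

Let `A`, `B : Fin 3 → Set (ℝ × ℝ)` be families of bodies and `φ` a homeomorphism as in `SameType A B`.

**Setup.** The function `supp A` is `2π`-periodic and continuous, so it descends to a continuous
function `hA i : Real.Angle → ℝ` (`Function.Periodic.lift`; continuity by
`continuous_coinduced_dom`/`QuotientAddGroup`), and `curve (A i) = {x | x.2 = hA i x.1}`. Let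
`m A x = max_i hA i x` (for example `Finset.univ.sup'` or `max (max _ _) _`), a continuous function.
`U A = {x | m A x.1 < x.2}`, `E A = {x | x.2 = m A x.1}`.

**Step 1.** `U A` is open, preconnected (it is the image of the connected set
`Real.Angle × Ioi 0` under the continuous map `(θ, s) ↦ (θ, m A θ + s)`; `Real.Angle` is connected
as the continuous image of `ℝ`), disjoint from the curves, and `V A = {x | x.2 < m A x.1}` is open.
Every point off the curves is in `U A ∪ V A` (a point with `x.2 = m A x.1` is on a curve).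

**Step 2.** `φ '' U A ⊆ U B`. The set `φ '' U A` is preconnected and contained in
`U B ∪ V B` (it misses the curves of `B` because `φ` maps the curves of `A` onto those of `B`
and is injective). It meets `U B`: `m B` is bounded by some `M > 0` (`Real.Angle` compact). The set
`φ.symm '' (univ ×ˢ Icc 0 M)` is compact, so its second coordinate is bounded above by some `R`.
For `y ≥ max R Y + 1`, `y > m A 0`, the point `(0, y)` is in `U A` and `(φ (0,y)).2 > 0` is not in
`[0, M]`, so `(φ (0,y)).2 > M ≥ m B _`. By preconnectedness (`IsPreconnected.subset_left_of_subset_union`)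
`φ '' U A ⊆ U B`.
Similarly `φ.symm '' U B ⊆ U A`: it is preconnected, misses the curves of `A`, and meets `U A`
(the point just constructed). So `φ '' U A = U B`.

**Step 3.** `closure (U A) = {x | m A x.1 ≤ x.2}`, so `E A = closure (U A) \ U A`; therefore
`φ '' E A = E B` (`Homeomorph.image_closure`).

**Step 4.** Let `T A i = {θ : Real.Angle | hA i θ = m A θ}`, that is the image of
`{θ : ℝ | ∀ j, supp (A j) θ ≤ supp (A i) θ}` under the coercion. `E A ∩ curve (A i)` is the image of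
`T A i` under `θ ↦ (θ, hA i θ)`, and `T A i` is the image of `E A ∩ curve (A i)` under `Prod.fst`.
`φ` maps `E A ∩ curve (A i)` onto `E B ∩ curve (B i)`. So if `T B i` is preconnected, then
`E B ∩ curve (B i)` is, hence `E A ∩ curve (A i) = φ.symm '' _` is, hence `T A i` is.
If at `θ` the function `supp (B i)` is strictly larger than the others, then the point
`x = (θ, supp (B i) θ)` is in `E B ∩ curve (B i)` and on no other curve of `B`; `φ.symm x` is in
`E A ∩ curve (A i)` and on no other curve of `A`, which gives the same for `A`. -/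

namespace Pool.Agent.helper53.OT

open Set

private theorem Homeo_coe_surj (θ : Real.Angle) : ∃ t : ℝ, (t : Real.Angle) = θ :=
  QuotientAddGroup.mk_surjective θ

private theorem Homeo_lift {f : ℝ → ℝ} (hf : Continuous f)
    (hp : ∀ t, f (t + 2 * Real.pi) = f t) :
    ∃ F : Real.Angle → ℝ, Continuous F ∧ ∀ t : ℝ, F t = f t := by
  have h1 : Function.Periodic f (2 * Real.pi) := hp
  refine ⟨h1.lift, ?_, fun t => h1.lift_coe t⟩
  exact Continuous.quotient_liftOn' hf _

private theorem Homeo_preconn_univ : IsPreconnected (univ : Set Real.Angle) := by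
  have h1 : range (fun t : ℝ => (t : Real.Angle)) = univ := by
    ext θ
    exact ⟨fun _ => mem_univ _, fun _ => Homeo_coe_surj θ⟩
  rw [← h1]
  exact isPreconnected_range Real.Angle.continuous_coe

private theorem Homeo_compact : CompactSpace Real.Angle := by
  have h0 : Fact ((0 : ℝ) < 2 * Real.pi) := ⟨Real.two_pi_pos⟩
  exact inferInstanceAs (CompactSpace (AddCircle (2 * Real.pi)))

private theorem Homeo_max (a : Fin 3 → Real.Angle → ℝ) (ca : ∀ i, Continuous (a i)) :
    ∃ m : Real.Angle → ℝ, Continuous m ∧ (∀ i θ, a i θ ≤ m θ) ∧ ∀ θ, ∃ i, m θ = a i θ := by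
  refine ⟨fun θ => max (a 0 θ) (max (a 1 θ) (a 2 θ)),
    (ca 0).max ((ca 1).max (ca 2)), ?_, ?_⟩
  · intro i θ
    fin_cases i
    · exact le_max_left _ _
    · exact (le_max_left _ _).trans (le_max_right _ _)
    · exact (le_max_right _ _).trans (le_max_right _ _)
  · intro θ
    rcases max_choice (a 0 θ) (max (a 1 θ) (a 2 θ)) with h | h
    · exact ⟨0, h⟩
    · rcases max_choice (a 1 θ) (a 2 θ) with h' | h'
      · exact ⟨1, h.trans h'⟩
      · exact ⟨2, h.trans h'⟩

private theorem Homeo_U_preconn {m : Real.Angle → ℝ} (hm : Continuous m) :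
    IsPreconnected {x : Real.Angle × ℝ | m x.1 < x.2} := by
  have h1 : {x : Real.Angle × ℝ | m x.1 < x.2} =
      (fun x : Real.Angle × ℝ => (x.1, m x.1 + x.2)) '' (univ ×ˢ Ioi (0 : ℝ)) := by
    ext x
    constructor
    · intro hx
      refine ⟨(x.1, x.2 - m x.1), ⟨mem_univ _, ?_⟩, ?_⟩
      · have hx' : m x.1 < x.2 := hx
        exact sub_pos.2 hx'
      · exact Prod.ext rfl (by simp)
    · rintro ⟨y, ⟨_, hy⟩, rfl⟩
      have : (0 : ℝ) < y.2 := hy
      show m y.1 < m y.1 + y.2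
      linarith
  rw [h1]
  refine IsPreconnected.image (Homeo_preconn_univ.prod isPreconnected_Ioi) _ ?_
  exact Continuous.continuousOn
    (continuous_fst.prodMk ((hm.comp continuous_fst).add continuous_snd))

private theorem Homeo_closure {m : Real.Angle → ℝ} (hm : Continuous m) :
    closure {x : Real.Angle × ℝ | m x.1 < x.2} = {x | m x.1 ≤ x.2} := by
  apply Subset.antisymm
  · exact closure_lt_subset_le (hm.comp continuous_fst) continuous_snd
  · intro x hx
    have hx' : m x.1 ≤ x.2 := hx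
    have h1 : Filter.Tendsto (fun s : ℝ => ((x.1, x.2 + s) : Real.Angle × ℝ))
        (nhdsWithin 0 (Ioi 0)) (nhds x) := by
      have h2 : Continuous (fun s : ℝ => ((x.1, x.2 + s) : Real.Angle × ℝ)) :=
        continuous_const.prodMk (continuous_const.add continuous_id)
      have h3 := h2.tendsto 0
      have h4 : ((x.1, x.2 + 0) : Real.Angle × ℝ) = x := Prod.ext rfl (add_zero _)
      rw [h4] at h3
      exact h3.mono_left nhdsWithin_le_nhds
    refine mem_closure_of_tendsto h1 ?_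
    filter_upwards [self_mem_nhdsWithin] with s hs
    have : (0 : ℝ) < s := hs
    show m x.1 < x.2 + s
    linarith

private theorem Homeo_sub {a b : Fin 3 → Real.Angle → ℝ} {ma mb : Real.Angle → ℝ}
    (cma : Continuous ma) (cmb : Continuous mb) (la : ∀ i θ, a i θ ≤ ma θ)
    (eb : ∀ θ, ∃ i, mb θ = b i θ) (φ : (Real.Angle × ℝ) ≃ₜ (Real.Angle × ℝ))
    (hφ : ∀ i x, (φ x).2 = b i (φ x).1 → x.2 = a i x.1)
    {x₀ : Real.Angle × ℝ} (h1 : ma x₀.1 < x₀.2) (h2 : mb (φ x₀).1 < (φ x₀).2) :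
    φ '' {x | ma x.1 < x.2} ⊆ {x | mb x.1 < x.2} := by
  refine IsPreconnected.subset_left_of_subset_union
    (u := {x : Real.Angle × ℝ | mb x.1 < x.2}) (v := {x : Real.Angle × ℝ | x.2 < mb x.1})
    (isOpen_lt (cmb.comp continuous_fst) continuous_snd)
    (isOpen_lt continuous_snd (cmb.comp continuous_fst)) ?_ ?_ ?_
    (IsPreconnected.image (Homeo_U_preconn cma) _ φ.continuous.continuousOn)
  · rw [Set.disjoint_left]
    intro x hx hx'
    exact lt_asymm (show mb x.1 < x.2 from hx) hx'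
  · rintro _ ⟨x, hx, rfl⟩
    rcases lt_trichotomy (mb (φ x).1) (φ x).2 with h | h | h
    · exact Or.inl h
    · exfalso
      obtain ⟨i, hi⟩ := eb (φ x).1
      have h3 := hφ i x (by rw [← h, hi])
      have h4 := la i x.1
      have h5 : ma x.1 < x.2 := hx
      linarith
    · exact Or.inr h
  · exact ⟨φ x₀, ⟨x₀, h1, rfl⟩, h2⟩

private theorem Homeo_env {a b : Fin 3 → Real.Angle → ℝ} (ca : ∀ i, Continuous (a i))
    (cb : ∀ i, Continuous (b i)) (φ : (Real.Angle × ℝ) ≃ₜ (Real.Angle × ℝ))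
    (hφ : ∀ i x, (φ x).2 = b i (φ x).1 ↔ x.2 = a i x.1)
    {Y : ℝ} (hY : ∀ y, Y ≤ y → ∀ θ : Real.Angle, 0 < (φ (θ, y)).2) (i : Fin 3)
    (x : Real.Angle × ℝ) :
    (x.2 = a i x.1 ∧ ∀ j, a j x.1 ≤ a i x.1) ↔
      ((φ x).2 = b i (φ x).1 ∧ ∀ j, b j (φ x).1 ≤ b i (φ x).1) := by
  obtain ⟨ma, cma, la, ea⟩ := Homeo_max a ca
  obtain ⟨mb, cmb, lb, eb⟩ := Homeo_max b cb
  have hcomp : CompactSpace Real.Angle := Homeo_compact
  -- a point above everything whose image is above everything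
  obtain ⟨x₀, hx₀, hx₀'⟩ : ∃ x₀ : Real.Angle × ℝ, ma x₀.1 < x₀.2 ∧ mb (φ x₀).1 < (φ x₀).2 := by
    obtain ⟨M, hM⟩ : BddAbove (range mb) := by
      rw [← image_univ]
      exact (isCompact_univ.image cmb).bddAbove
    have hM' : ∀ θ, mb θ ≤ M := fun θ => hM ⟨θ, rfl⟩
    have hK : IsCompact (Prod.snd '' (φ.symm '' ((univ : Set Real.Angle) ×ˢ Icc (0 : ℝ) M))) :=
      ((isCompact_univ.prod isCompact_Icc).image φ.symm.continuous).image continuous_snd
    obtain ⟨R, hR⟩ := hK.bddAbove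
    obtain ⟨y, hy⟩ : ∃ y : ℝ, y = max (max R Y) (ma 0) + 1 := ⟨_, rfl⟩
    have hyR : R < y := by
      have := (le_max_left R Y).trans (le_max_left (max R Y) (ma 0))
      linarith
    have hyY : Y ≤ y := by
      have := (le_max_right R Y).trans (le_max_left (max R Y) (ma 0))
      linarith
    have hym : ma 0 < y := by
      have := le_max_right (max R Y) (ma 0)
      linarith
    refine ⟨(0, y), hym, ?_⟩
    have h1 := hY y hyY 0
    by_contra h2
    rw [not_lt] at h2
    have h3 : (φ ((0 : Real.Angle), y)).2 ≤ M := h2.trans (hM' _)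
    have h4 : y ∈ Prod.snd '' (φ.symm '' ((univ : Set Real.Angle) ×ˢ Icc (0 : ℝ) M)) :=
      ⟨((0 : Real.Angle), y), ⟨φ ((0 : Real.Angle), y), ⟨mem_univ _, h1.le, h3⟩,
        φ.symm_apply_apply _⟩, rfl⟩
    exact absurd (hR h4) (not_le.2 hyR)
  have s1 : φ '' {x | ma x.1 < x.2} ⊆ {x | mb x.1 < x.2} :=
    Homeo_sub cma cmb la eb φ (fun i x h => (hφ i x).1 h) hx₀ hx₀'
  have s2 : φ.symm '' {x | mb x.1 < x.2} ⊆ {x | ma x.1 < x.2} := by
    refine Homeo_sub (x₀ := φ x₀) cmb cma lb ea φ.symm (fun i x h => ?_) hx₀' ?_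
    · have h1 := (hφ i (φ.symm x)).2 h
      rw [φ.apply_symm_apply] at h1
      exact h1
    · rw [φ.symm_apply_apply]
      exact hx₀
  have s3 : φ '' {x | ma x.1 < x.2} = {x | mb x.1 < x.2} := by
    apply Subset.antisymm s1
    intro x hx
    exact ⟨φ.symm x, s2 ⟨x, hx, rfl⟩, φ.apply_symm_apply x⟩
  have s4 : φ '' {x | ma x.1 ≤ x.2} = {x | mb x.1 ≤ x.2} := by
    rw [← Homeo_closure cma, ← Homeo_closure cmb, φ.image_closure, s3]
  have t1 : ∀ x, ma x.1 < x.2 ↔ mb (φ x).1 < (φ x).2 := by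
    intro x
    constructor
    · intro h
      exact s1 ⟨x, h, rfl⟩
    · intro h
      have h1 : φ.symm (φ x) ∈ {x : Real.Angle × ℝ | ma x.1 < x.2} := s2 ⟨φ x, h, rfl⟩
      rw [φ.symm_apply_apply] at h1
      exact h1
  have t2 : ∀ x, ma x.1 ≤ x.2 ↔ mb (φ x).1 ≤ (φ x).2 := by
    intro x
    constructor
    · intro h
      have h1 : φ x ∈ φ '' {x | ma x.1 ≤ x.2} := ⟨x, h, rfl⟩
      rw [s4] at h1
      exact h1
    · intro h
      have h1 : φ x ∈ {x : Real.Angle × ℝ | mb x.1 ≤ x.2} := h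
      rw [← s4] at h1
      obtain ⟨x', hx', he⟩ := h1
      rw [← φ.injective he]
      exact hx'
  have t3 : ∀ x, x.2 = ma x.1 ↔ (φ x).2 = mb (φ x).1 := by
    intro x
    constructor
    · intro h
      exact le_antisymm (not_lt.1 (fun k => absurd ((t1 x).2 k) (by rw [h]; exact lt_irrefl _)))
        ((t2 x).1 h.ge)
    · intro h
      exact le_antisymm (not_lt.1 (fun k => absurd ((t1 x).1 k) (by rw [h]; exact lt_irrefl _)))
        ((t2 x).2 h.ge)
  have u1 : (x.2 = a i x.1 ∧ ∀ j, a j x.1 ≤ a i x.1) ↔ (x.2 = a i x.1 ∧ x.2 = ma x.1) := by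
    constructor
    · rintro ⟨h1, h2⟩
      refine ⟨h1, ?_⟩
      obtain ⟨j, hj⟩ := ea x.1
      have h3 := h2 j
      have h4 := la i x.1
      linarith
    · rintro ⟨h1, h2⟩
      refine ⟨h1, fun j => ?_⟩
      have h3 := la j x.1
      linarith
  have u2 : ((φ x).2 = b i (φ x).1 ∧ ∀ j, b j (φ x).1 ≤ b i (φ x).1) ↔
      ((φ x).2 = b i (φ x).1 ∧ (φ x).2 = mb (φ x).1) := by
    constructor
    · rintro ⟨h1, h2⟩
      refine ⟨h1, ?_⟩
      obtain ⟨j, hj⟩ := eb (φ x).1
      have h3 := h2 j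
      have h4 := lb i (φ x).1
      linarith
    · rintro ⟨h1, h2⟩
      refine ⟨h1, fun j => ?_⟩
      have h3 := lb j (φ x).1
      linarith
  rw [u1, u2, hφ i x, t3 x]

theorem homeo_top (A B : Fin 3 → Set (ℝ × ℝ)) (hA : ∀ i, IsBody (A i)) (hB : ∀ i, IsBody (B i))
    (h : SameType A B) (i : Fin 3) :
    (IsPreconnected ((fun θ : ℝ => (θ : Real.Angle)) '' {θ | ∀ j, supp (B j) θ ≤ supp (B i) θ}) →
      IsPreconnected ((fun θ : ℝ => (θ : Real.Angle)) '' {θ | ∀ j, supp (A j) θ ≤ supp (A i) θ})) ∧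
    ((∃ θ, ∀ j, j ≠ i → supp (B j) θ < supp (B i) θ) →
      (∃ θ, ∀ j, j ≠ i → supp (A j) θ < supp (A i) θ)) := by
  obtain ⟨φ, hφ, Y, hY⟩ := h
  have ha1 : ∀ i, ∃ F : Real.Angle → ℝ, Continuous F ∧ ∀ t : ℝ, F t = supp (A i) t := fun i =>
    Homeo_lift (hA i).continuous_supp (fun t => supp_add_two_pi (A i) t)
  have hb1 : ∀ i, ∃ F : Real.Angle → ℝ, Continuous F ∧ ∀ t : ℝ, F t = supp (B i) t := fun i =>
    Homeo_lift (hB i).continuous_supp (fun t => supp_add_two_pi (B i) t)
  choose a ca ha using ha1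
  choose b cb hb using hb1
  have cuA : ∀ i x, x ∈ curve (A i) ↔ x.2 = a i x.1 := by
    intro i x
    constructor
    · rintro ⟨θ, rfl⟩
      exact (ha i θ).symm
    · intro hx
      obtain ⟨t, ht⟩ := Homeo_coe_surj x.1
      refine ⟨t, Prod.ext ht.symm ?_⟩
      rw [hx, ← ht, ha]
  have cuB : ∀ i x, x ∈ curve (B i) ↔ x.2 = b i x.1 := by
    intro i x
    constructor
    · rintro ⟨θ, rfl⟩
      exact (hb i θ).symm
    · intro hx
      obtain ⟨t, ht⟩ := Homeo_coe_surj x.1
      refine ⟨t, Prod.ext ht.symm ?_⟩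
      rw [hx, ← ht, hb]
  have hφ' : ∀ i x, (φ x).2 = b i (φ x).1 ↔ x.2 = a i x.1 := by
    intro i x
    rw [← cuA, ← cuB, ← hφ i]
    constructor
    · rintro ⟨x', hx', he⟩
      rw [← φ.injective he]
      exact hx'
    · intro hx
      exact ⟨x, hx, rfl⟩
  have henv := Homeo_env ca cb φ hφ' hY i
  have hTA : ((fun θ : ℝ => (θ : Real.Angle)) '' {θ | ∀ j, supp (A j) θ ≤ supp (A i) θ}) =
      {θ : Real.Angle | ∀ j, a j θ ≤ a i θ} := by
    ext θ
    constructor
    · rintro ⟨t, ht, rfl⟩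
      intro j
      rw [ha, ha]
      exact ht j
    · intro hθ
      obtain ⟨t, ht⟩ := Homeo_coe_surj θ
      refine ⟨t, fun j => ?_, ht⟩
      rw [← ha, ← ha, ht]
      exact hθ j
  have hTB : ((fun θ : ℝ => (θ : Real.Angle)) '' {θ | ∀ j, supp (B j) θ ≤ supp (B i) θ}) =
      {θ : Real.Angle | ∀ j, b j θ ≤ b i θ} := by
    ext θ
    constructor
    · rintro ⟨t, ht, rfl⟩
      intro j
      rw [hb, hb]
      exact ht j
    · intro hθ
      obtain ⟨t, ht⟩ := Homeo_coe_surj θ
      refine ⟨t, fun j => ?_, ht⟩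
      rw [← hb, ← hb, ht]
      exact hθ j
  constructor
  · rw [hTA, hTB]
    intro hpre
    have h1 : IsPreconnected ((fun θ : Real.Angle => (θ, b i θ)) ''
        {θ : Real.Angle | ∀ j, b j θ ≤ b i θ}) :=
      hpre.image _ (continuous_id.prodMk (cb i)).continuousOn
    have h2 : IsPreconnected (Prod.fst '' (φ.symm '' ((fun θ : Real.Angle => (θ, b i θ)) ''
        {θ : Real.Angle | ∀ j, b j θ ≤ b i θ}))) :=
      (h1.image _ φ.symm.continuous.continuousOn).image _ continuous_fst.continuousOn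
    have h3 : Prod.fst '' (φ.symm '' ((fun θ : Real.Angle => (θ, b i θ)) ''
        {θ : Real.Angle | ∀ j, b j θ ≤ b i θ})) = {θ : Real.Angle | ∀ j, a j θ ≤ a i θ} := by
      ext θ
      constructor
      · rintro ⟨_, ⟨_, ⟨τ, hτ, rfl⟩, rfl⟩, rfl⟩
        have h4 := (henv (φ.symm (τ, b i τ))).2
        rw [φ.apply_symm_apply] at h4
        exact (h4 ⟨rfl, hτ⟩).2
      · intro hθ
        have h4 := (henv (θ, a i θ)).1 ⟨rfl, hθ⟩
        refine ⟨(θ, a i θ), ⟨φ (θ, a i θ), ⟨(φ (θ, a i θ)).1, h4.2, ?_⟩,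
          φ.symm_apply_apply _⟩, rfl⟩
        exact Prod.ext rfl h4.1.symm
    rw [← h3]
    exact h2
  · rintro ⟨θ, hθ⟩
    have hθ' : ∀ j, j ≠ i → b j (θ : Real.Angle) < b i (θ : Real.Angle) := by
      intro j hj
      rw [hb, hb]
      exact hθ j hj
    obtain ⟨y, hy⟩ : ∃ y, y = φ.symm ((θ : Real.Angle), b i θ) := ⟨_, rfl⟩
    have hφy : φ y = ((θ : Real.Angle), b i θ) := by rw [hy, φ.apply_symm_apply]
    have h4 := (henv y).2
    rw [hφy] at h4
    have h5 := h4 ⟨rfl, fun j => by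
      rcases eq_or_ne j i with h | h
      · rw [h]
      · exact (hθ' j h).le⟩
    obtain ⟨t, ht⟩ := Homeo_coe_surj y.1
    refine ⟨t, fun j hj => ?_⟩
    rw [← ha, ← ha, ht]
    refine lt_of_le_of_ne (h5.2 j) (fun he => ?_)
    have h6 := (hφ' j y).2 (by rw [h5.1, he])
    rw [hφy] at h6
    exact absurd h6 (hθ' j hj).ne'

end Pool.Agent.helper53.OT
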