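import Pool.Agent.helper53.OT.Supp

/-! # Three non-collinear points (MP_90837e_co)

**Proof of `points_top_preconnected`.** Fix `i`; let `u`, `v` be the two difference vectors
`P i - P j` (`j ≠ i`); by the hypothesis they are linearly independent (`u.1 v.2 - u.2 v.1 ≠ 0`;
do the three cases `i = 0, 1, 2`, or first prove a lemma for points `p q r` with `orient p q r ≠ 0`
and the function `θ ↦ dot q θ ≤ dot p θ ∧ dot r θ ≤ dot p θ`).
Let `C = {z : ℂ | z ≠ 0 ∧ 0 ≤ z.re * u.1 + z.im * u.2 ∧ 0 ≤ z.re * v.1 + z.im * v.2}`. `C` is convex: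
if `x, y ∈ C` and `a x + b y = 0` with `a, b ≥ 0`, `a + b = 1`, then (both `a, b > 0` since
`x, y ≠ 0`) `⟨x,u⟩ = 0 = ⟨x,v⟩` because `a ⟨x,u⟩ + b ⟨y,u⟩ = 0` is a sum of two nonnegative
numbers; so `x = 0` by linear independence, a contradiction. So `C` is preconnected
(`Convex.isPreconnected`). The map `z ↦ (Complex.arg z : Real.Angle)` is continuous at each `z ≠ 0`
(`Complex.continuousAt_arg_coe_angle`), so the image of `C` is preconnected. The image is the set in
question: for `z ∈ C` with `θ = arg z`, `z.re = ‖z‖ cos θ`, `z.im = ‖z‖ sin θ`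
(`Complex.norm_mul_cos_arg`, `Complex.norm_mul_sin_arg` or similar) and `‖z‖ > 0`, so `dot (P j) θ ≤
dot (P i) θ`; conversely for `θ` in the set take `z = cos θ + i sin θ` (`Complex.arg_cos_add_sin_mul_I_coe_angle`
says that its argument is `θ` as an angle).

**Proof of `points_strict`.** With `u`, `v` as above there is a vector `w` with `⟨w,u⟩ = 1`,
`⟨w,v⟩ = 1` (Cramer), `w ≠ 0`, and `θ = arg w` works. -/

namespace Pool.Agent.helper53.OT

open Set

private theorem Points_top (p q r : ℝ × ℝ) (h : orient p q r ≠ 0) :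
    IsPreconnected ((fun θ : ℝ => (θ : Real.Angle)) ''
      {θ | dot q θ ≤ dot p θ ∧ dot r θ ≤ dot p θ}) := by
  let C : Set ℂ := {z | z ≠ 0 ∧ 0 ≤ z.re * (p.1 - q.1) + z.im * (p.2 - q.2) ∧
    0 ≤ z.re * (p.1 - r.1) + z.im * (p.2 - r.2)}
  have hdet : (p.1 - q.1) * (p.2 - r.2) - (p.2 - q.2) * (p.1 - r.1) ≠ 0 := by
    intro h0
    apply h
    unfold orient
    linear_combination h0
  have hz : ∀ z : ℂ, z.re * (p.1 - q.1) + z.im * (p.2 - q.2) = 0 →
      z.re * (p.1 - r.1) + z.im * (p.2 - r.2) = 0 → z = 0 := by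
    intro z h1 h2
    have h3 : z.re * ((p.1 - q.1) * (p.2 - r.2) - (p.2 - q.2) * (p.1 - r.1)) = 0 := by
      linear_combination (p.2 - r.2) * h1 - (p.2 - q.2) * h2
    have h4 : z.im * ((p.1 - q.1) * (p.2 - r.2) - (p.2 - q.2) * (p.1 - r.1)) = 0 := by
      linear_combination (p.1 - q.1) * h2 - (p.1 - r.1) * h1
    have h5 := (mul_eq_zero.1 h3).resolve_right hdet
    have h6 := (mul_eq_zero.1 h4).resolve_right hdet
    exact Complex.ext h5 h6
  have hC : Convex ℝ C := by
    intro x hx y hy a b ha hb hab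
    have hre : (a • x + b • y).re = a * x.re + b * y.re := by simp
    have him : (a • x + b • y).im = a * x.im + b * y.im := by simp
    have hxu := hx.2.1
    have hxv := hx.2.2
    have hyu := hy.2.1
    have hyv := hy.2.2
    have e1 : (a * x.re + b * y.re) * (p.1 - q.1) + (a * x.im + b * y.im) * (p.2 - q.2) =
        a * (x.re * (p.1 - q.1) + x.im * (p.2 - q.2)) +
          b * (y.re * (p.1 - q.1) + y.im * (p.2 - q.2)) := by ring
    have e2 : (a * x.re + b * y.re) * (p.1 - r.1) + (a * x.im + b * y.im) * (p.2 - r.2) =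
        a * (x.re * (p.1 - r.1) + x.im * (p.2 - r.2)) +
          b * (y.re * (p.1 - r.1) + y.im * (p.2 - r.2)) := by ring
    have g1 := mul_nonneg ha hxu
    have g2 := mul_nonneg hb hyu
    have g3 := mul_nonneg ha hxv
    have g4 := mul_nonneg hb hyv
    refine ⟨?_, ?_, ?_⟩
    · intro h0
      rw [Complex.ext_iff, hre, him, Complex.zero_re, Complex.zero_im] at h0
      rw [h0.1, h0.2, zero_mul, zero_mul, add_zero] at e1 e2
      have k1 : a * (x.re * (p.1 - q.1) + x.im * (p.2 - q.2)) = 0 := by linarith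
      have k2 : b * (y.re * (p.1 - q.1) + y.im * (p.2 - q.2)) = 0 := by linarith
      have k3 : a * (x.re * (p.1 - r.1) + x.im * (p.2 - r.2)) = 0 := by linarith
      have k4 : b * (y.re * (p.1 - r.1) + y.im * (p.2 - r.2)) = 0 := by linarith
      rcases ha.eq_or_lt with h1 | h1
      · have hb1 : b = 1 := by linarith
        rw [hb1, one_mul] at k2 k4
        exact hy.1 (hz y k2 k4)
      · exact hx.1 (hz x ((mul_eq_zero.1 k1).resolve_left h1.ne')
          ((mul_eq_zero.1 k3).resolve_left h1.ne'))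
    · rw [hre, him, e1]
      linarith
    · rw [hre, him, e2]
      linarith
  have himg : (fun θ : ℝ => (θ : Real.Angle)) '' {θ | dot q θ ≤ dot p θ ∧ dot r θ ≤ dot p θ} =
      (fun z : ℂ => ((Complex.arg z : ℝ) : Real.Angle)) '' C := by
    ext x
    constructor
    · rintro ⟨θ, hθ, rfl⟩
      have hre : ((Real.cos θ : ℂ) + (Real.sin θ : ℂ) * Complex.I).re = Real.cos θ := by
        rw [Complex.add_re, Complex.mul_re, Complex.ofReal_re, Complex.ofReal_re,
          Complex.ofReal_im, Complex.I_re, Complex.I_im]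
        ring
      have him : ((Real.cos θ : ℂ) + (Real.sin θ : ℂ) * Complex.I).im = Real.sin θ := by
        rw [Complex.add_im, Complex.mul_im, Complex.ofReal_re, Complex.ofReal_im,
          Complex.ofReal_im, Complex.I_re, Complex.I_im]
        ring
      refine ⟨(Real.cos θ : ℂ) + (Real.sin θ : ℂ) * Complex.I, ⟨?_, ?_, ?_⟩, ?_⟩
      · intro h0
        rw [h0, Complex.zero_re] at hre
        rw [h0, Complex.zero_im] at him
        have h3 := Real.sin_sq_add_cos_sq θ
        rw [← hre, ← him] at h3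
        norm_num at h3
      · rw [hre, him]
        have h1 := hθ.1
        unfold dot at h1
        nlinarith [h1]
      · rw [hre, him]
        have h1 := hθ.2
        unfold dot at h1
        nlinarith [h1]
      · have h1 := Complex.arg_cos_add_sin_mul_I_coe_angle (θ : Real.Angle)
        rw [Real.Angle.cos_coe, Real.Angle.sin_coe] at h1
        exact h1
    · rintro ⟨z, hzC, rfl⟩
      refine ⟨Complex.arg z, ?_, rfl⟩
      have hn : 0 < ‖z‖ := norm_pos_iff.2 hzC.1
      have hc := Complex.norm_mul_cos_arg z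
      have hs := Complex.norm_mul_sin_arg z
      have h1 := hzC.2.1
      have h2 := hzC.2.2
      rw [← hc, ← hs] at h1 h2
      have h3 : 0 ≤ ‖z‖ * (Real.cos z.arg * (p.1 - q.1) + Real.sin z.arg * (p.2 - q.2)) := by
        nlinarith [h1]
      have h4 : 0 ≤ ‖z‖ * (Real.cos z.arg * (p.1 - r.1) + Real.sin z.arg * (p.2 - r.2)) := by
        nlinarith [h2]
      have h5 := nonneg_of_mul_nonneg_right h3 hn
      have h6 := nonneg_of_mul_nonneg_right h4 hn
      constructor
      · unfold dot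
        linarith
      · unfold dot
        linarith
  rw [himg]
  apply hC.isPreconnected.image
  intro z hzC
  exact (Complex.continuousAt_arg_coe_angle hzC.1).continuousWithinAt

private theorem Points_strict (p q r : ℝ × ℝ) (h : orient p q r ≠ 0) :
    ∃ θ, dot q θ < dot p θ ∧ dot r θ < dot p θ := by
  have hdet : (p.1 - q.1) * (p.2 - r.2) - (p.2 - q.2) * (p.1 - r.1) ≠ 0 := by
    intro h0
    apply h
    unfold orient
    linear_combination h0
  obtain ⟨Δ, hΔ⟩ : ∃ Δ, Δ = (p.1 - q.1) * (p.2 - r.2) - (p.2 - q.2) * (p.1 - r.1) := ⟨_, rfl⟩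
  have hΔ0 : Δ ≠ 0 := by
    rw [hΔ]
    exact hdet
  let w : ℂ := ⟨((p.2 - r.2) - (p.2 - q.2)) / Δ, ((p.1 - q.1) - (p.1 - r.1)) / Δ⟩
  have h1 : w.re * (p.1 - q.1) + w.im * (p.2 - q.2) = 1 := by
    show ((p.2 - r.2) - (p.2 - q.2)) / Δ * (p.1 - q.1) +
      ((p.1 - q.1) - (p.1 - r.1)) / Δ * (p.2 - q.2) = 1
    rw [div_mul_eq_mul_div, div_mul_eq_mul_div, ← add_div, div_eq_one_iff_eq hΔ0, hΔ]
    ring
  have h2 : w.re * (p.1 - r.1) + w.im * (p.2 - r.2) = 1 := by
    show ((p.2 - r.2) - (p.2 - q.2)) / Δ * (p.1 - r.1) +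
      ((p.1 - q.1) - (p.1 - r.1)) / Δ * (p.2 - r.2) = 1
    rw [div_mul_eq_mul_div, div_mul_eq_mul_div, ← add_div, div_eq_one_iff_eq hΔ0, hΔ]
    ring
  have hw : w ≠ 0 := by
    intro h0
    rw [h0] at h1
    simp at h1
  have hn : 0 < ‖w‖ := norm_pos_iff.2 hw
  have hc := Complex.norm_mul_cos_arg w
  have hs := Complex.norm_mul_sin_arg w
  rw [← hc, ← hs] at h1 h2
  refine ⟨Complex.arg w, ?_, ?_⟩
  · have h3 : 0 < ‖w‖ * (Real.cos w.arg * (p.1 - q.1) + Real.sin w.arg * (p.2 - q.2)) := by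
      nlinarith [h1]
    have h5 := (mul_pos_iff_of_pos_left hn).1 h3
    unfold dot
    linarith
  · have h3 : 0 < ‖w‖ * (Real.cos w.arg * (p.1 - r.1) + Real.sin w.arg * (p.2 - r.2)) := by
      nlinarith [h2]
    have h5 := (mul_pos_iff_of_pos_left hn).1 h3
    unfold dot
    linarith

private theorem Points_orient1 (P : Fin 3 → ℝ × ℝ) (hP : orient (P 0) (P 1) (P 2) ≠ 0) :
    orient (P 1) (P 0) (P 2) ≠ 0 ∧ orient (P 2) (P 0) (P 1) ≠ 0 := by
  constructor
  · intro h
    apply hP
    unfold orient at h ⊢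
    linear_combination -h
  · intro h
    apply hP
    unfold orient at h ⊢
    linear_combination h

theorem points_top_preconnected (P : Fin 3 → ℝ × ℝ) (hP : orient (P 0) (P 1) (P 2) ≠ 0)
    (i : Fin 3) :
    IsPreconnected ((fun θ : ℝ => (θ : Real.Angle)) '' {θ | ∀ j, dot (P j) θ ≤ dot (P i) θ}) := by
  obtain ⟨h1, h2⟩ := Points_orient1 P hP
  have key : ∀ a b c : Fin 3, orient (P a) (P b) (P c) ≠ 0 →
      (∀ j : Fin 3, j = a ∨ j = b ∨ j = c) →
      IsPreconnected ((fun θ : ℝ => (θ : Real.Angle)) '' {θ | ∀ j, dot (P j) θ ≤ dot (P a) θ}) := by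
    intro a b c h hj
    have h3 : {θ | ∀ j, dot (P j) θ ≤ dot (P a) θ} =
        {θ | dot (P b) θ ≤ dot (P a) θ ∧ dot (P c) θ ≤ dot (P a) θ} := by
      ext θ
      constructor
      · intro h4
        exact ⟨h4 b, h4 c⟩
      · intro h4 j
        rcases hj j with h5 | h5 | h5
        · rw [h5]
        · rw [h5]
          exact h4.1
        · rw [h5]
          exact h4.2
    rw [h3]
    exact Points_top (P a) (P b) (P c) h
  fin_cases i
  · exact key 0 1 2 hP (by decide)
  · exact key 1 0 2 h1 (by decide)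
  · exact key 2 0 1 h2 (by decide)

theorem points_strict (P : Fin 3 → ℝ × ℝ) (hP : orient (P 0) (P 1) (P 2) ≠ 0) (i : Fin 3) :
    ∃ θ, ∀ j, j ≠ i → dot (P j) θ < dot (P i) θ := by
  obtain ⟨h1, h2⟩ := Points_orient1 P hP
  have key : ∀ a b c : Fin 3, orient (P a) (P b) (P c) ≠ 0 →
      (∀ j : Fin 3, j = a ∨ j = b ∨ j = c) →
      ∃ θ, ∀ j, j ≠ a → dot (P j) θ < dot (P a) θ := by
    intro a b c h hj
    obtain ⟨θ, h3, h4⟩ := Points_strict (P a) (P b) (P c) h
    refine ⟨θ, fun j hja => ?_⟩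
    rcases hj j with h5 | h5 | h5
    · exact absurd h5 hja
    · rw [h5]
      exact h3
    · rw [h5]
      exact h4
  fin_cases i
  · exact key 0 1 2 hP (by decide)
  · exact key 1 0 2 h1 (by decide)
  · exact key 2 0 1 h2 (by decide)

end Pool.Agent.helper53.OT
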