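import Pool.Agent.helper53.OT.Twin
import Pool.Agent.helper53.OT.CircConn
import Pool.Agent.helper53.OT.Points
import Pool.Agent.helper53.OT.Homeo

/-! # The support functions of an orientable arrangement (MP_90837e_co)

**Proof.** `cont`, `per` are in `Supp.lean`; `cross` and `trip` are the fields of `IsArrangement` (for
`trip` look at the point `((t : Real.Angle), supp (A p) t)`). `conn` and `strict` for `p`, `q`, `r`:
take `P` from `Orientable`, apply `homeo_top` to `![A p, A q, A r]` and the singletons `{P m}` with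
`i = 0` (`supp_singleton`, `points_top_preconnected`, `points_strict`), then `circle_conn`. -/

namespace Pool.Agent.helper53.OT

open Set

theorem triple_top {n : ℕ} (A : Fin n → Set (ℝ × ℝ)) (hA : IsArrangement A)
    (ho : Orientable A) {p q r : Fin n} (hpq : p ≠ q) (hqr : q ≠ r) (hpr : p ≠ r) :
    IsPreconnected ((fun θ : ℝ => (θ : Real.Angle)) ''
      {θ | Top (supp (A p)) (supp (A q)) (supp (A r)) θ}) ∧
    ∃ t, Strict (supp (A p)) (supp (A q)) (supp (A r)) t := by
  obtain ⟨P, hP, hst⟩ := ho.2 p q r hpq hqr hpr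
  have hb : ∀ i : Fin 3, IsBody ((![A p, A q, A r] : Fin 3 → Set (ℝ × ℝ)) i) := by
    intro i
    fin_cases i
    · exact hA.body p
    · exact hA.body q
    · exact hA.body r
  obtain ⟨h1, h2⟩ := homeo_top ![A p, A q, A r] (fun m => {P m}) hb
    (fun i => isBody_singleton (P i)) hst 0
  simp only [supp_singleton] at h1 h2
  constructor
  · have h3 := h1 (points_top_preconnected P hP 0)
    have h4 : {θ | ∀ j : Fin 3, supp ((![A p, A q, A r] : Fin 3 → Set (ℝ × ℝ)) j) θ ≤
        supp ((![A p, A q, A r] : Fin 3 → Set (ℝ × ℝ)) 0) θ} =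
        {θ | Top (supp (A p)) (supp (A q)) (supp (A r)) θ} := by
      ext θ
      simp only [mem_ofPred_eq, Fin.forall_fin_succ, Top]
      simp
    rw [← h4]
    exact h3
  · obtain ⟨θ, hθ⟩ := h2 (points_strict P hP 0)
    refine ⟨θ, ?_, ?_⟩
    · have := hθ 1 (by decide)
      simpa using this
    · have := hθ 2 (by decide)
      simpa using this

theorem good_of_orientable {n : ℕ} (A : Fin n → Set (ℝ × ℝ)) (hA : IsArrangement A)
    (ho : Orientable A) : Good (fun i => supp (A i)) := by
  refine ⟨fun p => (hA.body p).continuous_supp, fun p t => supp_add_two_pi _ _, ?_, ?_,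
    fun p q hpq => hA.cross p q hpq, ?_⟩
  · intro p q r hpq hqr hpr s t hst hts hs ht
    have h1 := (triple_top A hA ho hpq hqr hpr).1
    refine circle_conn {θ | Top (supp (A p)) (supp (A q)) (supp (A r)) θ} ?_ h1 s t hst hts hs ht
    intro t
    simp only [mem_ofPred_eq, Top, supp_add_two_pi]
  · intro p q r hpq hqr hpr
    exact (triple_top A hA ho hpq hqr hpr).2
  · intro p q r t hpq hqr hpr h h'
    refine hA.triple p q r hpq hqr hpr ((t : Real.Angle), supp (A p) t) ⟨t, rfl⟩ ⟨t, ?_⟩ ⟨t, ?_⟩
    · exact Prod.ext rfl h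
    · exact Prod.ext rfl h'.symm

end Pool.Agent.helper53.OT
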