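import Pool.Agent.helper53.OT.Zeros
import Pool.Agent.helper53.OT.Crit

/-! # The number of sign patterns of polynomials (a weak form of Warren's theorem) (MP_90837e_co)

**Proof.** Let `D = 2 * card ι + 2`. If `W = ∅` there is nothing to prove. Choose `R > 0` with
`∑ l, (x l)^2 < R` for all `x ∈ W`. Let `F = (∏ i, f i) * (C R - ∑ l, X l ^ 2)`, of total degree
`≤ 2 card ι + 2 = D`, and `G = ∑ l, X l ^ (D + 1)`. Let `B = {x | ∑ l, (x l)^2 ≤ R}`, a compact set, `K` a
bound of `|eval x G|` on `B` with `K > 0`, and `t > 0` so small that `2 t K < |eval x F|` for all `x ∈ W`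
(each `eval x F ≠ 0`). Let `H = F - C t * G`.
For `w ∈ W` let `U w = {x | ∑ l, (x l)^2 < R ∧ ∀ i, (0 < eval x (f i) ↔ 0 < eval w (f i)) ∧ eval x (f i) ≠ 0}`; it
is open (write it as a finite intersection of conditions `0 < eval x (f i) * eval w (f i)`), it
contains `w`, and its closure is contained in `B`, compact. On `closure (U w) \ U w` the polynomial `F`
vanishes: such a point `y` satisfies `∑ l, (y l)^2 ≤ R` and `0 ≤ eval y (f i) * eval w (f i)` for all
`i`, with at least one equality. `F` has a constant sign on `U w`, say it has the sign of `e = ± 1`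
where `e * eval w F > 0`. Let `z w` be a point of `closure (U w)` where `e * eval x H` is maximal
(`IsCompact.exists_isMaxOn`). `e * eval w H ≥ |eval w F| - t K > t K`, and at a point `y` of
`closure (U w) \ U w` we have `e * eval y H = - e t eval y G ≤ t K`. So `z w ∈ U w`, which is open, and
`z w` is a local maximum of `e * H`, a local extremum of `H`. By `pderiv_eq_zero` all partial derivatives
of `H` vanish at `z w`: `eval z (pderiv l F) = t (D+1) (z l)^D`. So `Z = W.image z` satisfies the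
hypothesis of `card_zeros_le` with `P l = C (1 / (t (D+1))) * pderiv l F`, of total degree `≤ D - 1 < D`
(`totalDegree_pderiv_le`). Finally `z` is injective on `W`: if `z w = z w'` then
`0 < eval w (f i) ↔ 0 < eval (z w) (f i) ↔ 0 < eval w' (f i)` for all `i`, so `w = w'` by `hinj`. -/

namespace Pool.Agent.helper53.OT

open MvPolynomial

private theorem warren_cont {σ : Type} (p : MvPolynomial σ ℝ) :
    Continuous (fun x : σ → ℝ => eval x p) := MvPolynomial.continuous_eval p

/-- the bounding ball is compact -/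
private theorem warren_compact {σ : Type} [Fintype σ] (R : ℝ) :
    IsCompact {x : σ → ℝ | ∑ l, (x l) ^ 2 ≤ R} := by
  refine Metric.isCompact_of_isClosed_isBounded ?_ ?_
  · exact isClosed_le (by fun_prop) continuous_const
  · refine (Metric.isBounded_closedBall (x := (0 : σ → ℝ)) (r := Real.sqrt R)).subset ?_
    intro x hx
    rw [mem_closedBall_zero_iff, pi_norm_le_iff_of_nonneg (Real.sqrt_nonneg R)]
    intro l
    rw [Real.norm_eq_abs]
    refine Real.abs_le_sqrt (le_trans ?_ hx)
    exact Finset.single_le_sum (f := fun l => (x l) ^ 2) (fun j _ => sq_nonneg _)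
      (Finset.mem_univ l)

private theorem warren_degree {ι σ : Type} [Fintype ι] [Fintype σ] (f : ι → MvPolynomial σ ℝ)
    (hf : ∀ i, (f i).totalDegree ≤ 2) (R : ℝ) :
    ((∏ i, f i) * (C R - ∑ l, X l ^ 2)).totalDegree ≤ (2 * Fintype.card ι + 1) + 1 := by
  refine (totalDegree_mul _ _).trans ?_
  have h1 : (∏ i, f i).totalDegree ≤ 2 * Fintype.card ι := by
    refine (totalDegree_finsetProd _ _).trans ?_
    refine (Finset.sum_le_sum fun i _ => hf i).trans (le_of_eq ?_)
    rw [Finset.sum_const, Finset.card_univ, smul_eq_mul, mul_comm]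
  have h2 : (C R - ∑ l, X l ^ 2 : MvPolynomial σ ℝ).totalDegree ≤ 2 := by
    refine (totalDegree_sub _ _).trans ?_
    rw [totalDegree_C, max_eq_right (Nat.zero_le _)]
    refine totalDegree_finsetSum_le fun l _ => ?_
    refine (totalDegree_pow _ _).trans ?_
    rw [totalDegree_X]
  omega

private theorem warren_pderiv {σ : Type} [Fintype σ] [DecidableEq σ] (F : MvPolynomial σ ℝ)
    (D : ℕ) (t : ℝ) (l : σ) (z : σ → ℝ) :
    eval z (pderiv l (F - C t * ∑ j, X j ^ (D + 1))) =
      eval z (pderiv l F) - t * (((D : ℝ) + 1) * (z l) ^ D) := by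
  rw [map_sub, pderiv_C_mul, map_sum, map_sub]
  congr 1
  rw [map_mul, eval_C, map_sum]
  congr 1
  rw [Finset.sum_eq_single l]
  · rw [Derivation.leibniz_pow, pderiv_X_self]
    simp
  · intro j _ hj
    rw [Derivation.leibniz_pow, pderiv_X_of_ne hj]
    simp
  · intro h
    exact absurd (Finset.mem_univ l) h

/-- one critical point in the region of `w` -/
private theorem warren_point {ι σ : Type} [Fintype ι] [Fintype σ] (f : ι → MvPolynomial σ ℝ)
    {R K t : ℝ} (ht : 0 < t) (G : MvPolynomial σ ℝ)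
    (hK : ∀ x : σ → ℝ, ∑ l, (x l) ^ 2 ≤ R → |eval x G| ≤ K) (w : σ → ℝ)
    (hw : ∑ l, (w l) ^ 2 < R) (hwf : ∀ i, eval w (f i) ≠ 0)
    (hF : 2 * t * K < |eval w ((∏ i, f i) * (C R - ∑ l, X l ^ 2))|) :
    ∃ z : σ → ℝ, (∀ i, 0 < eval z (f i) * eval w (f i)) ∧
      (IsLocalMax (fun x => eval x ((∏ i, f i) * (C R - ∑ l, X l ^ 2) - C t * G)) z ∨
        IsLocalMin (fun x => eval x ((∏ i, f i) * (C R - ∑ l, X l ^ 2) - C t * G)) z) := by
  set F : MvPolynomial σ ℝ := (∏ i, f i) * (C R - ∑ l, X l ^ 2) with hFdef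
  set U : Set (σ → ℝ) := {x | ∑ l, (x l) ^ 2 < R ∧ ∀ i, 0 < eval x (f i) * eval w (f i)} with hU
  set V : Set (σ → ℝ) := {x | ∑ l, (x l) ^ 2 ≤ R ∧ ∀ i, 0 ≤ eval x (f i) * eval w (f i)} with hV
  have hUo : IsOpen U := by
    have h1 : IsOpen {x : σ → ℝ | ∑ l, (x l) ^ 2 < R} :=
      isOpen_lt (by fun_prop) continuous_const
    have h2 : ∀ i, IsOpen {x : σ → ℝ | 0 < eval x (f i) * eval w (f i)} := fun i =>
      isOpen_lt continuous_const ((warren_cont (f i)).mul continuous_const)
    have h3 : U = {x : σ → ℝ | ∑ l, (x l) ^ 2 < R} ∩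
        ⋂ i, {x : σ → ℝ | 0 < eval x (f i) * eval w (f i)} := by
      ext x
      simp [hU]
    rw [h3]
    exact h1.inter (isOpen_iInter_of_finite h2)
  have hVc : IsCompact V := by
    have h2 : ∀ i, IsClosed {x : σ → ℝ | 0 ≤ eval x (f i) * eval w (f i)} := fun i =>
      isClosed_le continuous_const ((warren_cont (f i)).mul continuous_const)
    have h3 : V = {x : σ → ℝ | ∑ l, (x l) ^ 2 ≤ R} ∩
        ⋂ i, {x : σ → ℝ | 0 ≤ eval x (f i) * eval w (f i)} := by
      ext x
      simp [hV]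
    rw [h3]
    exact (warren_compact R).inter_right (isClosed_iInter h2)
  have hUV : U ⊆ V := fun x hx => ⟨hx.1.le, fun i => (hx.2 i).le⟩
  have hwU : w ∈ U := ⟨hw, fun i => mul_self_pos.2 (hwf i)⟩
  have hFz : ∀ x ∈ V, x ∉ U → eval x F = 0 := by
    intro x hx hxU
    rw [hFdef, map_mul, map_prod, map_sub, eval_C, map_sum]
    simp only [map_pow, eval_X]
    by_cases h1 : ∑ l, (x l) ^ 2 < R
    · have h2 : ¬ ∀ i, 0 < eval x (f i) * eval w (f i) := fun h => hxU ⟨h1, h⟩
      rw [not_forall] at h2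
      obtain ⟨i, hi⟩ := h2
      have h3 : eval x (f i) * eval w (f i) = 0 := le_antisymm (not_lt.1 hi) (hx.2 i)
      have h4 : eval x (f i) = 0 := (mul_eq_zero.1 h3).resolve_right (hwf i)
      rw [Finset.prod_eq_zero (Finset.mem_univ i) h4, zero_mul]
    · have h2 : ∑ l, (x l) ^ 2 = R := le_antisymm hx.1 (not_lt.1 h1)
      rw [h2, sub_self, mul_zero]
  have hcontH : Continuous (fun x : σ → ℝ => eval x (F - C t * G)) := warren_cont _
  have hHeq : ∀ x : σ → ℝ, eval x (F - C t * G) = eval x F - t * eval x G := by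
    intro x
    rw [map_sub (eval x) F (C t * G), map_mul (eval x) (C t) G, eval_C]
  have hGw := abs_le.1 (hK w hw.le)
  rcases lt_or_ge 0 (eval w F) with hpos | hneg
  · obtain ⟨z, hzV, hz⟩ := hVc.exists_isMaxOn ⟨w, hUV hwU⟩ hcontH.continuousOn
    rw [abs_of_pos hpos] at hF
    have hzw : eval w (F - C t * G) ≤ eval z (F - C t * G) := hz (hUV hwU)
    have hzU : z ∈ U := by
      by_contra h
      have h1 := hFz z hzV h
      have h2 := abs_le.1 (hK z hzV.1)
      rw [hHeq, hHeq, h1] at hzw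
      nlinarith
    refine ⟨z, hzU.2, Or.inl ?_⟩
    exact hz.isLocalMax (Filter.mem_of_superset (hUo.mem_nhds hzU) hUV)
  · obtain ⟨z, hzV, hz⟩ := hVc.exists_isMinOn ⟨w, hUV hwU⟩ hcontH.continuousOn
    rw [abs_of_nonpos hneg] at hF
    have hzw : eval z (F - C t * G) ≤ eval w (F - C t * G) := hz (hUV hwU)
    have hzU : z ∈ U := by
      by_contra h
      have h1 := hFz z hzV h
      have h2 := abs_le.1 (hK z hzV.1)
      rw [hHeq, hHeq, h1] at hzw
      nlinarith
    refine ⟨z, hzU.2, Or.inr ?_⟩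
    exact hz.isLocalMin (Filter.mem_of_superset (hUo.mem_nhds hzU) hUV)

theorem warren {ι σ : Type} [Fintype ι] [Fintype σ] (f : ι → MvPolynomial σ ℝ)
    (hf : ∀ i, (f i).totalDegree ≤ 2) (W : Finset (σ → ℝ)) (hW : ∀ x ∈ W, ∀ i, eval x (f i) ≠ 0)
    (hinj : ∀ x ∈ W, ∀ y ∈ W, (∀ i, 0 < eval x (f i) ↔ 0 < eval y (f i)) → x = y) :
    W.card ≤ (2 * Fintype.card ι + 2) ^ Fintype.card σ := by
  classical
  rcases W.eq_empty_or_nonempty with rfl | hne
  · simp
  set D : ℕ := 2 * Fintype.card ι + 2 with hD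
  -- the radius
  set R : ℝ := 1 + ∑ x ∈ W, ∑ l, (x l) ^ 2 with hRdef
  have hsq : ∀ x : σ → ℝ, 0 ≤ ∑ l, (x l) ^ 2 := fun x =>
    Finset.sum_nonneg fun l _ => sq_nonneg _
  have hR : ∀ x ∈ W, ∑ l, (x l) ^ 2 < R := by
    intro x hx
    have := Finset.single_le_sum (f := fun x : σ → ℝ => ∑ l, (x l) ^ 2)
      (fun y _ => hsq y) hx
    rw [hRdef]
    linarith
  set F : MvPolynomial σ ℝ := (∏ i, f i) * (C R - ∑ l, X l ^ 2) with hFdef
  set G : MvPolynomial σ ℝ := ∑ l, X l ^ (D + 1) with hGdef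
  obtain ⟨K0, hK0⟩ := (warren_compact (σ := σ) R).exists_bound_of_continuousOn
    (warren_cont G).continuousOn
  set K : ℝ := max K0 1 with hKdef
  have hK : ∀ x : σ → ℝ, ∑ l, (x l) ^ 2 ≤ R → |eval x G| ≤ K := fun x hx =>
    (hK0 x hx).trans (le_max_left _ _)
  have hK1 : 1 ≤ K := le_max_right _ _
  have hFne : ∀ x ∈ W, eval x F ≠ 0 := by
    intro x hx
    rw [hFdef, map_mul, map_prod, map_sub, eval_C, map_sum]
    simp only [map_pow, eval_X]
    refine mul_ne_zero (Finset.prod_ne_zero_iff.2 fun i _ => hW x hx i) ?_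
    have := hR x hx
    intro h
    linarith
  obtain ⟨x0, hx0, hmin⟩ := Finset.exists_min_image W (fun x => |eval x F|) hne
  set δ : ℝ := |eval x0 F| with hδ
  have hδ0 : 0 < δ := abs_pos.2 (hFne x0 hx0)
  set t : ℝ := δ / (4 * K) with htdef
  have hKpos : 0 < K := by linarith
  have ht : 0 < t := div_pos hδ0 (by linarith)
  have htK : 2 * t * K = δ / 2 := by
    rw [htdef]
    field_simp
    ring
  have key : ∀ w ∈ W, ∃ z : σ → ℝ, (∀ i, 0 < eval z (f i) * eval w (f i)) ∧
      (IsLocalMax (fun x => eval x (F - C t * G)) z ∨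
        IsLocalMin (fun x => eval x (F - C t * G)) z) := by
    intro w hw
    refine warren_point f ht G hK w (hR w hw) (hW w hw) ?_
    have h1 : δ ≤ |eval w F| := hmin w hw
    have h2 : 2 * t * K < |eval w F| := by
      rw [htK]
      linarith
    exact h2
  choose! z hz1 hz2 using key
  have hzinj : Set.InjOn z (W : Set (σ → ℝ)) := by
    intro w hw w' hw' h
    refine hinj w hw w' hw' fun i => ?_
    have h1 := hz1 w hw i
    have h2 := hz1 w' hw' i
    rw [h] at h1
    constructor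
    · intro h3
      have h4 : 0 < eval (z w') (f i) := pos_of_mul_pos_left h1 h3.le
      exact (pos_iff_pos_of_mul_pos h2).1 h4
    · intro h3
      have h4 : 0 < eval (z w') (f i) := pos_of_mul_pos_left h2 h3.le
      exact (pos_iff_pos_of_mul_pos h1).1 h4
  rw [← Finset.card_image_of_injOn hzinj]
  have hc : t * ((D : ℝ) + 1) ≠ 0 := by positivity
  refine card_zeros_le D (fun l => C (1 / (t * ((D : ℝ) + 1))) * pderiv l F) ?_ _ ?_
  · intro l
    have h1 := totalDegree_pderiv_le F l (warren_degree f hf R)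
    refine lt_of_le_of_lt (totalDegree_mul _ _) ?_
    rw [totalDegree_C]
    omega
  · intro y hy l
    obtain ⟨w, hw, rfl⟩ := Finset.mem_image.1 hy
    have h1 := pderiv_eq_zero (F - C t * G) (z w) (hz2 w hw) l
    rw [hGdef, warren_pderiv F D t l (z w)] at h1
    rw [map_mul, eval_C]
    have h2 : eval (z w) (pderiv l F) = (t * ((D : ℝ) + 1)) * (z w l) ^ D := by linarith
    rw [h2]
    field_simp

end Pool.Agent.helper53.OT
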