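import Pool.Agent.helper53.OT.Sep
import Pool.Agent.helper53.OT.Triple
import Pool.Agent.helper53.OT.Generic
import Pool.Agent.helper53.OT.Simple
import Pool.Agent.helper53.OT.Warren

/-! # Assembly (MP_90837e_co) -/

namespace Pool.Agent.helper53.OT

open Set MvPolynomial

/-- The twins of `i`. -/
def el {n : ℕ} (i : Fin n) (b : Bool) : Fin (2 * n) :=
  ⟨2 * i + b.toNat, by have := i.2; cases b <;> simp <;> omega⟩

theorem el_ne {n : ℕ} {i j : Fin n} (h : i ≠ j) (a b : Bool) : el i a ≠ el j b := by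
  intro he
  apply h
  have := congrArg Fin.val he
  simp only [el] at this
  ext
  cases a <;> cases b <;> simp at this <;> omega

theorem el_ne' {n : ℕ} (i : Fin n) : el i false ≠ el i true := by
  intro he
  have := congrArg Fin.val he
  simp [el] at this

theorem exists_segments (n : ℕ) (S : ℕ → ℕ → ℕ → Bool) (A : Fin (2 * n) → Set (ℝ × ℝ))
    (hA : IsArrangement A) (ho : Orientable A)
    (hr : Realizes (fun x y z : Fin (2 * n) => chi (twin S) x y z) A)
    (hd : ∀ i j, i ≠ j → Disjoint (A i) (A j)) :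
    ∃ e : Fin n → Bool → ℝ × ℝ, ∀ i j k : Fin n, i ≠ j → j ≠ k → i ≠ k → chi S i j k = 1 →
      Ccw (hs (e i)) (hs (e j)) (hs (e k)) := by
  have hG := good_of_orientable A hA ho
  have h1 : ∀ i : Fin n, ∃ a b : ℝ × ℝ, ∀ θ,
      min (supp (A (el i false)) θ) (supp (A (el i true)) θ) ≤ seg a b θ ∧
      seg a b θ ≤ max (supp (A (el i false)) θ) (supp (A (el i true)) θ) := fun i =>
    twin_segment (hA.body _) (hA.body _) (hd _ _ (el_ne' i))
  choose a b hab using h1
  refine ⟨fun i t => if t then b i else a i, ?_⟩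
  intro i j k hij hjk hik hS
  refine twin_ccw (fun p => supp (A p)) hG (el i) (el j) (el k) (el_ne' i) (el_ne' j) (el_ne' k)
    (el_ne hij) (el_ne hjk) (el_ne hik.symm) ?_ _ _ _ (hab i) (hab j) (hab k)
  intro α β γ
  have h2 := (hr (el i α) (el j β) (el k γ) (el_ne hij α β) (el_ne hjk β γ) (el_ne hik α γ)).1
  apply h2
  have h3 := chi_twin S i j k α.toNat β.toNat γ.toNat (fun h => hij (Fin.ext h))
    (fun h => hjk (Fin.ext h)) (fun h => hik (Fin.ext h)) (Bool.toNat_lt α) (Bool.toNat_lt β)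
    (Bool.toNat_lt γ)
  simp only [el]
  rw [h3, hS]

theorem exists_general (n : ℕ) (S : ℕ → ℕ → ℕ → Bool) (A : Fin (2 * n) → Set (ℝ × ℝ))
    (hA : IsArrangement A) (ho : Orientable A)
    (hr : Realizes (fun x y z : Fin (2 * n) => chi (twin S) x y z) A)
    (hd : ∀ i j, i ≠ j → Disjoint (A i) (A j)) :
    ∃ e : Fin n → Bool → ℝ × ℝ, (∀ i j k : Fin n, i ≠ j → j ≠ k → i ≠ k → chi S i j k = 1 →
      Ccw (hs (e i)) (hs (e j)) (hs (e k))) ∧
      ∀ x y z : Fin n × Bool, x ≠ y → y ≠ z → x ≠ z →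
        orient (e x.1 x.2) (e y.1 y.2) (e z.1 z.2) ≠ 0 := by
  obtain ⟨e, he⟩ := exists_segments n S A hA ho hr hd
  obtain ⟨e', h1, h2⟩ := exists_generic_segments e
    (fun i j k => i ≠ j ∧ j ≠ k ∧ i ≠ k ∧ chi S i j k = 1)
    (fun i j k h => he i j k h.1 h.2.1 h.2.2.1 h.2.2.2)
  exact ⟨e', fun i j k a b c d => h1 i j k ⟨a, b, c, d⟩, h2⟩

theorem hs_per (x : Bool → ℝ × ℝ) : Per (hs x) := fun t => seg_add_two_pi _ _ t

theorem edge_transfer {n : ℕ} {e e' : Fin n → Bool → ℝ × ℝ}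
    (hsame : ∀ x y z : Fin n × Bool, x ≠ y → y ≠ z → x ≠ z →
      (0 < orient (e x.1 x.2) (e y.1 y.2) (e z.1 z.2) ↔
        0 < orient (e' x.1 x.2) (e' y.1 y.2) (e' z.1 z.2)))
    {i j k : Fin n} (hij : i ≠ j) (hjk : j ≠ k) (hik : i ≠ k)
    (h : Edge (e i) (e j) (e k)) : Edge (e' i) (e' j) (e' k) := by
  obtain ⟨p, q, h1, h2, h3⟩ := h
  refine ⟨p, q, ?_, ?_, ?_⟩
  · refine (hsame (i, p) (j, q) (i, !p) ?_ ?_ ?_).1 h1
    · simp [hij]
    · simp [hij.symm]
    · simp
  · refine (hsame (i, p) (j, q) (j, !q) ?_ ?_ ?_).1 h2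
    · simp [hij]
    · simp
    · simp [hij]
  · intro r
    refine (hsame (i, p) (j, q) (k, r) ?_ ?_ ?_).1 (h3 r)
    · simp [hij]
    · simp [hjk]
    · simp [hik]

theorem edge_generic {n : ℕ} {e : Fin n → Bool → ℝ × ℝ}
    (hg : ∀ x y z : Fin n × Bool, x ≠ y → y ≠ z → x ≠ z →
        orient (e x.1 x.2) (e y.1 y.2) (e z.1 z.2) ≠ 0)
    {i j k : Fin n} (hij : i ≠ j) (hjk : j ≠ k) (hik : i ≠ k)
    (h : Ccw (hs (e i)) (hs (e j)) (hs (e k))) : Edge (e i) (e j) (e k) := by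
  apply edge_of_ccw _ _ _ _ h
  intro p q
  refine ⟨?_, ?_, ?_⟩
  · refine hg (i, p) (j, q) (i, !p) ?_ ?_ ?_
    · simp [hij]
    · simp [hij.symm]
    · simp
  · refine hg (i, p) (j, q) (j, !q) ?_ ?_ ?_
    · simp [hij]
    · simp
    · simp [hij]
  · intro r
    refine hg (i, p) (j, q) (k, r) ?_ ?_ ?_
    · simp [hij]
    · simp [hjk]
    · simp [hik]

theorem sign_aux {n : ℕ} {S S' : ℕ → ℕ → ℕ → Bool} {e e' : Fin n → Bool → ℝ × ℝ}
    (hS : ∀ i j k : Fin n, i ≠ j → j ≠ k → i ≠ k → chi S i j k = 1 →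
      Ccw (hs (e i)) (hs (e j)) (hs (e k)))
    (hS' : ∀ i j k : Fin n, i ≠ j → j ≠ k → i ≠ k → chi S' i j k = 1 →
      Ccw (hs (e' i)) (hs (e' j)) (hs (e' k)))
    (hg : ∀ x y z : Fin n × Bool, x ≠ y → y ≠ z → x ≠ z →
        orient (e x.1 x.2) (e y.1 y.2) (e z.1 z.2) ≠ 0)
    (hsame : ∀ x y z : Fin n × Bool, x ≠ y → y ≠ z → x ≠ z →
      (0 < orient (e x.1 x.2) (e y.1 y.2) (e z.1 z.2) ↔
        0 < orient (e' x.1 x.2) (e' y.1 y.2) (e' z.1 z.2)))
    {i j k : Fin n} (hij : i < j) (hjk : j < k) (h1 : S i j k = true) (h2 : S' i j k = false) :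
    False := by
  have nij : i ≠ j := hij.ne
  have njk : j ≠ k := hjk.ne
  have nik : i ≠ k := (hij.trans hjk).ne
  have hij' : (i : ℕ) < j := hij
  have hjk' : (j : ℕ) < k := hjk
  have c1 : chi S i j k = 1 := by
    unfold chi
    rw [if_pos ⟨hij', hjk'⟩, h1]
    rfl
  have c2 : chi S' i k j = 1 := by
    unfold chi
    rw [if_neg (by omega), if_neg (by omega), if_neg (by omega), if_pos ⟨hij', hjk'⟩, h2]
    rfl
  have d1 := hS i j k nij njk nik c1
  have d2 := Ccw.rot (hs_per _) (hs_per _) (hs_per _) d1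
  have d3 := Ccw.rot (hs_per _) (hs_per _) (hs_per _) d2
  have e1 := edge_transfer hsame njk nik.symm nij.symm (edge_generic hg njk nik.symm nij.symm d2)
  have e2 := edge_transfer hsame nik.symm nij njk.symm (edge_generic hg nik.symm nij njk.symm d3)
  exact not_edges _ _ _ (hS' i k j nik njk.symm nij c2) ⟨e2, e1⟩

theorem sign_determines {n : ℕ} {S S' : ℕ → ℕ → ℕ → Bool} {e e' : Fin n → Bool → ℝ × ℝ}
    (hS : ∀ i j k : Fin n, i ≠ j → j ≠ k → i ≠ k → chi S i j k = 1 →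
      Ccw (hs (e i)) (hs (e j)) (hs (e k)))
    (hS' : ∀ i j k : Fin n, i ≠ j → j ≠ k → i ≠ k → chi S' i j k = 1 →
      Ccw (hs (e' i)) (hs (e' j)) (hs (e' k)))
    (hg : ∀ x y z : Fin n × Bool, x ≠ y → y ≠ z → x ≠ z →
        orient (e x.1 x.2) (e y.1 y.2) (e z.1 z.2) ≠ 0)
    (hg' : ∀ x y z : Fin n × Bool, x ≠ y → y ≠ z → x ≠ z →
        orient (e' x.1 x.2) (e' y.1 y.2) (e' z.1 z.2) ≠ 0)
    (hsame : ∀ x y z : Fin n × Bool, x ≠ y → y ≠ z → x ≠ z →
      (0 < orient (e x.1 x.2) (e y.1 y.2) (e z.1 z.2) ↔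
        0 < orient (e' x.1 x.2) (e' y.1 y.2) (e' z.1 z.2)))
    {i j k : Fin n} (hij : i < j) (hjk : j < k) : S i j k = S' i j k := by
  by_contra hne
  cases h1 : S i j k <;> cases h2 : S' i j k
  · rw [h1, h2] at hne; exact hne rfl
  · exact sign_aux hS' hS hg' (fun x y z a b c => (hsame x y z a b c).symm) hij hjk h2 h1
  · exact sign_aux hS hS' hg hsame hij hjk h1 h2
  · rw [h1, h2] at hne; exact hne rfl

/-- The orientation of three points as a polynomial in the coordinates. -/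
noncomputable def opoly {κ : Type} (x y z : κ) : MvPolynomial (κ × Bool) ℝ :=
  (X (y, false) - X (x, false)) * (X (z, true) - X (x, true)) -
    (X (y, true) - X (x, true)) * (X (z, false) - X (x, false))

theorem eval_opoly {κ : Type} (x y z : κ) (v : κ × Bool → ℝ) :
    eval v (opoly x y z) = orient (v (x, false), v (x, true)) (v (y, false), v (y, true))
      (v (z, false), v (z, true)) := by
  simp [opoly, orient]

theorem totalDegree_opoly {κ : Type} (x y z : κ) : (opoly x y z).totalDegree ≤ 2 := by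
  have h1 : ∀ a b : κ × Bool, (X a - X b : MvPolynomial (κ × Bool) ℝ).totalDegree ≤ 1 := by
    intro a b
    refine (totalDegree_sub _ _).trans ?_
    simp
  unfold opoly
  refine (totalDegree_sub _ _).trans (max_le ?_ ?_)
  · refine (totalDegree_mul _ _).trans ?_
    have := h1 (y, false) (x, false)
    have := h1 (z, true) (x, true)
    omega
  · refine (totalDegree_mul _ _).trans ?_
    have := h1 (y, true) (x, true)
    have := h1 (z, false) (x, false)
    omega

/-- The extension by `false` of a matrix of signs. -/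
def ext {m : ℕ} (ω : Fin m → Fin m → Bool) (a c : ℕ) : Bool :=
  if h : a < m ∧ c < m then ω ⟨a, h.1⟩ ⟨c, h.2⟩ else false

/-- If all twin types of the family are realizable by pairwise disjoint bodies, then
`2 ^ (m * m)` is small. -/
theorem count (m : ℕ)
    (H : ∀ ω : Fin m → Fin m → Bool, ∃ e : Fin (4 * m) → Bool → ℝ × ℝ,
      (∀ i j k : Fin (4 * m), i ≠ j → j ≠ k → i ≠ k → chi (base m (ext ω)) i j k = 1 →
        Ccw (hs (e i)) (hs (e j)) (hs (e k))) ∧
      ∀ x y z : Fin (4 * m) × Bool, x ≠ y → y ≠ z → x ≠ z →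
        orient (e x.1 x.2) (e y.1 y.2) (e z.1 z.2) ≠ 0) :
    2 ^ (m * m) ≤ (2 * (8 * m) ^ 3 + 2) ^ (16 * m) := by
  classical
  choose e he hg using H
  let κ := Fin (4 * m) × Bool
  let vec : (Fin m → Fin m → Bool) → (κ × Bool → ℝ) := fun ω u =>
    if u.2 then (e ω u.1.1 u.1.2).2 else (e ω u.1.1 u.1.2).1
  let f : κ × κ × κ → MvPolynomial (κ × Bool) ℝ := fun t =>
    if t.1 ≠ t.2.1 ∧ t.2.1 ≠ t.2.2 ∧ t.1 ≠ t.2.2 then opoly t.1 t.2.1 t.2.2 else 1
  have hev : ∀ ω (x y z : κ), eval (vec ω) (opoly x y z) =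
      orient (e ω x.1 x.2) (e ω y.1 y.2) (e ω z.1 z.2) := by
    intro ω x y z
    rw [eval_opoly]
    simp [vec]
  have key : ∀ ω ω' : Fin m → Fin m → Bool, (∀ t, 0 < eval (vec ω) (f t) ↔
      0 < eval (vec ω') (f t)) → ω = ω' := by
    intro ω ω' h
    have hsame : ∀ x y z : κ, x ≠ y → y ≠ z → x ≠ z →
      (0 < orient (e ω x.1 x.2) (e ω y.1 y.2) (e ω z.1 z.2) ↔
        0 < orient (e ω' x.1 x.2) (e ω' y.1 y.2) (e ω' z.1 z.2)) := by
      intro x y z hxy hyz hxz
      have := h (x, y, z)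
      simp only [f] at this
      rw [if_pos ⟨hxy, hyz, hxz⟩, hev, hev] at this
      exact this
    funext a c
    have ha := a.2
    have hc := c.2
    have h3 := sign_determines (he ω) (he ω') (hg ω) (hg ω') hsame
      (i := ⟨a, by omega⟩) (j := ⟨m + (a + c), by omega⟩) (k := ⟨3 * m + c, by omega⟩)
      (by simp only [Fin.lt_def]; omega) (by simp only [Fin.lt_def]; omega)
    simp only [base_read m _ a c ha hc] at h3
    simpa [ext, ha, hc] using h3
  have hinj : Function.Injective vec := by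
    intro ω ω' h
    apply key
    intro t
    rw [h]
  have hw := warren f ?_ (Finset.univ.image vec) ?_ ?_
  · rw [Finset.card_image_of_injective _ hinj] at hw
    simp only [Finset.card_univ, Fintype.card_pi, Fintype.card_bool, Finset.prod_const,
      Fintype.card_fin, Fintype.card_prod, κ] at hw
    rw [← pow_mul] at hw
    refine hw.trans (le_of_eq ?_)
    congr 1
    · ring
    · ring
  · intro t
    simp only [f]
    split_ifs
    · exact totalDegree_opoly _ _ _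
    · simp
  · intro x hx t
    obtain ⟨ω, -, rfl⟩ := Finset.mem_image.1 hx
    simp only [f]
    split_ifs with ht
    · rw [hev]
      exact hg ω _ _ _ ht.1 ht.2.1 ht.2.2
    · simp
  · intro x hx y hy h
    obtain ⟨ω, -, rfl⟩ := Finset.mem_image.1 hx
    obtain ⟨ω', -, rfl⟩ := Finset.mem_image.1 hy
    rw [key ω ω' h]

theorem numeric : ¬ (2 ^ (1024 * 1024) ≤ (2 * (8 * 1024) ^ 3 + 2) ^ (16 * 1024)) := by
  intro h
  have h1 : (2 * (8 * 1024) ^ 3 + 2 : ℕ) ≤ 2 ^ 41 := by norm_num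
  have h2 : (2 * (8 * 1024) ^ 3 + 2 : ℕ) ^ (16 * 1024) ≤ (2 ^ 41) ^ (16 * 1024) :=
    Nat.pow_le_pow_left h1 _
  rw [← pow_mul] at h2
  have h3 := (Nat.pow_le_pow_iff_right (a := 2) (by norm_num)).1 (h.trans h2)
  norm_num at h3

theorem main : ∃ (n : ℕ) (χ : Fin n → Fin n → Fin n → ℤ), 3 ≤ n ∧ SimpleOrderType χ ∧
    ∀ A : Fin n → Set (ℝ × ℝ), IsArrangement A → Orientable A → Realizes χ A →
      ∃ i j, i ≠ j ∧ (A i ∩ A j).Nonempty := by
  by_contra hcon
  push Not at hcon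
  apply numeric
  refine count 1024 ?_
  intro ω
  obtain ⟨A, hA, ho, hr, hd⟩ := hcon (2 * (4 * 1024))
    (fun x y z => chi (twin (base 1024 (ext ω))) x y z) (by norm_num)
    (simple_of_signotope _ _ (twin_signotope _ _ (base_signotope 1024 (ext ω))))
  refine exists_general (4 * 1024) (base 1024 (ext ω)) A hA ho hr ?_
  intro i j hij
  rw [Set.disjoint_iff_inter_eq_empty]
  exact hd i j hij

end Pool.Agent.helper53.OT
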