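import Pool.Agent.helper53.OT.Supp

/-! # The twin lemma: the segment on a separating line (MP_90837e_co)

Two disjoint bodies `A`, `B` can be strictly separated by a line `L`; the segment
`[a, b] = conv (A ∪ B) ∩ L` satisfies `min h_A h_B ≤ h_[a,b] ≤ max h_A h_B`.

**Proof.** `A`, `B` compact, convex, disjoint: by `geometric_hahn_banach_compact_closed` (or
`geometric_hahn_banach_compact_compact` if it exists; otherwise compact/closed) there are a
continuous linear functional `ℓ` and reals `u < v` with `ℓ x < u` on `A` and `v < ℓ y` on `B`.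
Write `ℓ x = x.1 * n₁ + x.2 * n₂` (`n₁ = ℓ (1,0)`, `n₂ = ℓ (0,1)`), let `c = (u+v)/2`.
`(n₁, n₂) ≠ 0` since `ℓ` is not constant.
Let `K = convexHull ℝ (A ∪ B) ∩ {x | ℓ x = c}`. `convexHull ℝ (A ∪ B)` is compact: it is the image
of the compact set `A ×ˢ B ×ˢ Icc 0 1` under `(p, q, t) ↦ (1-t) p + t q`
(`Convex.convexHull_union`/`convexJoin`), or use `(hA.compact.union hB.compact).convexHull` if it
exists in the finite dimensional case. It is easier to take directly the set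
`K = {x | ∃ p ∈ A, ∃ q ∈ B, ∃ t ∈ Icc (0:ℝ) 1, x = (1-t) • p + t • q ∧ ℓ x = c}`, the image of a
compact set intersected with a closed set: it is compact, and nonempty (`A`, `B` are nonempty; the
continuous function `t ↦ ℓ ((1-t) p + t q)` is `< c` at `0` and `> c` at `1`).
Let `m x = - n₂ * x.1 + n₁ * x.2` and let `a` minimise and `b` maximise `m` on `K`.

*Upper bound.* `a = (1-t) p + t q` with `p ∈ A`, `q ∈ B`, so
`dot a θ = (1-t) dot p θ + t dot q θ ≤ max (supp A θ) (supp B θ)`; the same for `b`.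

*Lower bound.* Given `θ` let `p ∈ A`, `q ∈ B` be maximisers (`exists_supp`), choose `t ∈ [0,1]` with
`ℓ ((1-t) p + t q) = c` (intermediate values, or explicitly `t = (c - ℓ p) / (ℓ q - ℓ p)`), let
`r = (1-t) p + t q ∈ K`. Then `dot r θ = (1-t) supp A θ + t supp B θ ≥ min (supp A θ) (supp B θ)`.
And `m a ≤ m r ≤ m b` and `ℓ a = ℓ r = ℓ b = c`. Since `(n₁² + n₂²) * dot x θ =
ℓ x * (n₁ cos θ + n₂ sin θ) + m x * (n₁ sin θ - n₂ cos θ)` for all `x`, the number `dot r θ` lies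
between `dot a θ` and `dot b θ`, so `dot r θ ≤ max (dot a θ) (dot b θ)`. -/

namespace Pool.Agent.helper53.OT

open Set

theorem twin_segment {A B : Set (ℝ × ℝ)} (hA : IsBody A) (hB : IsBody B) (hd : Disjoint A B) :
    ∃ a b : ℝ × ℝ, ∀ θ, min (supp A θ) (supp B θ) ≤ seg a b θ ∧
      seg a b θ ≤ max (supp A θ) (supp B θ) := by
  obtain ⟨ℓ, u, v, hAu, huv, hBv⟩ :=
    geometric_hahn_banach_compact_closed hA.convex hA.compact hB.convex hB.compact.isClosed hd
  obtain ⟨n1, hn1⟩ : ∃ n1, n1 = ℓ (1, 0) := ⟨_, rfl⟩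
  obtain ⟨n2, hn2⟩ : ∃ n2, n2 = ℓ (0, 1) := ⟨_, rfl⟩
  have hℓ : ∀ x : ℝ × ℝ, ℓ x = x.1 * n1 + x.2 * n2 := by
    intro x
    have h1 : x = x.1 • ((1 : ℝ), (0 : ℝ)) + x.2 • ((0 : ℝ), (1 : ℝ)) := by
      ext <;> simp
    conv_lhs => rw [h1]
    rw [map_add, map_smul, map_smul, ← hn1, ← hn2, smul_eq_mul, smul_eq_mul]
  obtain ⟨c, hc⟩ : ∃ c, c = (u + v) / 2 := ⟨_, rfl⟩
  have huc : u < c := by rw [hc]; linarith
  have hcv : c < v := by rw [hc]; linarith
  obtain ⟨K, hK⟩ : ∃ K : Set (ℝ × ℝ), K = (fun z : (ℝ × ℝ) × (ℝ × ℝ) × ℝ =>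
      (1 - z.2.2) • z.1 + z.2.2 • z.2.1) '' (A ×ˢ B ×ˢ Icc (0 : ℝ) 1) ∩ {x | ℓ x = c} := ⟨_, rfl⟩
  have hKc : IsCompact K := by
    rw [hK]
    refine ((hA.compact.prod (hB.compact.prod isCompact_Icc)).image ?_).inter_right ?_
    · fun_prop
    · exact isClosed_eq ℓ.continuous continuous_const
  -- a point of the line on every segment
  have hline : ∀ p ∈ A, ∀ q ∈ B, ∃ t ∈ Icc (0 : ℝ) 1, (1 - t) • p + t • q ∈ K := by
    intro p hp q hq
    have h1 := hAu p hp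
    have h2 := hBv q hq
    have h3 : 0 < ℓ q - ℓ p := by linarith
    refine ⟨(c - ℓ p) / (ℓ q - ℓ p), ⟨div_nonneg (by linarith) h3.le, ?_⟩, ?_⟩
    · rw [div_le_one h3]
      linarith
    · rw [hK]
      refine ⟨⟨(p, q, (c - ℓ p) / (ℓ q - ℓ p)), ⟨hp, hq, div_nonneg (by linarith) h3.le, ?_⟩,
        rfl⟩, ?_⟩
      · rw [div_le_one h3]
        linarith
      · rw [mem_setOf_eq, map_add, map_smul, map_smul, smul_eq_mul, smul_eq_mul]
        field_simp
        ring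
  have hKne : K.Nonempty := by
    obtain ⟨p, hp⟩ := hA.nonempty
    obtain ⟨q, hq⟩ := hB.nonempty
    obtain ⟨t, -, ht⟩ := hline p hp q hq
    exact ⟨_, ht⟩
  have hmc : Continuous (fun x : ℝ × ℝ => -n2 * x.1 + n1 * x.2) := by fun_prop
  obtain ⟨a, haK, ha⟩ := hKc.exists_isMinOn hKne hmc.continuousOn
  obtain ⟨b, hbK, hb⟩ := hKc.exists_isMaxOn hKne hmc.continuousOn
  have hup : ∀ x ∈ K, ∀ θ, dot x θ ≤ max (supp A θ) (supp B θ) := by
    intro x hx θ
    rw [hK] at hx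
    obtain ⟨⟨⟨p, q, t⟩, ⟨hp, hq, ht0, ht1⟩, rfl⟩, -⟩ := hx
    simp only at hp hq ht0 ht1
    have h1 := (hA.le_supp hp θ).trans (le_max_left (supp A θ) (supp B θ))
    have h2 := (hB.le_supp hq θ).trans (le_max_right (supp A θ) (supp B θ))
    have h3 : dot ((1 - t) • p + t • q) θ = (1 - t) * dot p θ + t * dot q θ := by
      unfold dot
      simp only [Prod.fst_add, Prod.snd_add, Prod.smul_fst, Prod.smul_snd, smul_eq_mul]
      ring
    simp only [h3]
    nlinarith [mul_le_mul_of_nonneg_left h1 (sub_nonneg.2 ht1), mul_le_mul_of_nonneg_left h2 ht0]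
  have hn : 0 < n1 ^ 2 + n2 ^ 2 := by
    obtain ⟨p, hp⟩ := hA.nonempty
    obtain ⟨q, hq⟩ := hB.nonempty
    have h1 := hAu p hp
    have h2 := hBv q hq
    have h3 : ℓ p ≠ ℓ q := by
      intro h
      linarith
    by_contra hcon
    have h4 : n1 = 0 := by nlinarith [sq_nonneg n1, sq_nonneg n2]
    have h5 : n2 = 0 := by nlinarith [sq_nonneg n1, sq_nonneg n2]
    apply h3
    rw [hℓ, hℓ, h4, h5]
    ring
  have hid : ∀ (x : ℝ × ℝ) (θ : ℝ), (n1 ^ 2 + n2 ^ 2) * dot x θ =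
      ℓ x * (n1 * Real.cos θ + n2 * Real.sin θ) +
      (-n2 * x.1 + n1 * x.2) * (n1 * Real.sin θ - n2 * Real.cos θ) := by
    intro x θ
    rw [hℓ]
    unfold dot
    ring
  have hKℓ : ∀ x ∈ K, ℓ x = c := by
    intro x hx
    rw [hK] at hx
    exact hx.2
  refine ⟨a, b, fun θ => ⟨?_, max_le (hup a haK θ) (hup b hbK θ)⟩⟩
  obtain ⟨p, hp, hpθ⟩ := hA.exists_supp θ
  obtain ⟨q, hq, hqθ⟩ := hB.exists_supp θ
  obtain ⟨t, ⟨ht0, ht1⟩, hr⟩ := hline p hp q hq
  have h3 : dot ((1 - t) • p + t • q) θ = (1 - t) * dot p θ + t * dot q θ := by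
    unfold dot
    simp only [Prod.fst_add, Prod.snd_add, Prod.smul_fst, Prod.smul_snd, smul_eq_mul]
    ring
  have h4 : min (supp A θ) (supp B θ) ≤ dot ((1 - t) • p + t • q) θ := by
    rw [h3, ← hpθ, ← hqθ]
    have h1 := min_le_left (supp A θ) (supp B θ)
    have h2 := min_le_right (supp A θ) (supp B θ)
    nlinarith [mul_le_mul_of_nonneg_left h1 (sub_nonneg.2 ht1), mul_le_mul_of_nonneg_left h2 ht0]
  refine h4.trans ?_
  obtain ⟨r, hrdef⟩ : ∃ r, r = (1 - t) • p + t • q := ⟨_, rfl⟩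
  rw [← hrdef] at hr ⊢
  have har := ha hr
  have hbr := hb hr
  simp only [mem_setOf_eq] at har hbr
  have ida := hid a θ
  have idb := hid b θ
  have idr := hid r θ
  rw [hKℓ a haK] at ida
  rw [hKℓ b hbK] at idb
  rw [hKℓ r hr] at idr
  unfold seg
  rcases le_total 0 (n1 * Real.sin θ - n2 * Real.cos θ) with hs | hs
  · refine le_max_of_le_right ?_
    have := mul_le_mul_of_nonneg_right hbr hs
    nlinarith
  · refine le_max_of_le_left ?_
    have := mul_le_mul_of_nonpos_right har hs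
    nlinarith

end Pool.Agent.helper53.OT
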