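import Pool.Agent.helper53.OT.Defs

/-! # Signotopes: definitions (MP_90837e_co) -/

namespace Pool.Agent.helper53.OT

/-- The sequence `a, b, c, d` of signs has at most one change. -/
def Ok4 (a b c d : Bool) : Prop :=
  ¬ (a = c ∧ a ≠ b) ∧ ¬ (a = d ∧ a ≠ b) ∧ ¬ (a = d ∧ a ≠ c) ∧ ¬ (b = d ∧ b ≠ c)

instance (a b c d : Bool) : Decidable (Ok4 a b c d) := by
  unfold Ok4
  infer_instance

/-- `T` (read at increasing triples below `N`) is a signotope of rank 3. -/
def Signotope (N : ℕ) (T : ℕ → ℕ → ℕ → Bool) : Prop :=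
  ∀ p q r s, p < q → q < r → r < s → s < N → Ok4 (T p q r) (T p q s) (T p r s) (T q r s)

/-- A sign as an integer. -/
def sg (b : Bool) : ℤ := if b then 1 else -1

/-- The alternating extension of `T`. -/
def chi (T : ℕ → ℕ → ℕ → Bool) (x y z : ℕ) : ℤ :=
  if x < y ∧ y < z then sg (T x y z)
  else if y < z ∧ z < x then sg (T y z x)
  else if z < x ∧ x < y then sg (T z x y)
  else if x < z ∧ z < y then - sg (T x z y)
  else if z < y ∧ y < x then - sg (T z y x)
  else if y < x ∧ x < z then - sg (T y x z)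
  else 0

/-- The group of `x`: `0` on `[0, m)`, `1` on `[m, 3m)`, `2` from `3m`. -/
def grp (m x : ℕ) : ℕ := if x < m then 0 else if x < 3 * m then 1 else 2

/-- The signotopes on `4 m` elements with `m²` free signs `ω a c`, `a, c < m`. -/
def base (m : ℕ) (ω : ℕ → ℕ → Bool) (i j k : ℕ) : Bool :=
  if grp m i = grp m j then true
  else if grp m j = grp m k then false
  else if i + k < j + 2 * m then true
  else if i + k = j + 2 * m then ω i (k - 3 * m)
  else false

/-- Each element `i` is replaced by the two elements `2 i`, `2 i + 1`. -/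
def twin (S : ℕ → ℕ → ℕ → Bool) (x y z : ℕ) : Bool :=
  if x / 2 = y / 2 then true
  else if y / 2 = z / 2 then false
  else S (x / 2) (y / 2) (z / 2)

/-- **Proof.** The first condition fails (`m ≤ m + (a + c)`), so does the second one
(`m + (a + c) < 3 m ≤ 3 m + c`), and `a + (3 m + c) = m + (a + c) + 2 m`. -/
theorem base_read (m : ℕ) (ω : ℕ → ℕ → Bool) (a c : ℕ) (ha : a < m) (hc : c < m) :
    base m ω a (m + (a + c)) (3 * m + c) = ω a c := by
  have h1 : ¬ (grp m a = grp m (m + (a + c))) := by
    intro h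
    unfold grp at h
    split_ifs at h
    omega
  have h2 : ¬ (grp m (m + (a + c)) = grp m (3 * m + c)) := by
    intro h
    unfold grp at h
    split_ifs at h <;> omega
  have h3 : ¬ (a + (3 * m + c) < m + (a + c) + 2 * m) := by omega
  have h4 : a + (3 * m + c) = m + (a + c) + 2 * m := by omega
  have h5 : 3 * m + c - 3 * m = c := by omega
  unfold base
  rw [if_neg h1, if_neg h2, if_neg h3, if_pos h4, h5]

/-- **Proof.** `(2 i + α) / 2 = i` and `2 i + α < 2 j + β ↔ i < j` for `i ≠ j`. -/
theorem chi_twin (S : ℕ → ℕ → ℕ → Bool) (i j k α β γ : ℕ) (hij : i ≠ j) (hjk : j ≠ k)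
    (hik : i ≠ k) (hα : α < 2) (hβ : β < 2) (hγ : γ < 2) :
    chi (twin S) (2 * i + α) (2 * j + β) (2 * k + γ) = chi S i j k := by
  have e1 : (2 * i + α) / 2 = i := by omega
  have e2 : (2 * j + β) / 2 = j := by omega
  have e3 : (2 * k + γ) / 2 = k := by omega
  have l1 : 2 * i + α < 2 * j + β ↔ i < j := by omega
  have l2 : 2 * j + β < 2 * k + γ ↔ j < k := by omega
  have l3 : 2 * i + α < 2 * k + γ ↔ i < k := by omega
  have l4 : 2 * j + β < 2 * i + α ↔ j < i := by omega
  have l5 : 2 * k + γ < 2 * j + β ↔ k < j := by omega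
  have l6 : 2 * k + γ < 2 * i + α ↔ k < i := by omega
  simp only [chi, twin, l1, l2, l3, l4, l5, l6, e1, e2, e3, hij, hjk, hik, hij.symm, hjk.symm,
    hik.symm, if_false]

/-- **Proof.** For `p < q < r < s` let `i ≤ j ≤ k ≤ l` be the halves. No three of them are equal.
All different: hypothesis. `i = j < k < l`: `+ + x x`. `i < j = k < l`: `- x x +`.
`i < j < k = l`: `x x - -`. `i = j < k = l`: `+ + - -`. -/
theorem twin_signotope (N : ℕ) (S : ℕ → ℕ → ℕ → Bool) (h : Signotope N S) :
    Signotope (2 * N) (twin S) := by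
  intro p q r s hpq hqr hrs hs
  unfold twin
  by_cases h1 : p / 2 = q / 2
  · have h2 : ¬ q / 2 = r / 2 := by omega
    have h3 : ¬ p / 2 = r / 2 := by omega
    rw [if_pos h1, if_pos h1, if_neg h3, if_neg h2]
    by_cases h4 : r / 2 = s / 2
    · rw [if_pos h4, if_pos h4]
      unfold Ok4
      simp
    · rw [if_neg h4, if_neg h4, h1]
      unfold Ok4
      simp
  · by_cases h2 : q / 2 = r / 2
    · have h3 : ¬ r / 2 = s / 2 := by omega
      have h4 : ¬ q / 2 = s / 2 := by omega
      have h5 : ¬ p / 2 = r / 2 := by omega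
      rw [if_neg h1, if_neg h1, if_pos h2, if_neg h4, if_neg h5, if_neg h3, if_pos h2, h2]
      unfold Ok4
      simp
    · by_cases h3 : r / 2 = s / 2
      · have h4 : ¬ q / 2 = s / 2 := by omega
        have h5 : ¬ p / 2 = r / 2 := by omega
        rw [if_neg h1, if_neg h1, if_neg h2, if_neg h4, if_neg h5, if_pos h3, if_neg h2,
          if_pos h3, h3]
        unfold Ok4
        simp
      · have h4 : ¬ q / 2 = s / 2 := by omega
        have h5 : ¬ p / 2 = r / 2 := by omega
        rw [if_neg h1, if_neg h1, if_neg h2, if_neg h4, if_neg h5, if_neg h3, if_neg h2,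
          if_neg h3]
        exact h (p / 2) (q / 2) (r / 2) (s / 2) (by omega) (by omega) (by omega) (by omega)

/-- **Proof.** For `p < q < r < s < 4 m` the groups are nondecreasing. Write `A, B, C` for the groups and
`f a b c` for the sign of `a ∈ A`, `b ∈ B`, `c ∈ C`; `f` is nonincreasing in `a`, nondecreasing in `b`,
nonincreasing in `c` (with `true` the larger value), and if `a < a'` etc. it is monotone whatever `ω`
is. Cases: first three in one group or last three ...:
`AAxx`: the sequence `(pqr), (pqs)` starts with `+ +`, then `(prs) = (qrs)` unless the pattern is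
`AABC`, where `(prs) ≥ (qrs)`.
`ABBx`: `(pqr) = -`; for `ABBB`: `- - - +`; for `ABBC`: `-, f a b c, f a b' c, +` with `b < b'`.
`ABCC`: `f a b c, f a b c', -, -` with `c < c'`. `ACCC`, `BCCC`: `- - - +`. `BBxx`: `+ + x x`. `CCCC`:
`+ + + +`. (All of this can be done by unfolding, `split_ifs`, `omega` and case distinction on the
two values of `ω` involved.) -/
theorem base_signotope (m : ℕ) (ω : ℕ → ℕ → Bool) : Signotope (4 * m) (base m ω) := by
  intro p q r s hpq hqr hrs hs
  have hg : ∀ x, (x < m ∧ grp m x = 0) ∨ (m ≤ x ∧ x < 3 * m ∧ grp m x = 1) ∨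
      (3 * m ≤ x ∧ grp m x = 2) := by
    intro x
    unfold grp
    split_ifs <;> simp <;> omega
  rcases hg p with ⟨hp, gp⟩ | ⟨hp, hp', gp⟩ | ⟨hp, gp⟩ <;>
    rcases hg q with ⟨hq, gq⟩ | ⟨hq, hq', gq⟩ | ⟨hq, gq⟩ <;>
    first
    | (exfalso; omega)
    | (rcases hg r with ⟨hr, gr⟩ | ⟨hr, hr', gr⟩ | ⟨hr, gr⟩ <;>
        first
        | (exfalso; omega)
        | (rcases hg s with ⟨hs', gs⟩ | ⟨hs', hs'', gs⟩ | ⟨hs', gs⟩ <;>
            first
            | (exfalso; omega)
            | (simp only [base, gp, gq, gr, gs, zero_ne_one, OfNat.zero_ne_ofNat,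
                OfNat.one_ne_ofNat, if_true, if_false]
               try split_ifs
               all_goals first
                | omega
                | simp [Ok4])))

end Pool.Agent.helper53.OT
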