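import Pool.Agent.helper53.OT.Defs

/-! # Basic facts on support functions (MP_90837e_co)

Everything here is elementary: `dot p θ = p.1 cos θ + p.2 sin θ` is jointly continuous, linear in
`p` and `2π`-periodic in `θ`; a body is compact and nonempty, so the supremum is attained.
Continuity of `supp A`: for all `s`, `t` we have `supp A s ≤ supp A t + C |s - t|` with `C` a bound of
`|p.1| + |p.2|` on `A` (`|cos s - cos t| ≤ |s - t|`, the same for `sin`). -/

namespace Pool.Agent.helper53.OT

open Set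

theorem continuous_dot (p : ℝ × ℝ) : Continuous (dot p) := by
  unfold dot
  fun_prop

theorem dot_add_two_pi (p : ℝ × ℝ) (θ : ℝ) : dot p (θ + 2 * Real.pi) = dot p θ := by
  simp [dot, Real.cos_add_two_pi, Real.sin_add_two_pi]

theorem continuous_dot_left (θ : ℝ) : Continuous (fun p : ℝ × ℝ => dot p θ) := by
  unfold dot
  fun_prop

theorem IsBody.bddAbove {A : Set (ℝ × ℝ)} (h : IsBody A) (θ : ℝ) :
    BddAbove ((fun p => dot p θ) '' A) :=
  (h.compact.image (continuous_dot_left θ)).bddAbove

theorem IsBody.exists_supp {A : Set (ℝ × ℝ)} (h : IsBody A) (θ : ℝ) :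
    ∃ p ∈ A, supp A θ = dot p θ := by
  obtain ⟨p, hp, hp2⟩ := h.compact.exists_isMaxOn h.nonempty (continuous_dot_left θ).continuousOn
  refine ⟨p, hp, ?_⟩
  apply le_antisymm
  · apply csSup_le (h.nonempty.image _)
    rintro _ ⟨q, hq, rfl⟩
    exact hp2 hq
  · exact le_csSup (h.bddAbove θ) ⟨p, hp, rfl⟩

theorem IsBody.le_supp {A : Set (ℝ × ℝ)} (h : IsBody A) {p : ℝ × ℝ} (hp : p ∈ A) (θ : ℝ) :
    dot p θ ≤ supp A θ :=
  le_csSup (h.bddAbove θ) ⟨p, hp, rfl⟩

theorem IsBody.continuous_supp {A : Set (ℝ × ℝ)} (h : IsBody A) : Continuous (supp A) := by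
  obtain ⟨C, hC⟩ : ∃ C : ℝ, ∀ p ∈ A, |p.1| + |p.2| ≤ C := by
    have : BddAbove ((fun p : ℝ × ℝ => |p.1| + |p.2|) '' A) :=
      (h.compact.image (by fun_prop)).bddAbove
    obtain ⟨C, hC⟩ := this
    exact ⟨C, fun p hp => hC ⟨p, hp, rfl⟩⟩
  have hC0 : 0 ≤ C := by
    obtain ⟨p, hp⟩ := h.nonempty
    have := hC p hp
    have h1 := abs_nonneg p.1
    have h2 := abs_nonneg p.2
    linarith
  have key : ∀ s t : ℝ, supp A s - supp A t ≤ C * |s - t| := by
    intro s t
    obtain ⟨p, hp, hps⟩ := h.exists_supp s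
    have h1 := h.le_supp hp t
    have hc : |Real.cos s - Real.cos t| ≤ |s - t| := Real.abs_cos_sub_cos_le s t
    have hs : |Real.sin s - Real.sin t| ≤ |s - t| := Real.abs_sin_sub_sin_le s t
    have h2 : dot p s - dot p t ≤ (|p.1| + |p.2|) * |s - t| := by
      have e : dot p s - dot p t = p.1 * (Real.cos s - Real.cos t) +
          p.2 * (Real.sin s - Real.sin t) := by unfold dot; ring
      rw [e]
      have a1 : p.1 * (Real.cos s - Real.cos t) ≤ |p.1| * |s - t| := by
        calc _ ≤ |p.1 * (Real.cos s - Real.cos t)| := le_abs_self _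
          _ = |p.1| * |Real.cos s - Real.cos t| := abs_mul _ _
          _ ≤ _ := mul_le_mul_of_nonneg_left hc (abs_nonneg _)
      have a2 : p.2 * (Real.sin s - Real.sin t) ≤ |p.2| * |s - t| := by
        calc _ ≤ |p.2 * (Real.sin s - Real.sin t)| := le_abs_self _
          _ = |p.2| * |Real.sin s - Real.sin t| := abs_mul _ _
          _ ≤ _ := mul_le_mul_of_nonneg_left hs (abs_nonneg _)
      linarith
    have h3 : (|p.1| + |p.2|) * |s - t| ≤ C * |s - t| :=
      mul_le_mul_of_nonneg_right (hC p hp) (abs_nonneg _)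
    linarith
  have : LipschitzWith (Real.toNNReal C) (supp A) := by
    apply LipschitzWith.of_dist_le_mul
    intro s t
    rw [Real.dist_eq, Real.dist_eq, Real.coe_toNNReal C hC0, abs_le]
    have k1 := key s t
    have k2 := key t s
    rw [abs_sub_comm t s] at k2
    constructor <;> linarith
  exact this.continuous

theorem supp_add_two_pi (A : Set (ℝ × ℝ)) (θ : ℝ) : supp A (θ + 2 * Real.pi) = supp A θ := by
  simp only [supp, dot_add_two_pi]

theorem supp_singleton (p : ℝ × ℝ) : supp {p} = dot p := by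
  funext θ
  simp [supp]

theorem isBody_singleton (p : ℝ × ℝ) : IsBody {p} :=
  ⟨singleton_nonempty p, isCompact_singleton, convex_singleton p⟩

/-- The support function of the segment `a b`. -/
noncomputable def seg (a b : ℝ × ℝ) (θ : ℝ) : ℝ := max (dot a θ) (dot b θ)

theorem continuous_seg (a b : ℝ × ℝ) : Continuous (seg a b) :=
  (continuous_dot a).max (continuous_dot b)

theorem seg_add_two_pi (a b : ℝ × ℝ) (θ : ℝ) : seg a b (θ + 2 * Real.pi) = seg a b θ := by
  simp [seg, dot_add_two_pi]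

end Pool.Agent.helper53.OT
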