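import Pool.Agent.helper53.OT.Circle

/-! # Twins: the cyclic order passes to any functions between the twin functions (MP_90837e_co) -/

namespace Pool.Agent.helper53.OT

open Set

/-- The cyclic condition that three bodies with support functions `f`, `g`, `h` satisfy when their
arcs occur in this order. It implies that `f`, `g`, `h` are strictly on top at `a`, `b`, `c`. -/
def Ccw (f g h : ℝ → ℝ) : Prop :=
  ∃ a b c, a < b ∧ b < c ∧ c < a + 2 * Real.pi ∧
    (∀ t ∈ Icc a b, h t < max (f t) (g t)) ∧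
    (∀ t ∈ Icc b c, f t < max (g t) (h t)) ∧
    (∀ t ∈ Icc c (a + 2 * Real.pi), g t < max (h t) (f t))

/-- A family of functions with the properties of the support functions of an orientable
arrangement. -/
structure Good {ι : Type} (F : ι → ℝ → ℝ) : Prop where
  cont : ∀ p, Continuous (F p)
  per : ∀ p, Per (F p)
  conn : ∀ p q r, p ≠ q → q ≠ r → p ≠ r → Conn (F p) (F q) (F r)
  strict : ∀ p q r, p ≠ q → q ≠ r → p ≠ r → ∃ t, Strict (F p) (F q) (F r) t
  cross : ∀ p q, p ≠ q → Cross (F p) (F q)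
  trip : ∀ p q r t, p ≠ q → q ≠ r → p ≠ r → F p t = F q t → F r t ≠ F p t

/-- **Proof.** Add `2π` to the first direction: the directions `b < c < a + 2π < b + 2π`. -/
theorem Plus.rot {f g h : ℝ → ℝ} (hf : Per f) (hg : Per g) (hh : Per h) (hp : Plus f g h) :
    Plus g h f := by
  obtain ⟨a, b, c, h1, h2, h3, h4, h5, h6⟩ := hp
  refine ⟨b, c, a + 2 * Real.pi, h2, h3, by linarith, h5, h6, ?_⟩
  rw [hf a, hg a, hh a]
  exact h4

/-- The first zero of a continuous function which is negative on the left of it. -/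
theorem Twin_first_zero {G : ℝ → ℝ} (hG : Continuous G) {a b : ℝ} (hab : a < b) (ha : G a < 0)
    (hb : 0 < G b) : ∃ u, a < u ∧ G u = 0 ∧ ∀ t, a ≤ t → t < u → G t < 0 := by
  have hcomp : IsCompact (Icc a b ∩ {t | 0 ≤ G t}) :=
    isCompact_Icc.inter_right (isClosed_le continuous_const hG)
  have hne : (Icc a b ∩ {t | 0 ≤ G t}).Nonempty := ⟨b, ⟨hab.le, le_rfl⟩, hb.le⟩
  obtain ⟨u, ⟨⟨hu1, hu2⟩, hu3⟩, hu4⟩ := hcomp.exists_isLeast hne
  have hu3' : 0 ≤ G u := hu3
  have hau : a < u := by
    rcases hu1.eq_or_lt with h | h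
    · rw [← h] at hu3'
      linarith
    · exact h
  have hneg : ∀ t, a ≤ t → t < u → G t < 0 := by
    intro t h1 h2
    by_contra h3
    have h4 : u ≤ t := hu4 ⟨⟨h1, h2.le.trans hu2⟩, not_lt.1 h3⟩
    linarith
  refine ⟨u, hau, ?_, hneg⟩
  by_contra hne
  have hpos : 0 < G u := lt_of_le_of_ne hu3' (Ne.symm hne)
  have hev : ∀ᶠ t in nhds u, 0 < G t := hG.continuousAt.eventually (lt_mem_nhds hpos)
  obtain ⟨δ, hδ, hball⟩ := Metric.eventually_nhds_iff.1 hev
  have hlt : max a (u - δ / 2) < u := max_lt hau (by linarith)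
  have h5 := hneg (max a (u - δ / 2)) (le_max_left _ _) hlt
  have h6 : 0 < G (max a (u - δ / 2)) := by
    apply hball
    rw [Real.dist_eq, abs_lt]
    have h7 : u - δ / 2 ≤ max a (u - δ / 2) := le_max_right _ _
    constructor <;> linarith
  linarith

/-- The values at a zero of the difference of the two maximum functions: both twins of `I` are larger. -/
theorem Twin_above {ι : Type} {F : ι → ℝ → ℝ} (hF : Good F) {i j j' k k' : ι}
    (hjj : j ≠ j') (hkk : k ≠ k') (hij : i ≠ j) (hik : i ≠ k) (hjk : j ≠ k) (hj'k : j' ≠ k)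
    (hjk' : j ≠ k') (hp : Plus (F i) (F j) (F k)) {t0 u : ℝ} (h0 : t0 < u)
    (huj : F j' u ≤ F j u) (huk : F k' u ≤ F k u) (he : F j u = F k u)
    (hG : ∀ t, t0 ≤ t → t < u → max (F j t) (F j' t) < max (F k t) (F k' t)) :
    F j u < F i u := by
  by_contra hcon
  have hne : F i u ≠ F j u := hF.trip j k i u hjk hik.symm hij.symm he
  have hlt : F i u < F j u := lt_of_le_of_ne (not_lt.1 hcon) hne
  have hj' : F j' u < F j u :=
    lt_of_le_of_ne huj (hF.trip j k j' u hjk hj'k.symm hjj he)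
  have hk' : F k' u < F k u := by
    refine lt_of_le_of_ne huk ?_
    have := hF.trip k j k' u hjk.symm hjk' hkk he.symm
    exact this
  have hltk : F i u < F k u := he ▸ hlt
  have e1 : ∀ᶠ t in nhds u, F i t < F j t :=
    ((hF.cont i).continuousAt).eventually_lt ((hF.cont j).continuousAt) hlt
  have e2 : ∀ᶠ t in nhds u, F i t < F k t :=
    ((hF.cont i).continuousAt).eventually_lt ((hF.cont k).continuousAt) hltk
  have e3 : ∀ᶠ t in nhds u, F j' t < F j t :=
    ((hF.cont j').continuousAt).eventually_lt ((hF.cont j).continuousAt) hj'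
  have e4 : ∀ᶠ t in nhds u, F k' t < F k t :=
    ((hF.cont k').continuousAt).eventually_lt ((hF.cont k).continuousAt) hk'
  obtain ⟨δ, hδ, hball⟩ := Metric.eventually_nhds_iff.1 (e1.and (e2.and (e3.and e4)))
  obtain ⟨ε, hε, hcross⟩ := hF.cross j k hjk u he
  have hπ : (0 : ℝ) < Real.pi := Real.pi_pos
  -- the two directions
  obtain ⟨η, hη, hηδ, hηε, hηt, hηπ⟩ : ∃ η : ℝ, 0 < η ∧ η < δ ∧ η < ε ∧ η < u - t0 ∧ η < Real.pi := by
    have hm : 0 < min (min δ ε) (min (u - t0) Real.pi) :=
      lt_min (lt_min hδ hε) (lt_min (by linarith) hπ)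
    refine ⟨min (min δ ε) (min (u - t0) Real.pi) / 2, by linarith, ?_, ?_, ?_, ?_⟩
    · have := (min_le_left (min δ ε) (min (u - t0) Real.pi)).trans (min_le_left _ _)
      linarith
    · have := (min_le_left (min δ ε) (min (u - t0) Real.pi)).trans (min_le_right _ _)
      linarith
    · have := (min_le_right (min δ ε) (min (u - t0) Real.pi)).trans (min_le_left _ _)
      linarith
    · have := (min_le_right (min δ ε) (min (u - t0) Real.pi)).trans (min_le_right _ _)
      linarith
  have hnear : ∀ t, u - η ≤ t → t ≤ u + η →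
      F i t < F j t ∧ F i t < F k t ∧ F j' t < F j t ∧ F k' t < F k t := by
    intro t h1 h2
    apply hball
    rw [Real.dist_eq, abs_lt]
    constructor <;> linarith
  have hleft : F j (u - η) < F k (u - η) := by
    have h1 := hG (u - η) (by linarith) (by linarith)
    obtain ⟨-, -, h2, h3⟩ := hnear (u - η) le_rfl (by linarith)
    rwa [max_eq_left h2.le, max_eq_left h3.le] at h1
  have hright : F k (u + η) < F j (u + η) := by
    rcases hcross with ⟨-, h2⟩ | ⟨h1, -⟩
    · exact h2 (u + η) ⟨by linarith, by linarith⟩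
    · have := h1 (u - η) ⟨by linarith, by linarith⟩
      linarith
  obtain ⟨a1, a2, -, -⟩ := hnear (u - η) le_rfl (by linarith)
  obtain ⟨b1, b2, -, -⟩ := hnear (u + η) (by linarith) le_rfl
  refine no_transition (hF.per i) (hF.per j) (hF.per k) (hF.conn j k i hjk hik.symm hij.symm)
    (hF.conn k i j hik.symm hij hjk.symm) hp (t := u - η) (t' := u + η) (by linarith)
    (by linarith) ⟨a2, hleft⟩ ⟨hright, b1⟩ ?_
  intro t ht hT
  have h1 := (hnear t ht.1 ht.2).1
  have h2 := hT.1
  linarith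

/-- There is a direction in which both twins of `I` are larger than the twins of `J` and `K`.

**Proof.** Put `MJ t = max (F (J false) t) (F (J true) t)`, `MK` similarly, `G = MJ - MK`
(continuous, periodic). By `strict` for `(K false, J false, J true)` there is `t₀` with `G t₀ < 0`,
by `strict` for `(J false, K false, K true)` there is `t₁` with `G t₁ > 0`; shift `t₁` by a multiple
of `2π` so that `t₀ ≤ t₁` (`exists_shift`), so `t₀ < t₁`. Let
`u = sInf {t | t ∈ Icc t₀ t₁ ∧ 0 ≤ G t}` (a nonempty closed set bounded below). Then `G u = 0`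
(by continuity; `G u ≥ 0` as the set is closed, and `G < 0` on `[t₀, u)` gives `G u ≤ 0`), `t₀ < u`,
and `G < 0` on `[t₀, u)`.
Let `β` with `MJ u = F (J β) u`, `γ` with `MK u = F (K γ) u`; these are equal. By `trip`,
`F (J !β) u ≠ MJ u`, so `F (J !β) u < MJ u`, the same for `K`; and `F (I α) u ≠ MJ u` for both `α`.
Claim: `F (I α) u > MJ u = MK u` for both `α`; this is what we want. Suppose `F (I α) u < MJ u`. By
continuity there is `δ > 0` such that on `(u - δ, u + δ)` we have `MJ = F (J β)`, `MK = F (K γ)`,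
`F (I α) < F (J β)` and `F (I α) < F (K γ)`. Take `ε` from `cross` for `J β`, `K γ` at `u`. Take
`t ∈ (u - δ, u) ∩ (u - ε, u) ∩ (t₀, u)` and `t' ∈ (u, u + δ) ∩ (u, u + ε)`, `t' < t + 2π`. `G t < 0` says
`F (J β) t < F (K γ) t`, so we are in the first case of `Cross`, and `F (K γ) t' < F (J β) t'`. So
`Strict (F (K γ)) (F (I α)) (F (J β)) t` and `Strict (F (J β)) (F (K γ)) (F (I α)) t'`, and `F (I α)` is not on
top on `[t, t']`. This contradicts `no_transition` for `f = F (I α)`, `g = F (J β)`, `h = F (K γ)`. -/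
theorem exists_dominant {ι : Type} (F : ι → ℝ → ℝ) (hF : Good F) (I J K : Bool → ι)
    (hJ : J false ≠ J true) (hK : K false ≠ K true)
    (hIJ : ∀ α β, I α ≠ J β) (hJK : ∀ α β, J α ≠ K β) (hKI : ∀ α β, K α ≠ I β)
    (hp : ∀ α β γ, Plus (F (I α)) (F (J β)) (F (K γ))) :
    ∃ u, ∀ α β γ, F (J β) u < F (I α) u ∧ F (K γ) u < F (I α) u := by
  have hJn : ∀ β, J β ≠ J (!β) := by
    intro β
    cases β
    · exact hJ
    · exact hJ.symm
  have hKn : ∀ γ, K γ ≠ K (!γ) := by
    intro γ
    cases γ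
    · exact hK
    · exact hK.symm
  let G : ℝ → ℝ := fun t => max (F (J false) t) (F (J true) t) - max (F (K false) t) (F (K true) t)
  have hGc : Continuous G :=
    ((hF.cont _).max (hF.cont _)).sub ((hF.cont _).max (hF.cont _))
  obtain ⟨t0, ht0⟩ := hF.strict (K false) (J false) (J true) (hJK _ _).symm hJ (hJK _ _).symm
  obtain ⟨t1, ht1⟩ := hF.strict (J false) (K false) (K true) (hJK _ _) hK (hJK _ _)
  have hG0 : G t0 < 0 := by
    have h1 : max (F (J false) t0) (F (J true) t0) < F (K false) t0 := max_lt ht0.1 ht0.2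
    have h2 : F (K false) t0 ≤ max (F (K false) t0) (F (K true) t0) := le_max_left _ _
    show max (F (J false) t0) (F (J true) t0) - max (F (K false) t0) (F (K true) t0) < 0
    linarith
  have hG1 : 0 < G t1 := by
    have h1 : max (F (K false) t1) (F (K true) t1) < F (J false) t1 := max_lt ht1.1 ht1.2
    have h2 : F (J false) t1 ≤ max (F (J false) t1) (F (J true) t1) := le_max_left _ _
    show 0 < max (F (J false) t1) (F (J true) t1) - max (F (K false) t1) (F (K true) t1)
    linarith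
  obtain ⟨n, hn1, hn2⟩ := exists_shift t0 t1
  have hG2 : G (t1 + n * (2 * Real.pi)) = G t1 := by
    show max (F (J false) _) (F (J true) _) - max (F (K false) _) (F (K true) _) = _
    rw [(hF.per (J false)).int, (hF.per (J true)).int, (hF.per (K false)).int,
      (hF.per (K true)).int]
  have hG3 : 0 < G (t1 + n * (2 * Real.pi)) := hG2 ▸ hG1
  have hlt : t0 < t1 + n * (2 * Real.pi) := by
    rcases hn1.eq_or_lt with h | h
    · rw [← h] at hG3
      linarith
    · exact h
  obtain ⟨u, hu1, hu2, hu3⟩ := Twin_first_zero hGc hlt hG0 hG3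
  have hu2' : max (F (J false) u) (F (J true) u) = max (F (K false) u) (F (K true) u) := by
    have : max (F (J false) u) (F (J true) u) - max (F (K false) u) (F (K true) u) = 0 := hu2
    linarith
  have hu3' : ∀ t, t0 ≤ t → t < u →
      max (F (J false) t) (F (J true) t) < max (F (K false) t) (F (K true) t) := by
    intro t h1 h2
    have : max (F (J false) t) (F (J true) t) - max (F (K false) t) (F (K true) t) < 0 :=
      hu3 t h1 h2
    linarith
  obtain ⟨β, hβ⟩ : ∃ β, ∀ β', F (J β') u ≤ F (J β) u := by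
    rcases le_total (F (J false) u) (F (J true) u) with h | h
    · exact ⟨true, fun β' => by cases β'; exacts [h, le_rfl]⟩
    · exact ⟨false, fun β' => by cases β'; exacts [le_rfl, h]⟩
  obtain ⟨γ, hγ⟩ : ∃ γ, ∀ γ', F (K γ') u ≤ F (K γ) u := by
    rcases le_total (F (K false) u) (F (K true) u) with h | h
    · exact ⟨true, fun γ' => by cases γ'; exacts [h, le_rfl]⟩
    · exact ⟨false, fun γ' => by cases γ'; exacts [le_rfl, h]⟩
  have hmJ : max (F (J false) u) (F (J true) u) = F (J β) u := by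
    apply le_antisymm (max_le (hβ _) (hβ _))
    cases β
    · exact le_max_left _ _
    · exact le_max_right _ _
  have hmK : max (F (K false) u) (F (K true) u) = F (K γ) u := by
    apply le_antisymm (max_le (hγ _) (hγ _))
    cases γ
    · exact le_max_left _ _
    · exact le_max_right _ _
  have he : F (J β) u = F (K γ) u := by rw [← hmJ, ← hmK]; exact hu2'
  have hsymJ : ∀ t, max (F (J β) t) (F (J (!β)) t) = max (F (J false) t) (F (J true) t) := by
    intro t
    cases β
    · rfl
    · exact max_comm _ _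
  have hsymK : ∀ t, max (F (K γ) t) (F (K (!γ)) t) = max (F (K false) t) (F (K true) t) := by
    intro t
    cases γ
    · rfl
    · exact max_comm _ _
  refine ⟨u, fun α β' γ' => ?_⟩
  have hmain : F (J β) u < F (I α) u := by
    refine Twin_above hF (hJn β) (hKn γ) (hIJ _ _) (hKI _ _).symm (hJK _ _) (hJK _ _) (hJK _ _)
      (hp α β γ) hu1 (hβ _) (hγ _) he ?_
    intro t h1 h2
    rw [hsymJ, hsymK]
    exact hu3' t h1 h2
  exact ⟨(hβ β').trans_lt hmain, ((hγ γ').trans_eq he.symm).trans_lt hmain⟩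

/-- One of the three intervals in `twin_ccw`. -/
theorem Twin_seg {ι : Type} {F : ι → ℝ → ℝ} (hF : Good F) {I J K : Bool → ι}
    (hIJ : ∀ α β, I α ≠ J β) (hJK : ∀ α β, J α ≠ K β) (hKI : ∀ α β, K α ≠ I β)
    {u v w : ℝ} (huv : u < v) (hvw : v < w) (hwu : w < u + 2 * Real.pi)
    (hu : ∀ α β γ, F (J β) u < F (I α) u ∧ F (K γ) u < F (I α) u)
    (hv : ∀ β γ α, F (K γ) v < F (J β) v ∧ F (I α) v < F (J β) v)
    (hw : ∀ γ α β, F (I α) w < F (K γ) w ∧ F (J β) w < F (K γ) w) {f g h : ℝ → ℝ}
    (hf : ∀ t, min (F (I false) t) (F (I true) t) ≤ f t ∧ f t ≤ max (F (I false) t) (F (I true) t))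
    (hg : ∀ t, min (F (J false) t) (F (J true) t) ≤ g t ∧ g t ≤ max (F (J false) t) (F (J true) t))
    (hh : ∀ t, min (F (K false) t) (F (K true) t) ≤ h t ∧ h t ≤ max (F (K false) t) (F (K true) t)) :
    ∀ t ∈ Icc u v, h t < max (f t) (g t) := by
  intro t ht
  have key : ∀ α β γ, F (K γ) t < max (F (I α) t) (F (J β) t) := by
    intro α β γ
    exact not_top_between (hF.per _) (hF.per _) (hF.per _)
      (hF.conn _ _ _ (hKI _ _) (hIJ _ _) (hJK _ _).symm) huv hvw hwu (hu α β γ) (hv β γ α)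
      (hw γ α β) t ht
  obtain ⟨α, hα⟩ : ∃ α, F (I α) t ≤ f t := by
    rcases min_le_iff.1 (hf t).1 with h1 | h1
    · exact ⟨false, h1⟩
    · exact ⟨true, h1⟩
  obtain ⟨β, hβ⟩ : ∃ β, F (J β) t ≤ g t := by
    rcases min_le_iff.1 (hg t).1 with h1 | h1
    · exact ⟨false, h1⟩
    · exact ⟨true, h1⟩
  obtain ⟨γ, hγ⟩ : ∃ γ, h t ≤ F (K γ) t := by
    rcases le_max_iff.1 (hh t).2 with h1 | h1
    · exact ⟨false, h1⟩
    · exact ⟨true, h1⟩
  calc h t ≤ F (K γ) t := hγ
    _ < max (F (I α) t) (F (J β) t) := key α β γ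
    _ ≤ max (f t) (g t) := max_le_max hα hβ

/-- Any functions between the minimum and the maximum of the twins satisfy `Ccw`.

**Proof.** `exists_dominant` for `(I, J, K)`, `(J, K, I)`, `(K, I, J)` (with `Plus.rot`) gives `u`, `v`, `w`
where both twins of `I`, of `J`, of `K` dominate the four others. By `cyclic_order` for `I false`,
`J false`, `K false` we can shift `v`, `w` by multiples of `2π` (domination is kept by periodicity)
so that `u < v < w < u + 2π`. Take `a = u`, `b = v`, `c = w`. By `not_top_between`, for all `α β γ` and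
`t ∈ [u, v]`: `F (K γ) t < max (F (I α) t) (F (J β) t)`. Take `γ` with `F (K γ) t` the maximum of the
twins, `α`, `β` with the minimum of the twins: `h t ≤ F (K γ) t < max (F (I α) t) (F (J β) t) ≤
max (f t) (g t)`. The two other intervals `[v, w]` and `[w, u + 2π]` are the same statement for the
rotated triples (with directions `v, w, u + 2π` and `w, u + 2π, v + 2π`). -/
theorem twin_ccw {ι : Type} (F : ι → ℝ → ℝ) (hF : Good F) (I J K : Bool → ι)
    (hI : I false ≠ I true) (hJ : J false ≠ J true) (hK : K false ≠ K true)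
    (hIJ : ∀ α β, I α ≠ J β) (hJK : ∀ α β, J α ≠ K β) (hKI : ∀ α β, K α ≠ I β)
    (hp : ∀ α β γ, Plus (F (I α)) (F (J β)) (F (K γ))) (f g h : ℝ → ℝ)
    (hf : ∀ t, min (F (I false) t) (F (I true) t) ≤ f t ∧ f t ≤ max (F (I false) t) (F (I true) t))
    (hg : ∀ t, min (F (J false) t) (F (J true) t) ≤ g t ∧ g t ≤ max (F (J false) t) (F (J true) t))
    (hh : ∀ t, min (F (K false) t) (F (K true) t) ≤ h t ∧ h t ≤ max (F (K false) t) (F (K true) t)) :
    Ccw f g h := by
  obtain ⟨u, hu⟩ := exists_dominant F hF I J K hJ hK hIJ hJK hKI hp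
  obtain ⟨v, hv⟩ := exists_dominant F hF J K I hK hI hJK hKI hIJ
    (fun β γ α => Plus.rot (hF.per _) (hF.per _) (hF.per _) (hp α β γ))
  obtain ⟨w, hw⟩ := exists_dominant F hF K I J hI hJ hKI hIJ hJK
    (fun γ α β => Plus.rot (hF.per _) (hF.per _) (hF.per _)
      (Plus.rot (hF.per _) (hF.per _) (hF.per _) (hp α β γ)))
  obtain ⟨n, m, h1, h2, h3⟩ := cyclic_order (hF.per (I false)) (hF.per (J false))
    (hF.per (K false)) (hF.conn _ _ _ (hIJ _ _) (hJK _ _) (hKI _ _).symm)
    (hF.conn _ _ _ (hJK _ _) (hKI _ _) (hIJ _ _).symm)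
    (hF.conn _ _ _ (hKI _ _) (hIJ _ _) (hJK _ _).symm) (hp false false false)
    (hu false false false) (hv false false false) (hw false false false)
  have hv' : ∀ β γ α, F (K γ) (v + n * (2 * Real.pi)) < F (J β) (v + n * (2 * Real.pi)) ∧
      F (I α) (v + n * (2 * Real.pi)) < F (J β) (v + n * (2 * Real.pi)) := by
    intro β γ α
    rw [(hF.per (K γ)).int, (hF.per (J β)).int, (hF.per (I α)).int]
    exact hv β γ α
  have hw' : ∀ γ α β, F (I α) (w + m * (2 * Real.pi)) < F (K γ) (w + m * (2 * Real.pi)) ∧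
      F (J β) (w + m * (2 * Real.pi)) < F (K γ) (w + m * (2 * Real.pi)) := by
    intro γ α β
    rw [(hF.per (K γ)).int, (hF.per (J β)).int, (hF.per (I α)).int]
    exact hw γ α β
  have hu' : ∀ α β γ, F (J β) (u + 2 * Real.pi) < F (I α) (u + 2 * Real.pi) ∧
      F (K γ) (u + 2 * Real.pi) < F (I α) (u + 2 * Real.pi) := by
    intro α β γ
    rw [hF.per (J β) u, hF.per (I α) u, hF.per (K γ) u]
    exact hu α β γ
  have hv'' : ∀ β γ α, F (K γ) (v + n * (2 * Real.pi) + 2 * Real.pi) <
        F (J β) (v + n * (2 * Real.pi) + 2 * Real.pi) ∧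
      F (I α) (v + n * (2 * Real.pi) + 2 * Real.pi) <
        F (J β) (v + n * (2 * Real.pi) + 2 * Real.pi) := by
    intro β γ α
    rw [hF.per (J β) _, hF.per (I α) _, hF.per (K γ) _]
    exact hv' β γ α
  refine ⟨u, v + n * (2 * Real.pi), w + m * (2 * Real.pi), h1, h2, h3, ?_, ?_, ?_⟩
  · exact Twin_seg hF hIJ hJK hKI h1 h2 h3 hu hv' hw' hf hg hh
  · exact Twin_seg hF hJK hKI hIJ h2 h3 (by linarith) hv' hw' hu' hg hh hf
  · exact Twin_seg hF hKI hIJ hJK h3 (by linarith) (by linarith) hw' hu' hv'' hh hf hg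

end Pool.Agent.helper53.OT
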