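import Mathlib

/-! # The number of solutions of a system `x_l ^ D = P_l (x)` with `deg P_l < D` (MP_90837e_co)

**Proof.** Let `Z` be a finite set of solutions, `V = (Z → ℝ)` the space of functions on `Z`
(`finrank = Z.card`), and `ρ : MvPolynomial σ ℝ →ₗ V` the evaluation. `ρ` is surjective: for each
`z ∈ Z` there is a polynomial that is `1` at `z` and `0` on `Z \ {z}` (product over `z' ≠ z` of
`(X l - C (z' l)) / (z l - z' l)` with `l` such that `z l ≠ z' l`). Let `R` be the span of the images of
the reduced monomials `monomial s 1` with `s l < D` for all `l`; there are `D ^ card σ` such `s`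
(index them by `σ → Fin D`), so `finrank R ≤ D ^ card σ` (`finrank_span_le_card`/`finrank_range_le_card`).
Claim: for all `m`, the image of every polynomial of total degree `≤ m` is in `R`. By strong induction
on `m`: it is enough to treat a monomial `s` with `|s| = s.sum (fun _ e => e) ≤ m`. If all `s l < D` it
is reduced. Otherwise let `D ≤ s l`, `s = s' + single l D`; on `Z` the value of the monomial is the value
of `monomial s' 1 * P l`, of total degree `≤ (|s| - D) + (D - 1) < |s|` (`D > 0` since
`totalDegree (P l) < D`), so it is in `R` by induction. Hence `R = V` and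
`Z.card ≤ D ^ card σ`. -/

namespace Pool.Agent.helper53.OT

open MvPolynomial

/-- The evaluation on a finite set. -/
private noncomputable def ZerosRho {σ : Type} (Z : Finset (σ → ℝ)) :
    MvPolynomial σ ℝ →ₗ[ℝ] (Z → ℝ) :=
  LinearMap.pi (fun z => (MvPolynomial.aeval (z.1 : σ → ℝ)).toLinearMap)

private theorem ZerosRho_apply {σ : Type} (Z : Finset (σ → ℝ)) (p : MvPolynomial σ ℝ) (z : Z) :
    ZerosRho Z p z = eval z.1 p := by
  show (MvPolynomial.aeval (z.1 : σ → ℝ)) p = eval z.1 p
  rw [MvPolynomial.aeval_def, MvPolynomial.eval, MvPolynomial.coe_eval₂Hom]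
  rfl

private theorem Zeros_poly {σ : Type} {R : Submodule ℝ (MvPolynomial σ ℝ)} {m : ℕ}
    (h : ∀ s : σ →₀ ℕ, (s.sum fun _ e => e) < m → monomial s (1 : ℝ) ∈ R)
    (p : MvPolynomial σ ℝ) (hp : p.totalDegree < m) : p ∈ R := by
  rw [← MvPolynomial.support_sum_monomial_coeff p]
  refine Submodule.sum_mem _ (fun s hs => ?_)
  have h1 : monomial s (coeff s p) = (coeff s p) • monomial s (1 : ℝ) := by
    rw [MvPolynomial.smul_monomial, smul_eq_mul, mul_one]
  rw [h1]
  exact Submodule.smul_mem _ _ (h s (lt_of_le_of_lt (MvPolynomial.le_totalDegree hs) hp))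

theorem card_zeros_le {σ : Type} [Fintype σ] (D : ℕ) (P : σ → MvPolynomial σ ℝ)
    (hP : ∀ l, (P l).totalDegree < D) (Z : Finset (σ → ℝ))
    (hZ : ∀ z ∈ Z, ∀ l, z l ^ D = eval z (P l)) : Z.card ≤ D ^ Fintype.card σ := by
  classical
  let b : (σ → Fin D) → (Z → ℝ) := fun f =>
    ZerosRho Z (monomial (Finsupp.equivFunOnFinite.symm (fun l => (f l : ℕ))) (1 : ℝ))
  set R : Submodule ℝ (Z → ℝ) := Submodule.span ℝ (Set.range b) with hR
  have hmon : ∀ m : ℕ, ∀ s : σ →₀ ℕ, (s.sum fun _ e => e) = m →
      monomial s (1 : ℝ) ∈ R.comap (ZerosRho Z) := by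
    intro m
    induction m using Nat.strong_induction_on with
    | _ m ih =>
      intro s hs
      by_cases hred : ∀ l, s l < D
      · refine Submodule.subset_span ⟨fun l => ⟨s l, hred l⟩, ?_⟩
        show ZerosRho Z (monomial (Finsupp.equivFunOnFinite.symm (fun l => s l)) (1 : ℝ)) = _
        congr 2
        ext l
        simp
      · push Not at hred
        obtain ⟨l, hl⟩ := hred
        have e1 : s = (s - Finsupp.single l D) + Finsupp.single l D := by
          rw [tsub_add_cancel_of_le]
          rw [Finsupp.single_le_iff]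
          exact hl
        set s' := s - Finsupp.single l D with hs'
        have e2 : (s.sum fun _ e => e) = (s'.sum fun _ e => e) + D := by
          conv_lhs => rw [e1]
          rw [Finsupp.sum_add_index' (fun _ => rfl) (fun _ _ _ => rfl),
            Finsupp.sum_single_index rfl]
        have e3 : ZerosRho Z (monomial s (1 : ℝ)) = ZerosRho Z (monomial s' (1 : ℝ) * P l) := by
          funext z
          rw [ZerosRho_apply, ZerosRho_apply, e1, MvPolynomial.monomial_add_single, eval_mul,
            eval_mul, eval_pow, eval_X, hZ z.1 z.2 l]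
        have e4 : (monomial s' (1 : ℝ) * P l).totalDegree < m := by
          have h1 := MvPolynomial.totalDegree_mul (monomial s' (1 : ℝ)) (P l)
          have h2 := MvPolynomial.totalDegree_monomial_le s' (1 : ℝ)
          have h3 := hP l
          have h4 : (s'.sum fun _ => id) = (s'.sum fun _ e => e) := rfl
          omega
        rw [Submodule.mem_comap, e3, ← Submodule.mem_comap]
        exact Zeros_poly (m := m) (fun t ht => ih _ ht t rfl) _ e4
  have hall : ∀ p : MvPolynomial σ ℝ, ZerosRho Z p ∈ R := by
    intro p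
    rw [← Submodule.mem_comap]
    exact Zeros_poly (m := p.totalDegree + 1) (fun t _ => hmon _ t rfl) p (Nat.lt_succ_self _)
  have hsing : ∀ z : Z, ∃ p : MvPolynomial σ ℝ, ZerosRho Z p = Pi.single z 1 := by
    intro z
    have hq : ∀ z' : σ → ℝ, ∃ q : MvPolynomial σ ℝ, eval z.1 q = 1 ∧
        (z' ≠ z.1 → eval z' q = 0) := by
      intro z'
      by_cases h : z' = z.1
      · exact ⟨1, by rw [map_one], fun h' => absurd h h'⟩
      · obtain ⟨l, hl⟩ := Function.ne_iff.mp h
        refine ⟨C ((z.1 l - z' l)⁻¹) * (X l - C (z' l)), ?_, fun _ => ?_⟩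
        · rw [eval_mul, eval_C, map_sub, eval_X, eval_C]
          exact inv_mul_cancel₀ (sub_ne_zero.mpr (Ne.symm hl))
        · rw [eval_mul, eval_C, map_sub, eval_X, eval_C, sub_self, mul_zero]
    choose q hq1 hq2 using hq
    refine ⟨∏ z' ∈ Z, q z', ?_⟩
    funext w
    rw [ZerosRho_apply, map_prod]
    by_cases hw : w = z
    · subst hw
      rw [Pi.single_eq_same]
      exact Finset.prod_eq_one (fun z' _ => hq1 z')
    · rw [Pi.single_eq_of_ne hw]
      refine Finset.prod_eq_zero w.2 (hq2 w.1 ?_)
      intro e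
      exact hw (Subtype.ext e)
  have htop : R = ⊤ := by
    rw [eq_top_iff]
    intro v _
    have h1 : v = ∑ z : Z, v z • (Pi.single z (1 : ℝ) : Z → ℝ) := by
      funext w
      simp [Finset.sum_apply, Pi.single_apply]
    rw [h1]
    refine Submodule.sum_mem _ (fun z _ => Submodule.smul_mem _ _ ?_)
    obtain ⟨p, hp⟩ := hsing z
    rw [← hp]
    exact hall p
  have h1 : Module.finrank ℝ R ≤ Fintype.card (σ → Fin D) := finrank_range_le_card b
  rw [htop, finrank_top, Module.finrank_fintype_fun_eq_card, Fintype.card_coe,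
    Fintype.card_fun, Fintype.card_fin] at h1
  exact h1

end Pool.Agent.helper53.OT
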